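import Mathlib

/-! Basic tools: maximizers of linear forms on finite point families in 4-space. -/

namespace Pool.Agent.Fat

open Matrix Filter Topology

abbrev E4 := Fin 4 → ℝ

variable {V W : Type*}

/-- `v` maximizes the linear form `c` on the family `p`. -/
def IsMx (p : V → E4) (c : E4) (v : V) : Prop := ∀ w, c ⬝ᵥ p w ≤ c ⬝ᵥ p v

/-- `v` lies in `Φ` and maximizes `c` on `Φ`. -/
def MaxOn (p : V → E4) (Φ : Finset V) (c : E4) (v : V) : Prop :=
  v ∈ Φ ∧ ∀ w ∈ Φ, c ⬝ᵥ p w ≤ c ⬝ᵥ p v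

/-- The linear forms that are constant on `Φ`. -/
def Ann (p : V → E4) (Φ : Finset V) : Submodule ℝ E4 where
  carrier := {c | ∀ v ∈ Φ, ∀ w ∈ Φ, c ⬝ᵥ p v = c ⬝ᵥ p w}
  add_mem' := by
    intro a b ha hb v hv w hw
    simp only [add_dotProduct, ha v hv w hw, hb v hv w hw]
  zero_mem' := by intro v _ w _; simp
  smul_mem' := by
    intro t a ha v hv w hw
    simp only [smul_dotProduct, ha v hv w hw]

theorem mem_Ann {p : V → E4} {Φ : Finset V} {c : E4} :
    c ∈ Ann p Φ ↔ ∀ v ∈ Φ, ∀ w ∈ Φ, c ⬝ᵥ p v = c ⬝ᵥ p w := Iff.rfl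

theorem exists_isMx [Fintype V] [Nonempty V] (p : V → E4) (c : E4) : ∃ v, IsMx p c v := by
  obtain ⟨v, -, hv⟩ := Finset.exists_max_image Finset.univ (fun v => c ⬝ᵥ p v)
    Finset.univ_nonempty
  exact ⟨v, fun w => hv w (Finset.mem_univ _)⟩

theorem exists_maxOn (p : V → E4) {Φ : Finset V} (h : Φ.Nonempty) (c : E4) :
    ∃ v, MaxOn p Φ c v := by
  obtain ⟨v, h1, hv⟩ := Finset.exists_max_image Φ (fun v => c ⬝ᵥ p v) h
  exact ⟨v, h1, hv⟩

theorem IsMx.eq {p : V → E4} {c : E4} {v w : V} (hv : IsMx p c v) (hw : IsMx p c w) :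
    c ⬝ᵥ p v = c ⬝ᵥ p w := le_antisymm (hw v) (hv w)

theorem IsMx.of_eq {p : V → E4} {c : E4} {v w : V} (hv : IsMx p c v)
    (h : c ⬝ᵥ p v = c ⬝ᵥ p w) : IsMx p c w := fun u => h ▸ hv u

theorem IsMx.of_le {p : V → E4} {c : E4} {v w : V} (hv : IsMx p c v)
    (h : c ⬝ᵥ p v ≤ c ⬝ᵥ p w) : IsMx p c w := fun u => (hv u).trans h

theorem IsMx.lt {p : V → E4} {c : E4} {v w : V} (hv : IsMx p c v) (hw : ¬ IsMx p c w) :
    c ⬝ᵥ p w < c ⬝ᵥ p v := lt_of_not_ge fun h => hw (hv.of_le h)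

theorem IsMx.maxOn {p : V → E4} {c : E4} {v : V} {Φ : Finset V} (hv : IsMx p c v)
    (h : v ∈ Φ) : MaxOn p Φ c v := ⟨h, fun w _ => hv w⟩

theorem isMx_smul {p : V → E4} {c : E4} {v : V} {t : ℝ} (ht : 0 < t) :
    IsMx p (t • c) v ↔ IsMx p c v := by
  simp only [IsMx, smul_dotProduct, smul_eq_mul]
  exact forall_congr' fun w => mul_le_mul_iff_right₀ ht

theorem isMx_zero (p : V → E4) (v : V) : IsMx p 0 v := fun w => by simp

theorem IsMx.smul {p : V → E4} {c : E4} {v : V} {t : ℝ} (h : IsMx p c v) (ht : 0 ≤ t) :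
    IsMx p (t • c) v := by
  intro w
  simp only [smul_dotProduct, smul_eq_mul]
  exact mul_le_mul_of_nonneg_left (h w) ht

theorem IsMx.add {p : V → E4} {c c' : E4} {v : V} (h : IsMx p c v) (h' : IsMx p c' v) :
    IsMx p (c + c') v := by
  intro w
  simp only [add_dotProduct]
  exact add_le_add (h w) (h' w)

theorem isMx_add {p : V → E4} {c c' : E4} {v : V} (h : IsMx p c v) (h' : IsMx p c' v) (w : V) :
    IsMx p (c + c') w ↔ IsMx p c w ∧ IsMx p c' w := by
  refine ⟨fun hw => ?_, fun hw => hw.1.add hw.2⟩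
  have h1 := hw v
  have h2 := h w
  have h3 := h' w
  simp only [add_dotProduct] at h1
  exact ⟨h.of_le (by linarith), h'.of_le (by linarith)⟩

theorem tendsto_dot {X : Type*} {l : Filter X} {f g : X → E4} {a b : E4}
    (hf : Tendsto f l (𝓝 a)) (hg : Tendsto g l (𝓝 b)) :
    Tendsto (fun x => f x ⬝ᵥ g x) l (𝓝 (a ⬝ᵥ b)) := by
  have hc : Continuous fun z : E4 × E4 => z.1 ⬝ᵥ z.2 := by fun_prop
  exact (hc.tendsto (a, b)).comp (hf.prodMk_nhds hg)

/-- Upper semicontinuity of the set of maximizers. -/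
theorem usc [Fintype W] {X : Type*} {l : Filter X} {p : V → E4} {c₀ : E4}
    {q : X → W → E4} {c : X → E4} {pr : W → V} (hpr : Function.Surjective pr)
    (hc : Tendsto c l (𝓝 c₀)) (hq : ∀ a, Tendsto (fun x => q x a) l (𝓝 (p (pr a)))) :
    ∀ᶠ x in l, ∀ a, IsMx (q x) (c x) a → IsMx p c₀ (pr a) := by
  rw [eventually_all]
  intro a
  by_cases h : IsMx p c₀ (pr a)
  · exact Eventually.of_forall fun _ _ => h
  · simp only [IsMx, not_forall, not_le] at h
    obtain ⟨w, hw⟩ := h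
    obtain ⟨b, rfl⟩ := hpr w
    have := (tendsto_dot hc (hq a)).eventually_lt (tendsto_dot hc (hq b)) hw
    filter_upwards [this] with x hx hm
    exact absurd (hm b) (not_le.2 hx)

theorem usc' [Fintype V] {X : Type*} {l : Filter X} {p : V → E4} {c₀ : E4}
    {c : X → E4} (hc : Tendsto c l (𝓝 c₀)) :
    ∀ᶠ x in l, ∀ a, IsMx p (c x) a → IsMx p c₀ a :=
  usc (pr := id) (q := fun _ => p) Function.surjective_id hc (fun _ => tendsto_const_nhds)

/-- Lexicographic perturbation. -/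
theorem lex [Fintype V] [Nonempty V] (p : V → E4) (c u : E4) :
    ∀ᶠ ζ in 𝓝[>] (0 : ℝ), ∀ a, IsMx p (c + ζ • u) a ↔
      (IsMx p c a ∧ ∀ b, IsMx p c b → u ⬝ᵥ p b ≤ u ⬝ᵥ p a) := by
  have hc : Tendsto (fun ζ : ℝ => c + ζ • u) (𝓝[>] 0) (𝓝 c) := by
    have : Continuous fun ζ : ℝ => c + ζ • u := by fun_prop
    have h := this.tendsto 0
    simp only [zero_smul, add_zero] at h
    exact h.mono_left nhdsWithin_le_nhds
  filter_upwards [usc' (p := p) hc, self_mem_nhdsWithin] with ζ h hζ a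
  have hζ : 0 < ζ := hζ
  constructor
  · intro ha
    refine ⟨h a ha, fun b hb => ?_⟩
    have h1 := ha b
    have h2 := hb.eq (h a ha)
    simp only [add_dotProduct, smul_dotProduct, smul_eq_mul] at h1
    have : ζ * (u ⬝ᵥ p b) ≤ ζ * (u ⬝ᵥ p a) := by linarith
    exact le_of_mul_le_mul_left this hζ
  · rintro ⟨ha, hb⟩
    obtain ⟨b, hb'⟩ := exists_isMx p (c + ζ • u)
    refine hb'.of_le ?_
    have h1 := hb b (h b hb')
    have h2 := ha b
    simp only [add_dotProduct, smul_dotProduct, smul_eq_mul]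
    nlinarith

/-! ### Dimension counts -/

theorem finrank_E4 : Module.finrank ℝ E4 = 4 := by simp

theorem finrank_Ann_le (p : V → E4) (Φ : Finset V) : Module.finrank ℝ (Ann p Φ) ≤ 4 := by
  have := Submodule.finrank_le (Ann p Φ)
  rwa [finrank_E4] at this

theorem finrank_Ann_add (p : V → E4) (Φ : Finset V) :
    Module.finrank ℝ (vectorSpan ℝ (p '' (Φ : Set V))) + Module.finrank ℝ (Ann p Φ) = 4 := by
  have h := Subspace.finrank_add_finrank_dualAnnihilator_eq (vectorSpan ℝ (p '' (Φ : Set V)))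
  rw [finrank_E4] at h
  have e : Ann p Φ = ((vectorSpan ℝ (p '' (Φ : Set V))).dualAnnihilator).comap
      (dotProductEquiv ℝ (Fin 4)).toLinearMap := by
    ext c
    rw [Submodule.mem_comap, Submodule.mem_dualAnnihilator, mem_Ann, vectorSpan_def]
    constructor
    · intro hc x hx
      induction hx using Submodule.span_induction with
      | mem x hx =>
        obtain ⟨_, ⟨v, hv, rfl⟩, _, ⟨w, hw, rfl⟩, rfl⟩ := hx
        have := hc v hv w hw
        simp [dotProduct_sub, this]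
      | zero => simp
      | add x y _ _ hx hy => rw [map_add, hx, hy, add_zero]
      | smul t x _ hx => rw [map_smul, hx, smul_zero]
    · intro hc v hv w hw
      have := hc (p v -ᵥ p w) (Submodule.subset_span
        ⟨p v, ⟨v, hv, rfl⟩, p w, ⟨w, hw, rfl⟩, rfl⟩)
      simp [dotProduct_sub] at this
      linarith
  rw [e, Submodule.comap_equiv_eq_map_symm, LinearEquiv.finrank_map_eq]
  exact h

theorem finrank_inf_ge (A B : Submodule ℝ E4) :
    Module.finrank ℝ A + Module.finrank ℝ B ≤ Module.finrank ℝ (A ⊓ B : Submodule ℝ E4) + 4 := by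
  have h := Submodule.finrank_sup_add_finrank_inf_eq A B
  have h2 := Submodule.finrank_le (A ⊔ B)
  rw [finrank_E4] at h2
  omega

theorem finrank_comap_ge (L : E4 →ₗ[ℝ] E4) (B : Submodule ℝ E4) :
    Module.finrank ℝ B ≤ Module.finrank ℝ (B.comap L) := by
  have h1 : B.comap L = LinearMap.ker (B.mkQ ∘ₗ L) := by
    rw [LinearMap.ker_comp, Submodule.ker_mkQ]
  have h2 := LinearMap.finrank_range_add_finrank_ker (B.mkQ ∘ₗ L)
  have h3 := Submodule.finrank_le (LinearMap.range (B.mkQ ∘ₗ L))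
  have h4 := Submodule.finrank_quotient_add_finrank B
  rw [h1]
  omega

/-- The kernel of a single linear form. -/
def perp (d : E4) : Submodule ℝ E4 where
  carrier := {c | c ⬝ᵥ d = 0}
  add_mem' := by
    intro a b ha hb
    simp only [Set.mem_ofPred_eq] at *
    simp [add_dotProduct, ha, hb]
  zero_mem' := by simp
  smul_mem' := by
    intro t a ha
    simp only [Set.mem_ofPred_eq] at *
    simp [smul_dotProduct, ha]

theorem mem_perp {d c : E4} : c ∈ perp d ↔ c ⬝ᵥ d = 0 := Iff.rfl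

theorem finrank_perp_ge (d : E4) : 3 ≤ Module.finrank ℝ (perp d) := by
  let f : E4 →ₗ[ℝ] ℝ :=
    { toFun := fun c => c ⬝ᵥ d
      map_add' := fun a b => add_dotProduct _ _ _
      map_smul' := fun t a => by simp [smul_dotProduct] }
  have h1 : perp d = LinearMap.ker f := by ext c; rfl
  have h2 := LinearMap.finrank_range_add_finrank_ker f
  have h3 := Submodule.finrank_le (LinearMap.range f)
  rw [finrank_E4] at h2
  rw [Module.finrank_self] at h3
  rw [h1]; omega

theorem finrank_Ann_pair [DecidableEq V] (p : V → E4) (v w : V) :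
    3 ≤ Module.finrank ℝ (Ann p {v, w}) := by
  refine (finrank_perp_ge (p v - p w)).trans (Submodule.finrank_mono ?_)
  intro c hc
  rw [mem_perp, dotProduct_sub, sub_eq_zero] at hc
  intro a ha b hb
  simp only [Finset.mem_insert, Finset.mem_singleton] at ha hb
  rcases ha with rfl | rfl <;> rcases hb with rfl | rfl <;> simp [hc]

theorem finrank_Ann_single (p : V → E4) (v : V) :
    4 ≤ Module.finrank ℝ (Ann p {v}) := by
  have : Ann p {v} = ⊤ := by
    rw [eq_top_iff]
    intro c _ a ha b hb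
    simp only [Finset.mem_singleton] at ha hb
    rw [ha, hb]
  rw [this, finrank_top, finrank_E4]

theorem finrank_lt_of_not_mem {A B : Submodule ℝ E4} (h : A ≤ B) {c : E4} (hB : c ∈ B)
    (hA : c ∉ A) : Module.finrank ℝ A < Module.finrank ℝ B :=
  Submodule.finrank_lt_finrank_of_lt (lt_of_le_of_ne h fun e => hA (e ▸ hB))

theorem Ann_mono (p : V → E4) {Φ Ψ : Finset V} (h : Φ ⊆ Ψ) : Ann p Ψ ≤ Ann p Φ :=
  fun _ hc v hv w hw => hc v (h hv) w (h hw)

end Pool.Agent.Fat
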