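import Pool.Agent.Lib.MP_bbcf47_co.Basic

/-! Exposed faces of the convex hull of a finite family, in terms of sets of maximizers. -/

namespace Pool.Agent.Fat

open Matrix Filter Topology

variable {V : Type*} [Fintype V]

open Classical in
/-- The set of maximizers as a finset. -/
noncomputable def Mset (p : V → E4) (c : E4) : Finset V := Finset.univ.filter (IsMx p c)

theorem mem_Mset {p : V → E4} {c : E4} {v : V} : v ∈ Mset p c ↔ IsMx p c v := by
  simp [Mset]

/-- The face of the hull exposed by `c`. -/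
def face (p : V → E4) (c : E4) : Set E4 :=
  {x | x ∈ convexHull ℝ (Set.range p) ∧ ∀ y ∈ convexHull ℝ (Set.range p), c ⬝ᵥ y ≤ c ⬝ᵥ x}

omit [Fintype V] in
theorem hull_le {p : V → E4} {c : E4} {v : V} (hv : IsMx p c v) :
    ∀ y ∈ convexHull ℝ (Set.range p), c ⬝ᵥ y ≤ c ⬝ᵥ p v := by
  have : convexHull ℝ (Set.range p) ⊆ {y | c ⬝ᵥ y ≤ c ⬝ᵥ p v} := by
    refine convexHull_min ?_ ?_
    · rintro _ ⟨w, rfl⟩; exact hv w
    · intro x hx y hy a b ha hb hab
      simp only [Set.mem_ofPred_eq, dotProduct_add, dotProduct_smul, smul_eq_mul] at *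
      have e : c ⬝ᵥ p v = a * (c ⬝ᵥ p v) + b * (c ⬝ᵥ p v) := by rw [← add_mul, hab, one_mul]
      nlinarith
  exact fun y hy => this hy

omit [Fintype V] in
theorem mem_face_iff {p : V → E4} {c : E4} {v : V} : p v ∈ face p c ↔ IsMx p c v := by
  constructor
  · rintro ⟨-, h⟩ w
    exact h _ (subset_convexHull ℝ _ ⟨w, rfl⟩)
  · intro hv
    exact ⟨subset_convexHull ℝ _ ⟨v, rfl⟩, hull_le hv⟩

theorem face_eq [Nonempty V] (p : V → E4) (c : E4) :
    face p c = convexHull ℝ (p '' (Mset p c : Set V)) := by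
  obtain ⟨v, hv⟩ := exists_isMx p c
  apply Set.Subset.antisymm
  · rintro x ⟨hx, hmax⟩
    have key : convexHull ℝ (Set.range p) ⊆
        {y | c ⬝ᵥ y ≤ c ⬝ᵥ p v ∧
          (c ⬝ᵥ y = c ⬝ᵥ p v → y ∈ convexHull ℝ (p '' (Mset p c : Set V)))} := by
      refine convexHull_min ?_ ?_
      · rintro _ ⟨w, rfl⟩
        refine ⟨hv w, fun h => subset_convexHull ℝ _ ⟨w, ?_, rfl⟩⟩
        exact mem_Mset.2 (hv.of_eq h.symm)
      · intro x hx y hy a b ha hb hab
        simp only [Set.mem_ofPred_eq, dotProduct_add, dotProduct_smul, smul_eq_mul] at *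
        have e : c ⬝ᵥ p v = a * (c ⬝ᵥ p v) + b * (c ⬝ᵥ p v) := by rw [← add_mul, hab, one_mul]
        refine ⟨by nlinarith [hx.1, hy.1], fun h => ?_⟩
        rcases ha.eq_or_lt with rfl | ha'
        · have hb1 : b = 1 := by linarith
          subst hb1
          simpa using hy.2 (by linarith)
        rcases hb.eq_or_lt with rfl | hb'
        · have ha1 : a = 1 := by linarith
          subst ha1
          simpa using hx.2 (by linarith)
        have h1 : c ⬝ᵥ x = c ⬝ᵥ p v := by
          by_contra hne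
          have := lt_of_le_of_ne hx.1 hne
          nlinarith [hy.1]
        have h2 : c ⬝ᵥ y = c ⬝ᵥ p v := by
          by_contra hne
          have := lt_of_le_of_ne hy.1 hne
          nlinarith [hx.1]
        exact convex_convexHull ℝ _ (hx.2 h1) (hy.2 h2) ha hb hab
    have h := key hx
    exact h.2 (le_antisymm h.1 (hmax _ (subset_convexHull ℝ _ ⟨v, rfl⟩)))
  · refine convexHull_min ?_ ?_
    · rintro _ ⟨w, hw, rfl⟩
      exact mem_face_iff.2 (mem_Mset.1 hw)
    · intro x hx y hy a b ha hb hab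
      refine ⟨convex_convexHull ℝ _ hx.1 hy.1 ha hb hab, fun z hz => ?_⟩
      have h1 := hx.2 z hz
      have h2 := hy.2 z hz
      simp only [dotProduct_add, dotProduct_smul, smul_eq_mul]
      have e : c ⬝ᵥ z = a * (c ⬝ᵥ z) + b * (c ⬝ᵥ z) := by rw [← add_mul, hab, one_mul]
      nlinarith

theorem finrank_face [Nonempty V] (p : V → E4) (c : E4) :
    Module.finrank ℝ (affineSpan ℝ (face p c)).direction +
      Module.finrank ℝ (Ann p (Mset p c)) = 4 := by
  rw [face_eq, affineSpan_convexHull, direction_affineSpan]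
  exact finrank_Ann_add p _

theorem exists_dot (l : E4 →L[ℝ] ℝ) : ∃ c : E4, ∀ x, l x = c ⬝ᵥ x := by
  obtain ⟨c, hc⟩ := (dotProductEquiv ℝ (Fin 4)).surjective (l : E4 →ₗ[ℝ] ℝ)
  refine ⟨c, fun x => ?_⟩
  have := congrArg (fun f : Module.Dual ℝ E4 => f x) hc
  simpa using this.symm

theorem isExposed_iff [Nonempty V] (p : V → E4) (F : Set E4) :
    (IsExposed ℝ (convexHull ℝ (Set.range p)) F ∧ F.Nonempty) ↔ ∃ c, F = face p c := by
  constructor
  · rintro ⟨h, hne⟩
    obtain ⟨l, rfl⟩ := h hne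
    obtain ⟨c, hc⟩ := exists_dot l
    refine ⟨c, ?_⟩
    ext x
    simp [face, hc]
  · rintro ⟨c, rfl⟩
    obtain ⟨v, hv⟩ := exists_isMx p c
    refine ⟨fun _ => ?_, ⟨p v, mem_face_iff.2 hv⟩⟩
    refine ⟨LinearMap.toContinuousLinearMap (dotProductEquiv ℝ (Fin 4) c), ?_⟩
    ext x
    simp [face]

open Classical in
/-- Index sets of the `k`-dimensional faces. -/
noncomputable def faceSets (p : V → E4) (k : ℕ) : Finset (Finset V) :=
  Finset.univ.filter fun T => (∃ c, T = Mset p c) ∧ k + Module.finrank ℝ (Ann p T) = 4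

theorem mem_faceSets {p : V → E4} {k : ℕ} {T : Finset V} :
    T ∈ faceSets p k ↔ (∃ c, T = Mset p c) ∧ k + Module.finrank ℝ (Ann p T) = 4 := by
  simp [faceSets]

theorem ncard_faces [Nonempty V] (p : V → E4) (k : ℕ) :
    Set.ncard {F : Set E4 | IsExposed ℝ (convexHull ℝ (Set.range p)) F ∧ F.Nonempty ∧
      Module.finrank ℝ (affineSpan ℝ F).direction = k} = (faceSets p k).card := by
  rw [← Set.ncard_coe_finset]
  symm
  refine Set.ncard_congr (fun T _ => convexHull ℝ (p '' (T : Set V))) ?_ ?_ ?_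
  · intro T hT
    obtain ⟨⟨c, rfl⟩, hk⟩ := mem_faceSets.1 hT
    rw [← face_eq]
    have h1 := (isExposed_iff p (face p c)).2 ⟨c, rfl⟩
    have h2 := finrank_face p c
    exact ⟨h1.1, h1.2, by omega⟩
  · intro T T' hT hT' h
    obtain ⟨⟨c, rfl⟩, -⟩ := mem_faceSets.1 hT
    obtain ⟨⟨c', rfl⟩, -⟩ := mem_faceSets.1 hT'
    simp only [← face_eq] at h
    ext v
    rw [mem_Mset, mem_Mset, ← mem_face_iff, ← mem_face_iff, h]
  · rintro F ⟨h1, h2, h3⟩
    obtain ⟨c, rfl⟩ := (isExposed_iff p F).1 ⟨h1, h2⟩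
    refine ⟨Mset p c, ?_, (face_eq p c).symm⟩
    have h2 := finrank_face p c
    exact mem_faceSets.2 ⟨⟨c, rfl⟩, by omega⟩

theorem interior_nonempty [Nonempty V] (p : V → E4)
    (h : ∀ c : E4, (∀ v, IsMx p c v) → c = 0) :
    (interior (convexHull ℝ (Set.range p))).Nonempty := by
  rw [interior_convexHull_nonempty_iff_affineSpan_eq_top,
    AffineSubspace.affineSpan_eq_top_iff_vectorSpan_eq_top_of_nonempty _ _ _
      (Set.range_nonempty p)]
  have h1 := finrank_Ann_add p Finset.univ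
  have h2 : Ann p Finset.univ = ⊥ := by
    rw [eq_bot_iff]
    intro c hc
    exact h c fun v w => (hc w (Finset.mem_univ _) v (Finset.mem_univ _)).le
  rw [h2, finrank_bot, Finset.coe_univ, Set.image_univ] at h1
  apply Submodule.eq_top_of_finrank_eq
  rw [finrank_E4]; omega

theorem card_faceSets_zero [Nonempty V] (p : V → E4) :
    (faceSets p 0).card ≤ Fintype.card V := by
  classical
  have : faceSets p 0 ⊆ Finset.univ.image fun v => Finset.univ.filter fun w => p w = p v := by
    intro T hT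
    obtain ⟨⟨c, rfl⟩, hk⟩ := mem_faceSets.1 hT
    obtain ⟨v, hv⟩ := exists_isMx p c
    have htop : Ann p (Mset p c) = ⊤ := by
      apply Submodule.eq_top_of_finrank_eq
      rw [finrank_E4]; omega
    refine Finset.mem_image.2 ⟨v, Finset.mem_univ _, ?_⟩
    ext w
    simp only [Finset.mem_filter, Finset.mem_univ, true_and]
    constructor
    · intro h
      exact mem_Mset.2 (hv.of_eq (by rw [h]))
    · intro h
      have h1 : p w - p v ∈ Ann p (Mset p c) := htop ▸ Submodule.mem_top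
      have h2 := h1 w h v (mem_Mset.2 hv)
      rw [← sub_eq_zero, ← dotProduct_sub, dotProduct_self_eq_zero, sub_eq_zero] at h2
      exact h2
  exact (Finset.card_le_card this).trans (Finset.card_image_le.trans (by simp))

/-- The final packaging: a family with suitable face counts gives the statement. -/
theorem package [Nonempty V] (p : V → E4) (M : ℝ)
    (h : ∀ c : E4, (∀ v, IsMx p c v) → c = 0)
    (h0 : 10 < (faceSets p 0).card + (faceSets p 3).card)
    (h1 : M * (((faceSets p 0).card : ℝ) + ((faceSets p 3).card : ℝ) - 10) <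
      ((faceSets p 1).card : ℝ) + ((faceSets p 2).card : ℝ) - 20) :
    ∃ S : Finset (Fin 4 → ℝ), ∃ f : ℕ → ℕ,
      (interior (convexHull ℝ (S : Set (Fin 4 → ℝ)))).Nonempty ∧
      (∀ k : ℕ, f k = Set.ncard {F : Set (Fin 4 → ℝ) |
          IsExposed ℝ (convexHull ℝ (S : Set (Fin 4 → ℝ))) F ∧ F.Nonempty ∧
          Module.finrank ℝ (affineSpan ℝ F).direction = k}) ∧
      10 < f 0 + f 3 ∧
      M * ((f 0 : ℝ) + (f 3 : ℝ) - 10) < (f 1 : ℝ) + (f 2 : ℝ) - 20 := by
  classical
  refine ⟨Finset.univ.image p, fun k => (faceSets p k).card, ?_, ?_, h0, h1⟩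
  · simpa using interior_nonempty p h
  · intro k
    simpa using (ncard_faces p k).symm

end Pool.Agent.Fat
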