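import Pool.Agent.Lib.MP_bbcf47_co.Iter

/-! Gadget states: gadgets given by explicit certificates. -/

namespace Pool.Agent.Fat

open Matrix Filter Topology

theorem four_kill {a b c₁ c₂ d₁ d₂ : E4} (ha₁ : a ⬝ᵥ d₁ = 0) (ha₂ : a ⬝ᵥ d₂ = 0)
    (hb₁ : b ⬝ᵥ d₁ = 0) (hb₂ : b ⬝ᵥ d₂ = 0) (h11 : c₁ ⬝ᵥ d₁ = 0) (h12 : c₁ ⬝ᵥ d₂ ≠ 0)
    (h22 : c₂ ⬝ᵥ d₂ = 0) (h21 : c₂ ⬝ᵥ d₁ ≠ 0) {i j : Fin 4} (hab : a i * b j - a j * b i ≠ 0)
    {z : E4} (z1 : a ⬝ᵥ z = 0) (z2 : b ⬝ᵥ z = 0) (z3 : c₁ ⬝ᵥ z = 0) (z4 : c₂ ⬝ᵥ z = 0) :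
    z = 0 := by
  have hli : LinearIndependent ℝ ![a, b, c₁, c₂] := by
    rw [Fintype.linearIndependent_iff]
    intro g hg
    simp only [Fin.sum_univ_four, cons_val_zero, cons_val_one, cons_val] at hg
    have k1 := congrArg (· ⬝ᵥ d₁) hg
    have k2 := congrArg (· ⬝ᵥ d₂) hg
    simp only [add_dotProduct, smul_dotProduct, smul_eq_mul, ha₁, ha₂, hb₁, hb₂, h11, h22,
      mul_zero, add_zero, zero_add, zero_dotProduct] at k1 k2
    have g3 := (mul_eq_zero.1 k1).resolve_right h21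
    have g2 := (mul_eq_zero.1 k2).resolve_right h12
    rw [g2, g3, zero_smul, zero_smul, add_zero, add_zero] at hg
    have l1 := congrFun hg i
    have l2 := congrFun hg j
    simp only [Pi.add_apply, Pi.smul_apply, smul_eq_mul, Pi.zero_apply] at l1 l2
    have g0 : g 0 = 0 := by
      have : g 0 * (a i * b j - a j * b i) = 0 := by linear_combination b j * l1 - b i * l2
      exact (mul_eq_zero.1 this).resolve_right hab
    have g1 : g 1 = 0 := by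
      have : g 1 * (a i * b j - a j * b i) = 0 := by linear_combination a i * l2 - a j * l1
      exact (mul_eq_zero.1 this).resolve_right hab
    intro k
    fin_cases k
    · exact g0
    · exact g1
    · exact g2
    · exact g3
  have htop := hli.span_eq_top_of_card_eq_finrank' (by simp)
  have hle : Submodule.span ℝ (Set.range ![a, b, c₁, c₂]) ≤ perp z := by
    rw [Submodule.span_le]
    rintro _ ⟨k, rfl⟩
    fin_cases k
    · exact z1
    · exact z2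
    · exact z3
    · exact z4
  have : z ∈ perp z := hle (htop ▸ Submodule.mem_top)
  exact dotProduct_self_eq_zero.1 this

theorem four_solve {a b c₁ c₂ d₁ d₂ : E4} (ha₁ : a ⬝ᵥ d₁ = 0) (ha₂ : a ⬝ᵥ d₂ = 0)
    (hb₁ : b ⬝ᵥ d₁ = 0) (hb₂ : b ⬝ᵥ d₂ = 0) (h11 : c₁ ⬝ᵥ d₁ = 0) (h12 : c₁ ⬝ᵥ d₂ ≠ 0)
    (h22 : c₂ ⬝ᵥ d₂ = 0) (h21 : c₂ ⬝ᵥ d₁ ≠ 0) {i j : Fin 4} (hab : a i * b j - a j * b i ≠ 0) :
    ∃ z : E4, a ⬝ᵥ z = 0 ∧ b ⬝ᵥ z = 1 ∧ c₁ ⬝ᵥ z = 0 ∧ c₂ ⬝ᵥ z = 0 := by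
  let f : E4 →ₗ[ℝ] E4 := Lm ![fun _ : Unit => a, fun _ => b, fun _ => c₁, fun _ => c₂] ()
  have hf : Function.Injective f := by
    rw [injective_iff_map_eq_zero]
    intro z hz
    refine four_kill ha₁ ha₂ hb₁ hb₂ h11 h12 h22 h21 hab ?_ ?_ ?_ ?_ <;> rw [dotProduct_comm]
    · exact congrFun hz 0
    · exact congrFun hz 1
    · exact congrFun hz 2
    · exact congrFun hz 3
  obtain ⟨z, hz⟩ := LinearMap.injective_iff_surjective.1 hf ![0, 1, 0, 0]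
  refine ⟨z, ?_, ?_, ?_, ?_⟩ <;> rw [dotProduct_comm]
  · exact congrFun hz 0
  · exact congrFun hz 1
  · exact congrFun hz 2
  · exact congrFun hz 3

theorem compat_of_pairs {V ι : Type*} {p : V → E4} {d : ι → V → E4} {Φ : Finset V}
    (h : ∀ v ∈ Φ, ∀ w ∈ Φ, ∃ K, 0 ≤ K ∧ ∀ c, MaxOn p Φ c v → ∀ i,
      |c ⬝ᵥ d i v - c ⬝ᵥ d i w| ≤ K * (c ⬝ᵥ p v - c ⬝ᵥ p w)) : Compat p d Φ := by
  classical
  choose! K hK using h
  refine ⟨∑ x ∈ Φ ×ˢ Φ, K x.1 x.2, Finset.sum_nonneg fun x hx =>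
    (hK _ (Finset.mem_product.1 hx).1 _ (Finset.mem_product.1 hx).2).1, ?_⟩
  intro c v w hv hw i
  refine ((hK v hv.1 w hw).2 c hv i).trans
    (mul_le_mul_of_nonneg_right ?_ (sub_nonneg.2 (hv.2 w hw)))
  exact Finset.single_le_sum (f := fun x : V × V => K x.1 x.2) (a := (v, w)) (fun x hx =>
    (hK _ (Finset.mem_product.1 hx).1 _ (Finset.mem_product.1 hx).2).1)
    (Finset.mem_product.2 ⟨hv.1, hw⟩)

theorem compat_pair {R : Type*} [DecidableEq R] {q e : R → E4} {r s : R} {t : ℝ}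
    (h : e s - e r = t • (q s - q r)) : Compat q (fun _ : Unit => e) {r, s} := by
  refine ⟨|t|, abs_nonneg _, fun c v w hv hw _ => ?_⟩
  have k := congrArg (c ⬝ᵥ ·) h
  simp only [dotProduct_sub, dotProduct_smul, smul_eq_mul] at k
  have hle := hv.2 w hw
  have hv1 := hv.1
  simp only [Finset.mem_insert, Finset.mem_singleton] at hv1 hw
  rcases hv1 with rfl | rfl <;> rcases hw with rfl | rfl
  · simp
  · rw [abs_sub_comm, k, abs_mul, abs_of_nonpos (sub_nonpos.2 hle), neg_sub]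
  · rw [k, abs_mul, abs_of_nonneg (sub_nonneg.2 hle)]
  · simp

/-- A gadget with explicit certificates and pending classes of edges. -/
structure GS (R P L : Type) where
  q : R → E4
  e : R → E4
  nb : Bool → R → R
  pol : Bool → R → P
  mid : R → R
  cP : P → E4
  nP : P → E4
  cE : Bool → R → E4
  C : L → R → Prop
  cS : L → E4
  lab : L → Bool
  nb_inv : ∀ b r, nb b (nb b r) = r
  nb_ne : ∀ b r, nb b r ≠ r
  nb_ne' : ∀ r, nb true r ≠ nb false r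
  pol_nb : ∀ b r, pol b (nb b r) = pol b r
  cE_nb : ∀ b r, cE b (nb b r) = cE b r
  maxP : ∀ π r, IsMx q (cP π) r ↔ pol true r = π ∨ pol false r = π
  P0 : ∀ π, 0 < cP π 0
  P1 : ∀ π, 0 < cP π 1
  nP_const : ∀ π r s, (pol true r = π ∨ pol false r = π) → (pol true s = π ∨ pol false s = π) →
    nP π ⬝ᵥ q r = nP π ⬝ᵥ q s
  Pe : ∀ b r, cP (pol b r) ⬝ᵥ e r = 0
  ne : ∀ b r, nP (pol b r) ⬝ᵥ e r = 1
  ny : ∀ π, cP π 0 * nP π 2 - cP π 2 * nP π 0 ≠ 0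
  maxE : ∀ b r s, IsMx q (cE b r) s ↔ s = r ∨ s = nb b r
  E0 : ∀ b r, cE b r 0 = 0
  E1 : ∀ b r, 0 < cE b r 1
  E2 : ∀ b r, 0 < sg b * cE b r 2
  Ee : ∀ b r, cE b r ⬝ᵥ e r = 0
  mid_spec : ∀ r, pol true r ≠ pol false r → (∀ b, mid r ≠ nb b r) ∧ mid r ≠ r ∧
    ∀ s, ((pol true s = pol true r ∨ pol false s = pol true r) ∧
      (pol true s = pol false r ∨ pol false s = pol false r)) ↔ s = r ∨ s = mid r
  C_pol : ∀ l r, C l r → pol true r = pol false r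
  C_nb : ∀ l r, C l r → C l (nb (lab l) r)
  maxS : ∀ l r, IsMx q (cS l) r ↔ C l r
  S0 : ∀ l, cS l 0 < 0
  S1 : ∀ l, cS l 1 = 0
  S_rel : ∀ l r, C l r → ∃ θ : ℝ, cE (lab l) r = cS l + θ • cP (pol true r)
  C_disj : ∀ l l' r, l ≠ l' → C l r → C l' r → lab l ≠ lab l'

namespace GS

variable {R P L : Type} (S : GS R P L)

/-- Membership in a polygon. -/
def InP (π : P) (r : R) : Prop := S.pol true r = π ∨ S.pol false r = π

theorem inP_self (b : Bool) (r : R) : S.InP (S.pol b r) r := by cases b <;> simp [InP]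

theorem inP_nb (b : Bool) (r : R) : S.InP (S.pol b r) (S.nb b r) := by
  rw [← S.pol_nb]; exact S.inP_self _ _

theorem InP.Pe {S : GS R P L} {π : P} {r : R} (h : S.InP π r) : S.cP π ⬝ᵥ S.e r = 0 := by
  rcases h with rfl | rfl <;> exact S.Pe _ _

theorem InP.ne {S : GS R P L} {π : P} {r : R} (h : S.InP π r) : S.nP π ⬝ᵥ S.e r = 1 := by
  rcases h with rfl | rfl <;> exact S.ne _ _

theorem InP.cP_eq {S : GS R P L} {π : P} {r s : R} (h : S.InP π r) (h' : S.InP π s) :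
    S.cP π ⬝ᵥ S.q r = S.cP π ⬝ᵥ S.q s := ((S.maxP _ _).2 h).eq ((S.maxP _ _).2 h')

theorem Ee' (b : Bool) (r : R) : S.cE b r ⬝ᵥ S.e (S.nb b r) = 0 := by
  rw [← S.cE_nb]; exact S.Ee _ _

theorem isMx_E (b : Bool) (r : R) : IsMx S.q (S.cE b r) r := (S.maxE _ _ _).2 (Or.inl rfl)

theorem isMx_E' (b : Bool) (r : R) : IsMx S.q (S.cE b r) (S.nb b r) :=
  (S.maxE _ _ _).2 (Or.inr rfl)

theorem nb_ne_not (b : Bool) (r : R) : S.nb (!b) r ≠ S.nb b r := by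
  cases b
  · exact S.nb_ne' r
  · exact (S.nb_ne' r).symm

theorem mid_iff {r : R} (h : S.pol true r ≠ S.pol false r) (b : Bool) (s : R) :
    (S.InP (S.pol b r) s ∧ S.InP (S.pol (!b) r) s) ↔ s = r ∨ s = S.mid r := by
  rw [← (S.mid_spec r h).2.2 s]
  cases b
  · exact and_comm
  · rfl

theorem e3 (r : R) : S.e r 3 ≠ 0 := by
  intro h3
  have k1 := S.Ee true r
  have k2 := S.Ee false r
  have k3 := S.Pe true r
  have k4 := S.ne true r
  have a1 := S.E1 true r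
  have a2 := S.E1 false r
  have b1 := S.E2 true r
  have b2 := S.E2 false r
  have c0 := S.P0 (S.pol true r)
  simp only [dotProduct, Fin.sum_univ_four, h3, S.E0, mul_zero, zero_mul, add_zero,
    zero_add] at k1 k2 k3 k4
  simp only [sg_true, sg_false, one_mul, neg_mul] at b1 b2
  have e1 : S.e r 1 = 0 := by
    have : S.e r 1 * (S.cE true r 1 * (-S.cE false r 2) + S.cE false r 1 * S.cE true r 2) = 0 := by
      linear_combination (-S.cE false r 2) * k1 + S.cE true r 2 * k2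
    refine (mul_eq_zero.1 this).resolve_right (ne_of_gt ?_)
    positivity
  have e2 : S.e r 2 = 0 := by
    rw [e1, mul_zero, zero_add] at k1
    exact (mul_eq_zero.1 k1).resolve_left b1.ne'
  have e0 : S.e r 0 = 0 := by
    rw [e1, e2, mul_zero, mul_zero, add_zero, add_zero] at k3
    exact (mul_eq_zero.1 k3).resolve_left c0.ne'
  rw [e0, e1, e2] at k4
  simp at k4

/-- The second edge of the polygon `pol b r` at `r`. -/
theorem corner (b : Bool) (r : R) : ∃ v c, S.InP (S.pol b r) v ∧ v ≠ r ∧ v ≠ S.nb b r ∧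
    IsMx S.q c r ∧ (∀ w, S.InP (S.pol b r) w → (IsMx S.q c w ↔ w = r ∨ w = v)) ∧
    c ⬝ᵥ S.e r = 0 ∧ c ⬝ᵥ S.e v = 0 ∧ (S.pol true r ≠ S.pol false r → v = S.mid r) := by
  by_cases h : S.pol true r = S.pol false r
  · have e : S.pol (!b) r = S.pol b r := by cases b <;> simp [h]
    exact ⟨S.nb (!b) r, S.cE (!b) r, e ▸ S.inP_nb _ _, S.nb_ne _ _, S.nb_ne_not _ _,
      S.isMx_E _ _, fun w _ => S.maxE _ _ _, S.Ee _ _, S.Ee' _ _, fun h' => absurd h h'⟩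
  · have k := (S.mid_iff h b (S.mid r)).2 (Or.inr rfl)
    refine ⟨S.mid r, S.cP (S.pol (!b) r), k.1, (S.mid_spec r h).2.1, (S.mid_spec r h).1 b,
      (S.maxP _ _).2 (S.inP_self _ _), fun w hw => ?_, S.Pe _ _, k.2.Pe, fun _ => rfl⟩
    rw [← S.mid_iff h b w, S.maxP]
    exact ⟨fun h' => ⟨hw, h'⟩, fun h' => h'.2⟩

/-- Decomposition of vectors parallel to a polygon along the two edges at a corner. -/
theorem decomp {b : Bool} {r v : R} {c : E4} (hv : S.InP (S.pol b r) v) (h1 : v ≠ r)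
    (h2 : v ≠ S.nb b r) (hc : IsMx S.q c r)
    (hc' : ∀ w, S.InP (S.pol b r) w → (IsMx S.q c w ↔ w = r ∨ w = v)) :
    c ⬝ᵥ (S.q (S.nb b r) - S.q r) < 0 ∧ S.cE b r ⬝ᵥ (S.q v - S.q r) < 0 ∧
    ∀ z, S.cP (S.pol b r) ⬝ᵥ z = 0 → S.nP (S.pol b r) ⬝ᵥ z = 0 →
      z = (c ⬝ᵥ z / c ⬝ᵥ (S.q (S.nb b r) - S.q r)) • (S.q (S.nb b r) - S.q r) +
        (S.cE b r ⬝ᵥ z / S.cE b r ⬝ᵥ (S.q v - S.q r)) • (S.q v - S.q r) := by
  have k1 : c ⬝ᵥ (S.q (S.nb b r) - S.q r) < 0 := by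
    rw [dotProduct_sub, sub_neg]
    refine hc.lt fun h => ?_
    rcases (hc' _ (S.inP_nb b r)).1 h with h | h
    · exact S.nb_ne _ _ h
    · exact h2 h.symm
  have k2 : S.cE b r ⬝ᵥ (S.q v - S.q r) < 0 := by
    rw [dotProduct_sub, sub_neg]
    refine (S.isMx_E b r).lt fun h => ?_
    rcases (S.maxE _ _ _).1 h with h | h
    · exact h1 h
    · exact h2 h
  have a1 : S.cP (S.pol b r) ⬝ᵥ (S.q (S.nb b r) - S.q r) = 0 := by
    rw [dotProduct_sub, (S.inP_nb b r).cP_eq (S.inP_self b r), sub_self]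
  have a2 : S.cP (S.pol b r) ⬝ᵥ (S.q v - S.q r) = 0 := by
    rw [dotProduct_sub, hv.cP_eq (S.inP_self b r), sub_self]
  have a3 : S.nP (S.pol b r) ⬝ᵥ (S.q (S.nb b r) - S.q r) = 0 := by
    rw [dotProduct_sub, S.nP_const _ _ _ (S.inP_nb b r) (S.inP_self b r), sub_self]
  have a4 : S.nP (S.pol b r) ⬝ᵥ (S.q v - S.q r) = 0 := by
    rw [dotProduct_sub, S.nP_const _ _ _ hv (S.inP_self b r), sub_self]
  have a5 : S.cE b r ⬝ᵥ (S.q (S.nb b r) - S.q r) = 0 := by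
    rw [dotProduct_sub, (S.isMx_E' b r).eq (S.isMx_E b r), sub_self]
  have a6 : c ⬝ᵥ (S.q v - S.q r) = 0 := by
    rw [dotProduct_sub, ((hc' v hv).2 (Or.inr rfl)).eq hc, sub_self]
  refine ⟨k1, k2, fun z z1 z2 => ?_⟩
  rw [← sub_eq_zero]
  refine four_kill a1 a2 a3 a4 a5 k2.ne a6 k1.ne (S.ny _) ?_ ?_ ?_ ?_
  · simp only [dotProduct_sub (S.cP _) z, dotProduct_add, dotProduct_smul, a1, a2, z1, smul_zero,
      add_zero, sub_zero]
  · simp only [dotProduct_sub (S.nP _) z, dotProduct_add, dotProduct_smul, a3, a4, z2, smul_zero,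
      add_zero, sub_zero]
  · simp only [dotProduct_sub (S.cE _ _) z, dotProduct_add, dotProduct_smul, a5, mul_zero,
      zero_add, smul_eq_mul]
    rw [div_mul_cancel₀ _ k2.ne, sub_self]
  · simp only [dotProduct_sub c z, dotProduct_add, dotProduct_smul, a6, mul_zero,
      add_zero, smul_eq_mul]
    rw [div_mul_cancel₀ _ k1.ne, sub_self]

theorem compat_nb [DecidableEq R] (b : Bool) (r : R) :
    Compat S.q (fun _ : Unit => S.e) {r, S.nb b r} := by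
  obtain ⟨v, c, h1, h2, h3, h4, h5, -⟩ := S.corner b r
  obtain ⟨-, -, k⟩ := S.decomp h1 h2 h3 h4 h5
  have := k (S.e (S.nb b r) - S.e r)
    (by rw [dotProduct_sub, (S.inP_nb b r).Pe, S.Pe, sub_self])
    (by rw [dotProduct_sub, (S.inP_nb b r).ne, S.ne, sub_self])
  rw [dotProduct_sub (S.cE b r), S.Ee, S.Ee', sub_self, zero_div, zero_smul, add_zero] at this
  exact compat_pair this

theorem compat_mid [DecidableEq R] {r : R} (h : S.pol true r ≠ S.pol false r) :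
    Compat S.q (fun _ : Unit => S.e) {r, S.mid r} := by
  obtain ⟨v, c, h1, h2, h3, h4, h5, h6, h7, h8⟩ := S.corner true r
  obtain ⟨-, -, k⟩ := S.decomp h1 h2 h3 h4 h5
  have := k (S.e v - S.e r)
    (by rw [dotProduct_sub, h1.Pe, S.Pe, sub_self])
    (by rw [dotProduct_sub, h1.ne, S.ne, sub_self])
  rw [dotProduct_sub c, h6, h7, sub_self, zero_div, zero_smul, zero_add, h8 h] at this
  exact compat_pair this

theorem abs_le_mul {x y : ℝ} (hx : 0 ≤ x) (h : x = 0 → y = 0) : ∃ K, 0 ≤ K ∧ |y| ≤ K * x := by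
  rcases hx.eq_or_lt with rfl | hx'
  · exact ⟨0, le_rfl, by simp [h rfl]⟩
  · exact ⟨|y| / x, by positivity, by rw [div_mul_cancel₀ _ hx'.ne']⟩

theorem compat_poly {π : P} {F : Finset R} (hF : ∀ r, r ∈ F ↔ S.InP π r) :
    Compat S.q (fun _ : Unit => S.e) F := by
  refine compat_of_pairs fun r hr w hw => ?_
  obtain ⟨b, rfl⟩ : ∃ b, S.pol b r = π := by
    rcases (hF r).1 hr with h | h
    · exact ⟨_, h⟩
    · exact ⟨_, h⟩
  have hw' := (hF w).1 hw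
  obtain ⟨v, c₂, h1, h2, h3, h4, h5, h6, h7, -⟩ := S.corner b r
  obtain ⟨k1, k2, k⟩ := S.decomp h1 h2 h3 h4 h5
  have z1 := k (S.q w - S.q r) (by rw [dotProduct_sub, hw'.cP_eq (S.inP_self b r), sub_self])
    (by rw [dotProduct_sub, S.nP_const _ _ _ hw' (S.inP_self b r), sub_self])
  have z2 := k (S.e w - S.e r) (by rw [dotProduct_sub, hw'.Pe, S.Pe, sub_self])
    (by rw [dotProduct_sub, hw'.ne, S.ne, sub_self])
  set d₁ := S.q (S.nb b r) - S.q r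
  set d₂ := S.q v - S.q r
  set α := c₂ ⬝ᵥ (S.q w - S.q r) / c₂ ⬝ᵥ d₁ with hα
  set β := S.cE b r ⬝ᵥ (S.q w - S.q r) / S.cE b r ⬝ᵥ d₂ with hβ
  set α' := c₂ ⬝ᵥ (S.e w - S.e r) / c₂ ⬝ᵥ d₁ with hα'
  set β' := S.cE b r ⬝ᵥ (S.e w - S.e r) / S.cE b r ⬝ᵥ d₂ with hβ'
  have hα0 : 0 ≤ α := div_nonneg_of_nonpos (by rw [dotProduct_sub, sub_nonpos]; exact h4 w) k1.le
  have hβ0 : 0 ≤ β :=
    div_nonneg_of_nonpos (by rw [dotProduct_sub, sub_nonpos]; exact S.isMx_E b r w) k2.le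
  obtain ⟨K₁, hK₁, b1⟩ := abs_le_mul (y := α') hα0 (by
    intro h
    have h' := (div_eq_zero_iff.1 h).resolve_right k1.ne
    rw [dotProduct_sub, sub_eq_zero] at h'
    rcases (h5 w hw').1 (h4.of_eq h'.symm) with rfl | rfl
    · simp [hα']
    · rw [hα', dotProduct_sub, h6, h7, sub_self, zero_div])
  obtain ⟨K₂, hK₂, b2⟩ := abs_le_mul (y := β') hβ0 (by
    intro h
    have h' := (div_eq_zero_iff.1 h).resolve_right k2.ne
    rw [dotProduct_sub, sub_eq_zero] at h'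
    rcases (S.maxE _ _ _).1 ((S.isMx_E b r).of_eq h'.symm) with rfl | rfl
    · simp [hβ']
    · rw [hβ', dotProduct_sub, S.Ee, S.Ee', sub_self, zero_div])
  refine ⟨K₁ + K₂, by positivity, fun c hc _ => ?_⟩
  have m1 : c ⬝ᵥ d₁ ≤ 0 := by
    rw [dotProduct_sub, sub_nonpos]; exact hc.2 _ ((hF _).2 (S.inP_nb b r))
  have m2 : c ⬝ᵥ d₂ ≤ 0 := by
    rw [dotProduct_sub, sub_nonpos]; exact hc.2 _ ((hF _).2 h1)
  have e1 := congrArg (c ⬝ᵥ ·) z1
  have e2 := congrArg (c ⬝ᵥ ·) z2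
  simp only [dotProduct_sub c (S.q w), dotProduct_sub c (S.e w), dotProduct_add, dotProduct_smul,
    smul_eq_mul] at e1 e2
  rw [abs_sub_comm, e2, ← neg_sub, e1]
  refine (abs_add_le _ _).trans ?_
  rw [abs_mul, abs_mul, abs_of_nonpos m1, abs_of_nonpos m2]
  have n1 := mul_le_mul_of_nonneg_right b1 (neg_nonneg.2 m1)
  have n2 := mul_le_mul_of_nonneg_right b2 (neg_nonneg.2 m2)
  have n3 := mul_nonneg (mul_nonneg hK₁ hβ0) (neg_nonneg.2 m2)
  have n4 := mul_nonneg (mul_nonneg hK₂ hα0) (neg_nonneg.2 m1)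
  nlinarith

end GS

end Pool.Agent.Fat
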