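import Pool.Agent.Lib.MP_bbcf47_co.GS

/-! From certificates to the gadget interface. -/

namespace Pool.Agent.Fat

open Matrix Filter Topology

theorem isMx_of_comb {V : Type*} {p : V → E4} {c c' c'' : E4} {t : ℝ} {r s : V}
    (h : c = c' + t • c'') (h' : IsMx p c' r) (h'' : IsMx p c'' r) (ht : 0 < t)
    (hs : IsMx p c s) : IsMx p c'' s := by
  rw [h, isMx_add h' (h''.smul ht.le)] at hs
  exact (isMx_smul ht).1 hs.2

namespace GS

variable {R P L : Type} (S : GS R P L)

theorem dE_neg (b : Bool) (r : R) : S.cE b r ⬝ᵥ (S.q (S.nb (!b) r) - S.q r) < 0 := by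
  rw [dotProduct_sub, sub_neg]
  refine (S.isMx_E b r).lt fun h => ?_
  rcases (S.maxE _ _ _).1 h with h | h
  · exact S.nb_ne _ _ h
  · exact S.nb_ne_not _ _ h

theorem dE_zero (b : Bool) (r : R) : S.cE b r ⬝ᵥ (S.q (S.nb b r) - S.q r) = 0 := by
  rw [dotProduct_sub, (S.isMx_E' b r).eq (S.isMx_E b r), sub_self]

theorem dP_zero (b : Bool) (r : R) : S.cP (S.pol b r) ⬝ᵥ (S.q (S.nb b r) - S.q r) = 0 := by
  rw [dotProduct_sub, (S.inP_nb b r).cP_eq (S.inP_self b r), sub_self]

theorem basis_rep (r : R) {c : E4} (hc : c ⬝ᵥ S.e r = 0) : ∃ α β γ : ℝ,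
    c = α • S.cE true r + β • S.cP (S.pol true r) + γ • S.cE false r := by
  have kU := S.dE_neg true r
  have kL := S.dE_neg false r
  simp only [Bool.not_true, Bool.not_false] at kU kL
  set dU := S.q (S.nb true r) - S.q r with hdU
  set dL := S.q (S.nb false r) - S.q r with hdL
  set β := c 0 / S.cP (S.pol true r) 0 with hβ
  refine ⟨(c - β • S.cP (S.pol true r)) ⬝ᵥ dL / S.cE true r ⬝ᵥ dL, β,
    c ⬝ᵥ dU / S.cE false r ⬝ᵥ dU, ?_⟩
  rw [← sub_eq_zero]
  have u0 : ∀ x : E4, (![1, 0, 0, 0] : E4) ⬝ᵥ x = x 0 := fun x => by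
    simp [dotProduct, Fin.sum_univ_four]
  have zU := S.dE_zero true r
  have zL := S.dE_zero false r
  have zP := S.dP_zero true r
  rw [← hdU] at zU zP
  rw [← hdL] at zL
  refine four_kill (a := S.e r) (b := ![1, 0, 0, 0]) (c₁ := dU) (c₂ := dL) (d₁ := S.cE true r)
    (d₂ := S.cE false r) (by rw [dotProduct_comm, S.Ee]) (by rw [dotProduct_comm, S.Ee])
    (by rw [u0, S.E0]) (by rw [u0, S.E0]) (by rw [dotProduct_comm, zU])
    (by rw [dotProduct_comm]; exact kL.ne) (by rw [dotProduct_comm, zL])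
    (by rw [dotProduct_comm]; exact kU.ne) (i := 3) (j := 0) (by simpa using S.e3 r) ?_ ?_ ?_ ?_
  · rw [dotProduct_comm]
    simp only [sub_dotProduct, add_dotProduct, smul_dotProduct, hc, S.Ee, S.Pe, smul_zero,
      add_zero, sub_zero]
  · rw [u0]
    simp only [Pi.sub_apply, Pi.add_apply, Pi.smul_apply, smul_eq_mul, S.E0, mul_zero, zero_add,
      add_zero]
    rw [hβ, div_mul_cancel₀ _ (S.P0 _).ne', sub_self]
  · rw [dotProduct_comm]
    simp only [sub_dotProduct c, add_dotProduct, smul_dotProduct, zU, zP, smul_eq_mul, mul_zero,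
      zero_add]
    rw [div_mul_cancel₀ _ kL.ne, sub_self]
  · rw [dotProduct_comm]
    simp only [sub_dotProduct c, add_dotProduct, smul_dotProduct, zL, smul_eq_mul, mul_zero,
      add_zero]
    rw [div_mul_cancel₀ _ kU.ne]
    ring

theorem cone_rep {r : R} {c : E4} (hm : IsMx S.q c r) (hc : c ⬝ᵥ S.e r = 0) (h0 : 0 ≤ c 0) :
    ∃ α β β' γ : ℝ, 0 ≤ α ∧ 0 ≤ β ∧ 0 ≤ β' ∧ 0 ≤ γ ∧
      c = α • S.cE true r + β • S.cP (S.pol true r) + β' • S.cP (S.pol false r) +
        γ • S.cE false r := by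
  obtain ⟨α, β, γ, h⟩ := S.basis_rep r hc
  have kU := S.dE_neg true r
  have kL := S.dE_neg false r
  simp only [Bool.not_true, Bool.not_false] at kU kL
  have zU := S.dE_zero true r
  have zL := S.dE_zero false r
  have zP := S.dP_zero true r
  have zP' := S.dP_zero false r
  have mm : ∀ w, c ⬝ᵥ (S.q w - S.q r) ≤ 0 := fun w => by
    rw [dotProduct_sub, sub_nonpos]; exact hm w
  have hP := S.P0 (S.pol true r)
  have hβ : 0 ≤ β := by
    have := congrFun h 0
    simp only [Pi.add_apply, Pi.smul_apply, smul_eq_mul, S.E0, mul_zero, zero_add,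
      add_zero] at this
    rw [this] at h0
    exact (mul_nonneg_iff_of_pos_right hP).1 h0
  have hγ : 0 ≤ γ := by
    have := mm (S.nb true r)
    rw [h] at this
    simp only [add_dotProduct, smul_dotProduct, smul_eq_mul, zU, zP, mul_zero, zero_add] at this
    nlinarith
  by_cases hα : 0 ≤ α
  · exact ⟨α, β, 0, γ, hα, hβ, le_rfl, hγ, by rw [h, zero_smul, add_zero]⟩
  push Not at hα
  have hne : S.pol true r ≠ S.pol false r := by
    intro e
    have := mm (S.nb false r)
    rw [h] at this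
    rw [← e] at zP'
    simp only [add_dotProduct, smul_dotProduct, smul_eq_mul, zL, zP', mul_zero, add_zero] at this
    nlinarith
  obtain ⟨α', β', γ', h'⟩ := S.basis_rep r (S.Pe false r)
  obtain ⟨m1, m2, -⟩ := S.mid_spec r hne
  have m3 := (S.mid_iff hne true (S.mid r)).2 (Or.inr rfl)
  have notin : ∀ b, ¬ S.InP (S.pol (!b) r) (S.nb b r) := fun b hb => by
    rcases (S.mid_iff hne b _).1 ⟨S.inP_nb b r, hb⟩ with e | e
    · exact S.nb_ne _ _ e
    · exact m1 b e.symm
  have pneg : ∀ b, S.cP (S.pol (!b) r) ⬝ᵥ (S.q (S.nb b r) - S.q r) < 0 := fun b => by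
    rw [dotProduct_sub, sub_neg]
    exact ((S.maxP _ _).2 (S.inP_self _ _)).lt fun h => notin b ((S.maxP _ _).1 h)
  have eneg : ∀ b, S.cE b r ⬝ᵥ (S.q (S.mid r) - S.q r) < 0 := fun b => by
    rw [dotProduct_sub, sub_neg]
    refine (S.isMx_E b r).lt fun h => ?_
    rcases (S.maxE _ _ _).1 h with h | h
    · exact m2 h
    · exact m1 b h
  have zM : S.cP (S.pol true r) ⬝ᵥ (S.q (S.mid r) - S.q r) = 0 := by
    rw [dotProduct_sub, m3.1.cP_eq (S.inP_self _ r), sub_self]
  have zM' : S.cP (S.pol false r) ⬝ᵥ (S.q (S.mid r) - S.q r) = 0 := by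
    rw [dotProduct_sub, InP.cP_eq (π := S.pol false r) m3.2 (S.inP_self false r), sub_self]
  have p1 := pneg true
  have p2 := pneg false
  simp only [Bool.not_true, Bool.not_false] at p1 p2
  have hγ' : 0 < γ' := by
    rw [h'] at p1
    simp only [add_dotProduct, smul_dotProduct, smul_eq_mul, zU, zP, mul_zero, zero_add] at p1
    nlinarith
  have hα' : α' < 0 := by
    have := zM'
    rw [h'] at this
    simp only [add_dotProduct, smul_dotProduct, smul_eq_mul, zM, mul_zero, add_zero] at this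
    nlinarith [eneg true, eneg false]
  have hrep : c = (0 : ℝ) • S.cE true r + (β - α / α' * β') • S.cP (S.pol true r) +
      (α / α') • S.cP (S.pol false r) + (γ - α / α' * γ') • S.cE false r := by
    have e : (α / α') • S.cP (S.pol false r) = (α / α') •
        (α' • S.cE true r + β' • S.cP (S.pol true r) + γ' • S.cE false r) := by rw [← h']
    rw [e, h]
    simp only [smul_add, smul_smul, div_mul_cancel₀ _ hα'.ne]
    module
  refine ⟨0, β - α / α' * β', α / α', γ - α / α' * γ', le_rfl, ?_,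
    div_nonneg_of_nonpos hα.le hα'.le, ?_, hrep⟩
  · have := mm (S.nb false r)
    rw [hrep] at this
    simp only [add_dotProduct, smul_dotProduct, smul_eq_mul, zL, zP', mul_zero, zero_mul,
      zero_add, add_zero] at this
    nlinarith
  · have := mm (S.mid r)
    rw [hrep] at this
    simp only [add_dotProduct, smul_dotProduct, smul_eq_mul, zM, zM', mul_zero, zero_mul,
      zero_add] at this
    nlinarith [eneg false]

theorem cross_point (r : R) (s : R) :
    IsMx S.q ![0, 1, 0, -S.e r 1 / S.e r 3] s → s = r := by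
  have b1 := S.E2 true r
  have b2 := S.E2 false r
  simp only [sg_true, sg_false, one_mul, neg_mul] at b1 b2
  have a1 := S.E1 true r
  have a2 := S.E1 false r
  set x := (-S.cE false r 2) * S.cE true r 1 + S.cE true r 2 * S.cE false r 1 with hx
  have hx0 : 0 < x := by positivity
  have e : (-S.cE false r 2) • S.cE true r + S.cE true r 2 • S.cE false r =
      x • ![0, 1, 0, -S.e r 1 / S.e r 3] := by
    have k1 := S.Ee true r
    have k2 := S.Ee false r
    simp only [dotProduct, Fin.sum_univ_four, S.E0, zero_mul, zero_add] at k1 k2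
    have := S.e3 r
    ext i
    fin_cases i
    · simp [S.E0]
    · simp [hx]
    · simp; ring
    · simp only [Fin.reduceFinMk, Pi.add_apply, Pi.smul_apply, smul_eq_mul, cons_val, hx]
      field_simp
      linear_combination (-S.cE false r 2) * k1 + S.cE true r 2 * k2
  intro hs
  rw [← isMx_smul hx0, ← e, isMx_add ((S.isMx_E true r).smul b2.le)
    ((S.isMx_E false r).smul b1.le), isMx_smul b2, isMx_smul b1, S.maxE, S.maxE] at hs
  obtain ⟨h1 | h1, h2 | h2⟩ := hs
  · exact h1
  · exact h1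
  · exact h2
  · exact absurd (h1.symm.trans h2) (S.nb_ne' r)

theorem exists_cross [Fintype R] [Nonempty R] : ∃ K : ℝ, 0 ≤ K ∧ ∀ r c, c ⬝ᵥ S.e r = 0 →
    K * (|c 0| + |c 2|) < c 1 → ∀ s, IsMx S.q c s ↔ s = r := by
  have h : ∀ᶠ z : ℝ × ℝ in 𝓝 0, ∀ r s, IsMx S.q
      ![z.1, 1, z.2, -(z.1 * S.e r 0 + S.e r 1 + z.2 * S.e r 2) / S.e r 3] s → s = r := by
    rw [eventually_all]
    intro r
    have h1 : Tendsto (fun z : ℝ × ℝ => z.1) (𝓝 0) (𝓝 0) := continuous_fst.tendsto _
    have h2 : Tendsto (fun z : ℝ × ℝ => z.2) (𝓝 0) (𝓝 0) := continuous_snd.tendsto _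
    have h3 : Tendsto (fun z : ℝ × ℝ => -(z.1 * S.e r 0 + S.e r 1 + z.2 * S.e r 2) / S.e r 3)
        (𝓝 0) (𝓝 (-S.e r 1 / S.e r 3)) := by
      have : Continuous fun z : ℝ × ℝ =>
          -(z.1 * S.e r 0 + S.e r 1 + z.2 * S.e r 2) / S.e r 3 := by fun_prop
      simpa using this.tendsto 0
    filter_upwards [usc' (p := S.q) (tendsto_vec h1 tendsto_const_nhds h2 h3)] with z hz s hs
    exact S.cross_point r s (hz s hs)
  obtain ⟨ρ, hρ, h⟩ := Metric.eventually_nhds_iff.1 h
  refine ⟨ρ⁻¹, by positivity, fun r c hc hlt => ?_⟩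
  have a0 := abs_nonneg (c 0)
  have a2 := abs_nonneg (c 2)
  have h1 : 0 < c 1 := lt_of_le_of_lt (by positivity) hlt
  rw [inv_mul_lt_iff₀ hρ] at hlt
  have key : ∀ s, IsMx S.q c s → s = r := by
    intro s hs
    refine h (y := (c 0 / c 1, c 2 / c 1)) ?_ r s ?_
    · rw [dist_zero_right, Prod.norm_def, max_lt_iff]
      simp only [Real.norm_eq_abs, abs_div, abs_of_pos h1, div_lt_iff₀ h1]
      constructor <;> linarith
    · have e : (![c 0 / c 1, 1, c 2 / c 1,
          -(c 0 / c 1 * S.e r 0 + S.e r 1 + c 2 / c 1 * S.e r 2) / S.e r 3] : E4) =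
          (c 1)⁻¹ • c := by
        simp only [dotProduct, Fin.sum_univ_four] at hc
        have := S.e3 r
        ext i
        fin_cases i
        · simp [div_eq_inv_mul]
        · simp [h1.ne']
        · simp [div_eq_inv_mul]
        · simp only [Fin.reduceFinMk, cons_val, Pi.smul_apply, smul_eq_mul]
          field_simp
          linarith
      simp only
      rw [e]
      exact (isMx_smul (inv_pos.2 h1)).2 hs
  intro s
  refine ⟨key s, ?_⟩
  rintro rfl
  obtain ⟨t, ht⟩ := exists_isMx S.q c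
  exact key t ht ▸ ht

open Classical in
/-- The number of vertices lying on two polygons. -/
noncomputable def n3 [Fintype R] : ℕ :=
  (Finset.univ.filter fun r => S.pol true r ≠ S.pol false r).card

theorem to_gadget [Fintype R] [DecidableEq R] [Nonempty R] [Fintype P] :
    ∃ G : Gadget R, G.FF.card ≤ Fintype.card P ∧ G.EE.card = 2 * Fintype.card R + S.n3 := by
  classical
  obtain ⟨K₁, hK₁, hc⟩ := S.exists_cross
  obtain ⟨K₂, hK₂⟩ : ∃ K : ℝ, ∀ π, |S.cP π 2| / S.cP π 0 ≤ K := by
    obtain ⟨B, hB⟩ := (Set.finite_range fun π => |S.cP π 2| / S.cP π 0).bddAbove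
    exact ⟨B, fun π => hB ⟨π, rfl⟩⟩
  have hK : ∀ π, |S.cP π 2| ≤ (K₁ + |K₂|) * S.cP π 0 := fun π => by
    have h1 := (div_le_iff₀ (S.P0 π)).1 ((hK₂ π).trans (le_abs_self _))
    have h2 := mul_nonneg hK₁ (S.P0 π).le
    linarith
  have hmx : ∀ (r : R) {α β β' γ : ℝ}, 0 ≤ α → 0 ≤ β → 0 ≤ β' → 0 ≤ γ →
      IsMx S.q (α • S.cE true r) r ∧ IsMx S.q (β • S.cP (S.pol true r)) r ∧
      IsMx S.q (β' • S.cP (S.pol false r)) r ∧ IsMx S.q (γ • S.cE false r) r :=
    fun r _ _ _ _ h1 h2 h3 h4 => ⟨(S.isMx_E _ _).smul h1,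
      ((S.maxP _ _).2 (S.inP_self true r)).smul h2,
      ((S.maxP _ _).2 (S.inP_self false r)).smul h3, (S.isMx_E _ _).smul h4⟩
  set T := Finset.univ.filter fun r => S.pol true r ≠ S.pol false r with hT
  refine ⟨{
    q := S.q
    e := S.e
    FF := Finset.univ.image fun π => Finset.univ.filter fun r => S.InP π r
    EE := (Finset.univ.image fun r => (r, S.nb true r)) ∪
      (Finset.univ.image fun r => (r, S.nb false r)) ∪ T.image fun r => (r, S.mid r)
    up := S.nb true
    lo := S.nb false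
    K := K₁ + |K₂|
    up_inv := S.nb_inv _
    up_ne := S.nb_ne _
    lo_inv := S.nb_inv _
    lo_ne := S.nb_ne _
    cU := S.compat_nb _
    cL := S.compat_nb _
    cF := ?_
    e3 := S.e3
    xpos := ?_
    mem := ?_
    ypos := ?_
    yneg := ?_
    cross := ?_
    edge := ?_ }, Finset.card_image_le.trans (by simp), ?_⟩
  · intro F hF
    obtain ⟨π, -, rfl⟩ := Finset.mem_image.1 hF
    refine ⟨S.compat_poly (π := π) (by simp), two_le_finrank ?_ ?_ (S.ny π)⟩
    · intro v hv w hw
      exact InP.cP_eq (by simpa using hv) (by simpa using hw)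
    · intro v hv w hw
      exact S.nP_const π v w (Finset.mem_filter.1 hv).2 (Finset.mem_filter.1 hw).2
  · intro r c hm he h0
    obtain ⟨α, β, β', γ, h1, h2, h3, h4, rfl⟩ := S.cone_rep hm he h0.le
    simp only [Pi.add_apply, Pi.smul_apply, smul_eq_mul, S.E0, mul_zero, zero_add,
      add_zero] at h0 ⊢
    have a1 := mul_nonneg h1 (S.E1 true r).le
    have a2 := mul_nonneg h4 (S.E1 false r).le
    have a3 := mul_nonneg h2 (S.P1 (S.pol true r)).le
    have a4 := mul_nonneg h3 (S.P1 (S.pol false r)).le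
    rcases h2.eq_or_lt with rfl | h2'
    · rcases h3.eq_or_lt with rfl | h3'
      · simp at h0
      · have := mul_pos h3' (S.P1 (S.pol false r))
        linarith
    · have := mul_pos h2' (S.P1 (S.pol true r))
      linarith
  · intro r c hm he h0
    obtain ⟨α, β, β', γ, h1, h2, h3, h4, h⟩ := S.cone_rep hm he h0.le
    obtain ⟨m1, m2, m3, m4⟩ := hmx r h1 h2 h3 h4
    rcases h2.eq_or_lt with rfl | h2'
    · rcases h3.eq_or_lt with rfl | h3'
      · rw [h] at h0
        simp [S.E0] at h0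
      · refine ⟨_, Finset.mem_image.2 ⟨S.pol false r, Finset.mem_univ _, rfl⟩, fun s hs => ?_⟩
        have := isMx_of_comb (c' := α • S.cE true r + (0 : ℝ) • S.cP (S.pol true r) +
          γ • S.cE false r) (by rw [h]; module) ((m1.add m2).add m4)
          ((S.maxP _ _).2 (S.inP_self false r)) h3' hs
        exact Finset.mem_filter.2 ⟨Finset.mem_univ _, (S.maxP _ _).1 this⟩
    · refine ⟨_, Finset.mem_image.2 ⟨S.pol true r, Finset.mem_univ _, rfl⟩, fun s hs => ?_⟩
      have := isMx_of_comb (c' := α • S.cE true r + β' • S.cP (S.pol false r) +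
          γ • S.cE false r) (by rw [h]; module) ((m1.add m3).add m4)
          ((S.maxP _ _).2 (S.inP_self true r)) h2' hs
      exact Finset.mem_filter.2 ⟨Finset.mem_univ _, (S.maxP _ _).1 this⟩
  · intro r c hm he h0 hy s hs
    obtain ⟨α, β, β', γ, h1, h2, h3, h4, h⟩ := S.cone_rep hm he h0.le
    obtain ⟨m1, m2, m3, m4⟩ := hmx r h1 h2 h3 h4
    have hα : 0 < α := by
      refine lt_of_le_of_ne h1 ?_
      rintro rfl
      rw [h] at hy
      simp only [Pi.add_apply, Pi.smul_apply, smul_eq_mul, S.E0, mul_zero, zero_mul, zero_add,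
        add_zero] at hy
      have a1 := mul_le_mul_of_nonneg_left (abs_le.1 (hK (S.pol true r))).2 h2
      have a2 := mul_le_mul_of_nonneg_left (abs_le.1 (hK (S.pol false r))).2 h3
      have a3 := mul_nonneg h4 (S.E2 false r).le
      simp only [sg_false] at a3
      linarith
    exact (S.maxE _ _ _).1 (isMx_of_comb (c' := β • S.cP (S.pol true r) +
      β' • S.cP (S.pol false r) + γ • S.cE false r) (by rw [h]; module) ((m2.add m3).add m4)
      (S.isMx_E true r) hα hs)
  · intro r c hm he h0 hy s hs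
    obtain ⟨α, β, β', γ, h1, h2, h3, h4, h⟩ := S.cone_rep hm he h0.le
    obtain ⟨m1, m2, m3, m4⟩ := hmx r h1 h2 h3 h4
    have hγ : 0 < γ := by
      refine lt_of_le_of_ne h4 ?_
      rintro rfl
      rw [h] at hy
      simp only [Pi.add_apply, Pi.smul_apply, smul_eq_mul, S.E0, mul_zero, zero_mul, zero_add,
        add_zero] at hy
      have a1 := mul_le_mul_of_nonneg_left (abs_le.1 (hK (S.pol true r))).1 h2
      have a2 := mul_le_mul_of_nonneg_left (abs_le.1 (hK (S.pol false r))).1 h3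
      have a3 := mul_nonneg h1 (S.E2 true r).le
      simp only [sg_true] at a3
      linarith
    exact (S.maxE _ _ _).1 (isMx_of_comb h ((m1.add m2).add m3) (S.isMx_E false r) hγ hs)
  · intro r c he hlt
    refine hc r c he (lt_of_le_of_lt ?_ hlt)
    exact mul_le_mul_of_nonneg_right (le_add_of_nonneg_right (abs_nonneg _)) (by positivity)
  · have hnb : ∀ b r, r ≠ S.nb b r ∧ Compat S.q (fun _ : Unit => S.e) {r, S.nb b r} ∧ ∃ c n,
        (∀ s, IsMx S.q c s ↔ s = r ∨ s = S.nb b r) ∧ c ⬝ᵥ S.e r = 0 ∧ 0 < c 0 ∧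
        n ⬝ᵥ S.q r = n ⬝ᵥ S.q (S.nb b r) ∧ n ⬝ᵥ S.e r = 1 := by
      intro b r
      refine ⟨(S.nb_ne b r).symm, S.compat_nb b r, S.cE b r + S.cP (S.pol b r),
        S.nP (S.pol b r), fun s => ?_, ?_, ?_,
        S.nP_const _ _ _ (S.inP_self b r) (S.inP_nb b r), S.ne _ _⟩
      · rw [isMx_add (S.isMx_E b r) ((S.maxP _ _).2 (S.inP_self b r)), S.maxE, S.maxP]
        refine ⟨fun h => h.1, fun h => ⟨h, ?_⟩⟩
        rcases h with rfl | rfl
        · exact S.inP_self _ _
        · exact S.inP_nb _ _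
      · rw [add_dotProduct, S.Ee, S.Pe, add_zero]
      · simpa [S.E0] using S.P0 _
    intro x hx
    rcases Finset.mem_union.1 hx with hx | hx
    · rcases Finset.mem_union.1 hx with hx | hx <;>
        obtain ⟨r, -, rfl⟩ := Finset.mem_image.1 hx <;> exact hnb _ r
    · obtain ⟨r, hr, rfl⟩ := Finset.mem_image.1 hx
      have hne : S.pol true r ≠ S.pol false r := (Finset.mem_filter.1 hr).2
      have m3 := (S.mid_iff hne true (S.mid r)).2 (Or.inr rfl)
      refine ⟨(S.mid_spec r hne).2.1.symm, S.compat_mid hne,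
        S.cP (S.pol true r) + S.cP (S.pol false r), S.nP (S.pol true r), fun s => ?_, ?_, ?_,
        S.nP_const _ _ _ (S.inP_self true r) m3.1, S.ne _ _⟩
      · rw [isMx_add ((S.maxP _ _).2 (S.inP_self true r)) ((S.maxP _ _).2 (S.inP_self false r)),
          S.maxP, S.maxP]
        exact (S.mid_spec r hne).2.2 s
      · rw [add_dotProduct, S.Pe, S.Pe, add_zero]
      · exact add_pos (S.P0 _) (S.P0 _)
  · have inj : ∀ f : R → R, Function.Injective fun r => (r, f r) :=
      fun f a b h => congrArg Prod.fst h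
    simp only
    rw [Finset.card_union_of_disjoint, Finset.card_union_of_disjoint,
      Finset.card_image_of_injective _ (inj _), Finset.card_image_of_injective _ (inj _),
      Finset.card_image_of_injective _ (inj _), Finset.card_univ, two_mul]
    · congr 1
    · rw [Finset.disjoint_left]
      intro x h1 h2
      obtain ⟨r, -, rfl⟩ := Finset.mem_image.1 h1
      obtain ⟨s, -, h⟩ := Finset.mem_image.1 h2
      simp only [Prod.mk.injEq] at h
      obtain ⟨rfl, h⟩ := h
      exact S.nb_ne' _ h.symm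
    · rw [Finset.disjoint_left]
      intro x h1 h2
      obtain ⟨s, hs, rfl⟩ := Finset.mem_image.1 h2
      have hne : S.pol true s ≠ S.pol false s := (Finset.mem_filter.1 hs).2
      rcases Finset.mem_union.1 h1 with h1 | h1 <;>
      · obtain ⟨r, -, h⟩ := Finset.mem_image.1 h1
        simp only [Prod.mk.injEq] at h
        obtain ⟨rfl, h⟩ := h
        exact (S.mid_spec _ hne).1 _ h.symm

end GS

end Pool.Agent.Fat
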