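import Pool.Agent.Lib.MP_bbcf47_co.Poly

/-! The gluing operation: definitions and algebraic identities. -/

namespace Pool.Agent.Fat

open Matrix Filter Topology

theorem argmax_iff {V : Type*} {A B : V → Prop} {f : V → ℝ} {m : ℝ}
    (h1 : ∀ a, A a → B a → f a = m) (h2 : ∀ a, A a → ¬ B a → f a < m) (h3 : ∃ a, A a ∧ B a)
    (a : V) : (A a ∧ ∀ b, A b → f b ≤ f a) ↔ A a ∧ B a := by
  obtain ⟨a₀, ha₀, hb₀⟩ := h3
  constructor
  · rintro ⟨ha, h⟩
    refine ⟨ha, by_contra fun hn => ?_⟩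
    have := h a₀ ha₀
    rw [h1 a₀ ha₀ hb₀] at this
    exact absurd (h2 a ha hn) (not_lt.2 this)
  · rintro ⟨ha, hb⟩
    refine ⟨ha, fun b hb' => ?_⟩
    rw [h1 a ha hb]
    by_cases h : B b
    · exact (h1 b hb' h).le
    · exact (h2 b hb' h).le

theorem isMx_iff_of_loc {V : Type*} [Fintype V] [Nonempty V] {p : V → E4} {c : E4}
    {A B : V → Prop} {m : ℝ} (h0 : ∀ a, IsMx p c a → A a)
    (h1 : ∀ a, A a → B a → c ⬝ᵥ p a = m) (h2 : ∀ a, A a → ¬ B a → c ⬝ᵥ p a < m)
    (h3 : ∃ a, A a ∧ B a) (a : V) : IsMx p c a ↔ A a ∧ B a := by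
  rw [← argmax_iff (f := fun a => c ⬝ᵥ p a) h1 h2 h3 a]
  constructor
  · exact fun h => ⟨h0 a h, fun b _ => h b⟩
  · rintro ⟨-, h⟩
    obtain ⟨b, hb⟩ := exists_isMx p c
    exact hb.of_le (h b (h0 b hb))

namespace GS

variable {R P L : Type} [Fintype R] [Nonempty R] (S : GS R P L) (j : L)

omit [Fintype R] [Nonempty R] in
theorem rel_pos {l : L} {r : R} (h : S.C l r) : ∃ θ : ℝ, 0 < θ ∧
    S.cE (S.lab l) r = S.cS l + θ • S.cP (S.pol true r) := by
  obtain ⟨θ, hθ⟩ := S.S_rel l r h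
  refine ⟨θ, ?_, hθ⟩
  have h0 := congrFun hθ 0
  simp only [S.E0, Pi.add_apply, Pi.smul_apply, smul_eq_mul] at h0
  have h1 := S.S0 l
  have h2 := S.P0 (S.pol true r)
  by_contra hn
  nlinarith [not_lt.1 hn]

omit [Fintype R] [Nonempty R] in
theorem C_pol' {l : L} {r : R} (h : S.C l r) (b : Bool) : S.pol b r = S.pol true r := by
  cases b
  · exact (S.C_pol l r h).symm
  · rfl

omit [Fintype R] [Nonempty R] in
theorem C_inP {l : L} {r : R} (h : S.C l r) (b : Bool) : S.InP (S.pol true r) (S.nb b r) :=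
  S.C_pol' h b ▸ S.inP_nb b r

omit [Fintype R] [Nonempty R] in
theorem C_inP_iff {l : L} {r : R} (h : S.C l r) {π : P} : S.InP π r ↔ S.pol true r = π := by
  simp [InP, ← S.C_pol l r h]

omit [Fintype R] [Nonempty R] in
theorem C_pair {l : L} {r s : R} (h : S.C l r) (h' : S.C l s) (hs : S.InP (S.pol true r) s) :
    s = r ∨ s = S.nb (S.lab l) r := by
  obtain ⟨θ, hθ, e⟩ := S.rel_pos h
  rw [← S.maxE, e]
  exact ((S.maxS _ _).2 h').add (((S.maxP _ _).2 hs).smul hθ.le)

omit [Fintype R] [Nonempty R] in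
theorem not_C_other {l : L} {r : R} (h : S.C l r) : ¬ S.C l (S.nb (!S.lab l) r) := fun h' => by
  rcases S.C_pair h h' (S.C_inP h _) with e | e
  · exact S.nb_ne _ _ e
  · exact S.nb_ne_not _ _ e

omit [Fintype R] [Nonempty R] in
theorem cS_e {l : L} {r : R} (h : S.C l r) : S.cS l ⬝ᵥ S.e r = 0 := by
  obtain ⟨θ, hθ⟩ := S.S_rel l r h
  have := S.Ee (S.lab l) r
  rwa [hθ, add_dotProduct, smul_dotProduct, S.Pe, smul_zero, add_zero] at this

omit [Fintype R] [Nonempty R] in
theorem C_nb_iff {l : L} {r : R} : S.C l (S.nb (S.lab l) r) ↔ S.C l r :=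
  ⟨fun h => by simpa [S.nb_inv] using S.C_nb _ _ h, S.C_nb _ _⟩

omit [Fintype R] [Nonempty R] in
theorem C_pol_nb {l : L} {r : R} (h : S.C l r) :
    S.pol true (S.nb (S.lab l) r) = S.pol true r := by
  rw [← S.C_pol' (S.C_nb _ _ h) (S.lab l), S.pol_nb, S.C_pol' h]

/-- The maximum of the reserved covector. -/
noncomputable def hs : ℝ := S.cS j ⬝ᵥ S.q (exists_isMx S.q (S.cS j)).choose

/-- The slack of the reserved covector. -/
noncomputable def sv (x : R) : ℝ := S.hs j - S.cS j ⬝ᵥ S.q x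

theorem sv_zero {x : R} (h : S.C j x) : S.sv j x = 0 := by
  rw [sv, hs, (exists_isMx S.q (S.cS j)).choose_spec.eq ((S.maxS _ _).2 h), sub_self]

theorem sv_pos {x : R} (h : ¬ S.C j x) : 0 < S.sv j x := by
  rw [sv, hs, sub_pos]
  exact (exists_isMx S.q (S.cS j)).choose_spec.lt fun h' => h ((S.maxS _ _).1 h')

/-- The drift of the reserved covector along the field. -/
noncomputable def tau (x : R) : ℝ := -(S.cS j ⬝ᵥ S.e x)

/-- The normalized binding direction. -/
noncomputable def Nv (δ : ℝ) (x : R) (β : Bool) : E4 :=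
  (sg β / (1 - sg β * δ * S.tau j x)) • S.e x

/-- The new transversal covectors. -/
noncomputable def u (δ : ℝ) (π : P) (β : Bool) : E4 := sg β • S.nP π + δ • S.cS j

/-- The new transversal covectors at height zero. -/
noncomputable def ut (δ : ℝ) (π : P) (β : Bool) : E4 :=
  S.u j δ π β - (S.u j δ π β 0 / S.cP π 0) • S.cP π

/-- Direction of the glued edge. -/
noncomputable def db (y : R) : E4 := S.q (S.nb (S.lab j) y) - S.q y

/-- Direction of the other edge. -/
noncomputable def dg (y : R) : E4 := S.q (S.nb (!S.lab j) y) - S.q y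

/-- Slack at the other neighbour. -/
noncomputable def sG (y : R) : ℝ := S.sv j (S.nb (!S.lab j) y)

/-- Certificate of the glued edge. -/
def cb (y : R) : E4 := S.cE (S.lab j) y

/-- Certificate of the other edge. -/
def cg (y : R) : E4 := S.cE (!S.lab j) y

/-- A positive slack. -/
noncomputable def BB (y : R) : ℝ := -(S.cg j y ⬝ᵥ S.db j y)

/-- The side coordinate of the transversal at height zero. -/
noncomputable def yn (π : P) : ℝ := S.nP π 2 - S.nP π 0 / S.cP π 0 * S.cP π 2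

/-- The copy in which the label flips. -/
noncomputable def kap (y : R) : Bool := decide (sg (S.lab j) * S.yn (S.pol true y) < 0)

/-- The neutral position. -/
noncomputable def A0 (y : R) : ℝ := -S.cg j y 2 / S.cb j y 2

/-- A scale. -/
noncomputable def aa (y : R) : ℝ := |S.yn (S.pol true y)| / |S.cb j y 2|

/-- First offset position. -/
noncomputable def As (t : ℝ) (y : R) : ℝ := S.A0 j y + t * S.aa j y / 2

/-- Second offset position. -/
noncomputable def A3 (t : ℝ) (y : R) : ℝ := S.A0 j y + t * S.aa j y / 4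

/-- Depth of the truncation. -/
noncomputable def rho (t : ℝ) (y : R) : ℝ := S.BB j y / (S.As j t y * S.sG j y)

/-- Depth of the second truncation. -/
noncomputable def th' (t δ : ℝ) (y : R) : ℝ := δ ^ 2 * (S.As j t y - S.A3 j t y) / S.A3 j t y

/-- The two new directions of the other edge. -/
noncomputable def dt (δ : ℝ) (y : R) (β : Bool) : E4 := S.dg j y + (sg β * δ * S.sG j y) • S.e y

/-- The new index type. -/
abbrev NR := (R × Bool) ⊕ ({x // S.C j x} × Bool)

/-- The projection to the old vertices. -/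
def pr : S.NR j → R
  | Sum.inl x => x.1
  | Sum.inr y => y.1

/-- Coefficient along the glued edge. -/
noncomputable def ca (δ : ℝ) : S.NR j → ℝ
  | Sum.inl _ => 0
  | Sum.inr (_, true) => 1
  | Sum.inr (_, false) => δ ^ 2

/-- Coefficient along the other edge. -/
noncomputable def cc (t δ : ℝ) : S.NR j → ℝ
  | Sum.inl (x, β) => if β = S.kap j x then (1 + S.th' j t δ x) * S.rho j t x else S.rho j t x
  | Sum.inr (_, true) => 0
  | Sum.inr (y, false) => (1 - δ ^ 2) * S.rho j t y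

/-- The copy of the other edge that is used. -/
noncomputable def sb : S.NR j → Bool
  | Sum.inl (_, β) => β
  | Sum.inr (y, _) => S.kap j y

open Classical in
/-- The new points. -/
noncomputable def q' (t δ : ℝ) (a : S.NR j) : E4 :=
  if S.C j (S.pr j a) then S.q (S.pr j a) + δ • (S.ca j δ a • S.db j (S.pr j a) +
    S.cc j t δ a • S.dt j δ (S.pr j a) (S.sb j a))
  else S.q (S.pr j a) + (δ * S.sv j (S.pr j a)) • S.Nv j δ (S.pr j a) (S.sb j a)

/-- Which copies of the polygon a new vertex belongs to. -/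
def side : S.NR j → Bool → Prop
  | Sum.inl (_, β'), β => β' = β
  | Sum.inr (y, γ), β => γ = true ∨ β = S.kap j y

omit [Fintype R] [Nonempty R] in
theorem pr_surj : Function.Surjective (S.pr j) := fun x => ⟨Sum.inl (x, true), rfl⟩

theorem dot_q'_C {t δ : ℝ} {a : S.NR j} (h : S.C j (S.pr j a)) (c : E4) :
    c ⬝ᵥ S.q' j t δ a = c ⬝ᵥ S.q (S.pr j a) + δ * (S.ca j δ a * (c ⬝ᵥ S.db j (S.pr j a)) +
      S.cc j t δ a * (c ⬝ᵥ S.dt j δ (S.pr j a) (S.sb j a))) := by
  simp only [q', if_pos h, dotProduct_add, dotProduct_smul, smul_eq_mul]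

theorem dot_q'_N {t δ : ℝ} {a : S.NR j} (h : ¬ S.C j (S.pr j a)) (c : E4) :
    c ⬝ᵥ S.q' j t δ a = c ⬝ᵥ S.q (S.pr j a) + δ * S.sv j (S.pr j a) *
      (sg (S.sb j a) / (1 - sg (S.sb j a) * δ * S.tau j (S.pr j a)) * (c ⬝ᵥ S.e (S.pr j a))) := by
  simp only [q', if_neg h, dotProduct_add, dotProduct_smul, smul_eq_mul, Nv]

theorem dot_dt (δ : ℝ) (y : R) (β : Bool) (c : E4) :
    c ⬝ᵥ S.dt j δ y β = c ⬝ᵥ S.dg j y + sg β * δ * S.sG j y * (c ⬝ᵥ S.e y) := by
  simp only [dt, dotProduct_add, dotProduct_smul, smul_eq_mul]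

section classvertex

variable {S j} {y : R} (h : S.C j y)
include h

theorem sG_pos : 0 < S.sG j y := S.sv_pos j (S.not_C_other h)

omit [Fintype R] [Nonempty R] h in
theorem BB_pos : 0 < S.BB j y := by
  have := S.dE_neg (!S.lab j) y
  rw [Bool.not_not] at this
  exact neg_pos.2 this

omit [Fintype R] [Nonempty R] h in
theorem cb_sign : 0 < sg (S.lab j) * S.cb j y 2 := S.E2 _ _

omit [Fintype R] [Nonempty R] h in
theorem cg_sign : sg (S.lab j) * S.cg j y 2 < 0 := by
  have := S.E2 (!S.lab j) y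
  rw [sg_not] at this
  unfold cg
  linarith

omit [Fintype R] [Nonempty R] h in
theorem cb_ne : S.cb j y 2 ≠ 0 := fun e => by
  have := cb_sign (S := S) (j := j) (y := y)
  rw [e, mul_zero] at this
  exact lt_irrefl _ this

omit [Fintype R] [Nonempty R] h in
theorem abs_cb : |S.cb j y 2| = sg (S.lab j) * S.cb j y 2 := by
  have := cb_sign (S := S) (j := j) (y := y)
  cases e : S.lab j <;> rw [e] at this <;> simp only [sg_true, sg_false] at this ⊢
  · rw [abs_of_neg (by linarith)]; ring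
  · rw [abs_of_pos (by linarith)]; ring

omit [Fintype R] [Nonempty R] h in
theorem A0_pos : 0 < S.A0 j y := by
  have h1 := cb_sign (S := S) (j := j) (y := y)
  have h2 := cg_sign (S := S) (j := j) (y := y)
  unfold A0
  cases e : S.lab j <;> rw [e] at h1 h2 <;> simp only [sg_true, sg_false] at h1 h2
  · exact div_pos_of_neg_of_neg (by linarith) (by linarith)
  · exact div_pos (by linarith) (by linarith)

omit [Fintype R] [Nonempty R] h in
theorem yn_ne (π : P) : S.yn π ≠ 0 := by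
  intro e
  apply S.ny π
  have := S.P0 π
  unfold yn at e
  field_simp at e
  linarith

omit [Fintype R] [Nonempty R] h in
theorem aa_pos : 0 < S.aa j y :=
  div_pos (abs_pos.2 (yn_ne _)) (abs_pos.2 cb_ne)

omit [Fintype R] [Nonempty R] h in
theorem kap_sign : sg (S.lab j) * (sg (S.kap j y) * S.yn (S.pol true y)) =
    -|S.yn (S.pol true y)| := by
  have hne := yn_ne (S := S) (S.pol true y)
  unfold kap
  by_cases e : sg (S.lab j) * S.yn (S.pol true y) < 0
  · simp only [e, decide_true, sg_true, one_mul]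
    cases e' : S.lab j <;> rw [e'] at e <;> simp only [sg_true, sg_false] at e ⊢
    · rw [abs_of_pos (by linarith)]; ring
    · rw [abs_of_neg (by linarith)]; ring
  · simp only [e, decide_false, sg_false]
    cases e' : S.lab j <;> rw [e'] at e <;> simp only [sg_true, sg_false] at e ⊢
    · rw [abs_of_nonpos (by linarith)]; ring
    · rw [abs_of_nonneg (by linarith)]; ring

omit [Fintype R] [Nonempty R] in
theorem cP_db : S.cP (S.pol true y) ⬝ᵥ S.db j y = 0 := by
  rw [db, dotProduct_sub, (S.C_inP h _).cP_eq (S.inP_self true y), sub_self]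

omit [Fintype R] [Nonempty R] in
theorem cP_dg : S.cP (S.pol true y) ⬝ᵥ S.dg j y = 0 := by
  rw [dg, dotProduct_sub, (S.C_inP h _).cP_eq (S.inP_self true y), sub_self]

omit [Fintype R] [Nonempty R] in
theorem nP_db : S.nP (S.pol true y) ⬝ᵥ S.db j y = 0 := by
  rw [db, dotProduct_sub, S.nP_const _ _ _ (S.C_inP h _) (S.inP_self true y), sub_self]

omit [Fintype R] [Nonempty R] in
theorem nP_dg : S.nP (S.pol true y) ⬝ᵥ S.dg j y = 0 := by
  rw [dg, dotProduct_sub, S.nP_const _ _ _ (S.C_inP h _) (S.inP_self true y), sub_self]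

omit [Fintype R] [Nonempty R] in
theorem cS_db : S.cS j ⬝ᵥ S.db j y = 0 := by
  rw [db, dotProduct_sub, ((S.maxS _ _).2 (S.C_nb _ _ h)).eq ((S.maxS _ _).2 h), sub_self]

theorem cS_dg : S.cS j ⬝ᵥ S.dg j y = -S.sG j y := by
  have := S.sv_zero j h
  rw [dg, dotProduct_sub, sG]
  unfold sv at *
  linarith

theorem cP_dt (δ : ℝ) (β : Bool) : S.cP (S.pol true y) ⬝ᵥ S.dt j δ y β = 0 := by
  rw [dot_dt, cP_dg h, S.Pe, mul_zero, add_zero]

omit [Fintype R] [Nonempty R] in
theorem u_db (δ : ℝ) (β : Bool) : S.u j δ (S.pol true y) β ⬝ᵥ S.db j y = 0 := by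
  simp only [u, add_dotProduct, smul_dotProduct, nP_db h, cS_db h, smul_zero, add_zero]

omit [Fintype R] [Nonempty R] in
theorem u_e (δ : ℝ) (β : Bool) : S.u j δ (S.pol true y) β ⬝ᵥ S.e y = sg β := by
  simp only [u, add_dotProduct, smul_dotProduct, S.ne, S.cS_e h, smul_eq_mul, mul_one, mul_zero,
    add_zero]

theorem u_dg (δ : ℝ) (β : Bool) : S.u j δ (S.pol true y) β ⬝ᵥ S.dg j y = -(δ * S.sG j y) := by
  simp only [u, add_dotProduct, smul_dotProduct, nP_dg h, cS_dg h, smul_eq_mul, mul_zero,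
    zero_add, mul_neg]

theorem u_dt (δ : ℝ) (β β' : Bool) : S.u j δ (S.pol true y) β ⬝ᵥ S.dt j δ y β' =
    if β = β' then 0 else -(2 * δ * S.sG j y) := by
  rw [dot_dt, u_dg h, u_e h]
  cases β <;> cases β' <;> simp <;> ring

omit [Fintype R] [Nonempty R] in
theorem ut_db (δ : ℝ) (β : Bool) : S.ut j δ (S.pol true y) β ⬝ᵥ S.db j y = 0 := by
  simp only [ut, sub_dotProduct, smul_dotProduct, u_db h, cP_db h, smul_zero, sub_zero]

theorem ut_dt (δ : ℝ) (β β' : Bool) : S.ut j δ (S.pol true y) β ⬝ᵥ S.dt j δ y β' =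
    if β = β' then 0 else -(2 * δ * S.sG j y) := by
  simp only [ut, sub_dotProduct, smul_dotProduct, u_dt h, cP_dt h, smul_zero, sub_zero]

omit [Fintype R] [Nonempty R] in
theorem ut_e (δ : ℝ) (β : Bool) : S.ut j δ (S.pol true y) β ⬝ᵥ S.e y = sg β := by
  simp only [ut, sub_dotProduct, smul_dotProduct, u_e h, S.Pe, smul_zero, sub_zero]

theorem ut_dg (δ : ℝ) (β : Bool) : S.ut j δ (S.pol true y) β ⬝ᵥ S.dg j y = -(δ * S.sG j y) := by
  simp only [ut, sub_dotProduct, smul_dotProduct, u_dg h, cP_dg h, smul_zero, sub_zero]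

omit [Fintype R] [Nonempty R] h in
theorem cb_db : S.cb j y ⬝ᵥ S.db j y = 0 := S.dE_zero _ _

omit [Fintype R] [Nonempty R] h in
theorem cg_db : S.cg j y ⬝ᵥ S.db j y = -S.BB j y := by rw [BB, neg_neg]

omit [Fintype R] [Nonempty R] h in
theorem cg_dg : S.cg j y ⬝ᵥ S.dg j y = 0 := S.dE_zero _ _

theorem cb_dg : S.cb j y ⬝ᵥ S.dg j y = -S.sG j y := by
  obtain ⟨θ, hθ⟩ := S.S_rel j y h
  rw [cb, hθ, add_dotProduct, smul_dotProduct, cP_dg h, cS_dg h, smul_zero, add_zero]

theorem cb_dt (δ : ℝ) (β : Bool) : S.cb j y ⬝ᵥ S.dt j δ y β = -S.sG j y := by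
  rw [dot_dt, cb_dg h, cb, S.Ee, mul_zero, add_zero]

omit h in
theorem cg_dt (δ : ℝ) (β : Bool) : S.cg j y ⬝ᵥ S.dt j δ y β = 0 := by
  rw [dot_dt, cg_dg, cg, S.Ee, mul_zero, add_zero]

omit [Fintype R] [Nonempty R] in
theorem ut_two (δ : ℝ) (β : Bool) : S.ut j δ (S.pol true y) β 2 =
    sg β * S.yn (S.pol true y) + δ * S.cb j y 2 := by
  obtain ⟨θ, hθ⟩ := S.S_rel j y h
  have h0 := congrFun hθ 0
  have h2 := congrFun hθ 2
  simp only [S.E0, Pi.add_apply, Pi.smul_apply, smul_eq_mul] at h0 h2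
  have hP := S.P0 (S.pol true y)
  simp only [ut, u, yn, cb, h2, Pi.sub_apply, Pi.add_apply, Pi.smul_apply, smul_eq_mul]
  have e : S.cS j 0 = -(θ * S.cP (S.pol true y) 0) := by linarith
  rw [e]
  field_simp
  ring

end classvertex

omit [Fintype R] [Nonempty R] in
theorem ut_zero (δ : ℝ) (π : P) (β : Bool) : S.ut j δ π β 0 = 0 := by
  simp only [ut, Pi.sub_apply, Pi.smul_apply, smul_eq_mul]
  rw [div_mul_cancel₀ _ (S.P0 π).ne', sub_self]

end GS

end Pool.Agent.Fat
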