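import Pool.Agent.Lib.MP_bbcf47_co.Glue1

/-! The gluing operation: choice of the small parameters. -/

namespace Pool.Agent.Fat

open Matrix Filter Topology

namespace GS

variable {R P L : Type} [Fintype R] [Nonempty R] (S : GS R P L) (j : L)

/-- Step size for the polygon certificates. -/
noncomputable def zP (δ ζ : ℝ) (π : P) (β : Bool) : ℝ :=
  ζ * S.cP π 1 / (1 - ζ * S.u j δ π β 1)

/-- New polygon certificates. -/
noncomputable def cP' (δ ζ : ℝ) (x : P × Bool) : E4 :=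
  S.cP x.1 + S.zP j δ ζ x.1 x.2 • S.u j δ x.1 x.2

/-- New transversals. -/
noncomputable def nP' (δ ζ : ℝ) (x : P × Bool) : E4 :=
  (-(1 - ζ * S.u j δ x.1 x.2 1)⁻¹) • S.u j δ x.1 x.2

/-- Step size for the edge certificates. -/
noncomputable def zE (δ ζ : ℝ) (b : Bool) (x : R) (β : Bool) : ℝ :=
  ζ * S.cE b x 1 / (1 - ζ * S.ut j δ (S.pol b x) β 1)

/-- New certificates of old edges. -/
noncomputable def cEv (δ ζ : ℝ) (b : Bool) (x : R) (β : Bool) : E4 :=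
  S.cE b x + S.zE j δ ζ b x β • S.ut j δ (S.pol b x) β

/-- Local covectors near the neutral point. -/
noncomputable def cl (δ : ℝ) (y : R) (A T : ℝ) (β : Bool) : E4 :=
  A • S.cb j y + S.cg j y + T • S.ut j δ (S.pol true y) β

/-- Step size of the first local certificate. -/
noncomputable def t1 (t δ ζ : ℝ) (y : R) : ℝ :=
  t * (1 - ζ * S.ut j δ (S.pol true y) (S.kap j y) 1) /
    (1 - ζ * S.ut j δ (S.pol true y) (!S.kap j y) 1)

/-- First local certificate. -/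
noncomputable def c1 (t δ ζ : ℝ) (y : R) : E4 :=
  S.cl j δ y (S.As j t y) (S.t1 j t δ ζ y) (!S.kap j y)

/-- Second local certificate. -/
noncomputable def c2 (t δ : ℝ) (y : R) : E4 := S.cl j δ y (S.As j t y) t (S.kap j y)

/-- Third local certificate. -/
noncomputable def c3 (t δ : ℝ) (y : R) : E4 := S.cl j δ y (S.A3 j t y) (t / 8) (S.kap j y)

/-- The conditions that hold jointly near the origin of the parameter space. -/
structure Near (t δ ζ : ℝ) : Prop where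
  hδ1 : δ < 1
  den : ∀ x β, 0 < 1 - sg β * δ * S.tau j x
  hδa : ∀ y, δ * S.aa j y < 1
  hδb : ∀ y, δ * |S.cb j y 2| < |S.yn (S.pol true y)| / 2
  ny : ∀ π β, S.cP π 0 * S.u j δ π β 2 - S.cP π 2 * S.u j δ π β 0 ≠ 0
  denU : ∀ π β, 0 < 1 - ζ * S.u j δ π β 1
  denT : ∀ π β, 0 < 1 - ζ * S.ut j δ π β 1
  locP : ∀ π a, IsMx (S.q' j t δ) (S.cP π) a → S.InP π (S.pr j a)
  locE : ∀ b x a, IsMx (S.q' j t δ) (S.cE b x) a → S.pr j a = x ∨ S.pr j a = S.nb b x
  locS : ∀ l a, IsMx (S.q' j t δ) (S.cS l) a → S.C l (S.pr j a)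
  loc1 : ∀ y a, IsMx (S.q' j t δ) (S.c1 j t δ ζ y) a → S.pr j a = y
  loc2 : ∀ y a, IsMx (S.q' j t δ) (S.c2 j t δ y) a → S.pr j a = y
  loc3 : ∀ y a, IsMx (S.q' j t δ) (S.c3 j t δ y) a → S.pr j a = y
  x1 : ∀ y, 0 < S.c1 j t δ ζ y 1
  x2 : ∀ y, 0 < S.c2 j t δ y 1
  x3 : ∀ y, 0 < S.c3 j t δ y 1
  P0 : ∀ x, 0 < S.cP' j δ ζ x 0
  P1 : ∀ x, 0 < S.cP' j δ ζ x 1
  E1 : ∀ b x β, 0 < S.cEv j δ ζ b x β 1
  E2 : ∀ b x β, 0 < sg b * S.cEv j δ ζ b x β 2

/-- All conditions on the parameters. -/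
structure Good (t δ ζ : ℝ) : Prop extends S.Near j t δ ζ where
  ht : 0 < t
  hδ : 0 < δ
  lexP : ∀ x a, IsMx (S.q' j t δ) (S.cP' j δ ζ x) a ↔ IsMx (S.q' j t δ) (S.cP x.1) a ∧
    ∀ b, IsMx (S.q' j t δ) (S.cP x.1) b →
      S.u j δ x.1 x.2 ⬝ᵥ S.q' j t δ b ≤ S.u j δ x.1 x.2 ⬝ᵥ S.q' j t δ a
  lexE : ∀ b x β a, IsMx (S.q' j t δ) (S.cEv j δ ζ b x β) a ↔
    IsMx (S.q' j t δ) (S.cE b x) a ∧ ∀ a', IsMx (S.q' j t δ) (S.cE b x) a' →
      S.ut j δ (S.pol b x) β ⬝ᵥ S.q' j t δ a' ≤ S.ut j δ (S.pol b x) β ⬝ᵥ S.q' j t δ a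

abbrev W3 := ℝ × ℝ × ℝ

theorem tt : Tendsto (fun w : W3 => w.1) (𝓝 0) (𝓝 0) := continuous_fst.tendsto _
theorem td : Tendsto (fun w : W3 => w.2.1) (𝓝 0) (𝓝 0) :=
  (continuous_fst.comp continuous_snd).tendsto _
theorem tz : Tendsto (fun w : W3 => w.2.2) (𝓝 0) (𝓝 0) :=
  (continuous_snd.comp continuous_snd).tendsto _

omit [Fintype R] [Nonempty R] in
theorem tAs (y : R) : Tendsto (fun w : W3 => S.As j w.1 y) (𝓝 0) (𝓝 (S.A0 j y)) := by
  unfold As
  simpa using ((tt.mul_const (S.aa j y)).div_const 2).const_add (S.A0 j y)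

omit [Fintype R] [Nonempty R] in
theorem tA3 (y : R) : Tendsto (fun w : W3 => S.A3 j w.1 y) (𝓝 0) (𝓝 (S.A0 j y)) := by
  unfold A3
  simpa using ((tt.mul_const (S.aa j y)).div_const 4).const_add (S.A0 j y)

omit [Fintype R] [Nonempty R] in
theorem tu (π : P) (β : Bool) :
    Tendsto (fun w : W3 => S.u j w.2.1 π β) (𝓝 0) (𝓝 (sg β • S.nP π)) := by
  unfold u
  simpa using (td.smul_const (S.cS j)).const_add (sg β • S.nP π)

theorem tcoord {X : Type*} {l : Filter X} {f : X → E4} {a : E4} (h : Tendsto f l (𝓝 a))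
    (i : Fin 4) : Tendsto (fun x => f x i) l (𝓝 (a i)) := tendsto_pi_nhds.1 h i

omit [Fintype R] [Nonempty R] in
theorem tut (π : P) (β : Bool) : Tendsto (fun w : W3 => S.ut j w.2.1 π β) (𝓝 0)
    (𝓝 (sg β • S.nP π - ((sg β • S.nP π) 0 / S.cP π 0) • S.cP π)) :=
  (S.tu j π β).sub (((tcoord (S.tu j π β) 0).div_const _).smul_const _)

omit [Fintype R] [Nonempty R] in
theorem tdenU (π : P) (β : Bool) :
    Tendsto (fun w : W3 => 1 - w.2.2 * S.u j w.2.1 π β 1) (𝓝 0) (𝓝 1) := by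
  have := (tz.mul (tcoord (S.tu j π β) 1)).const_sub 1
  rwa [zero_mul, sub_zero] at this

omit [Fintype R] [Nonempty R] in
theorem tdenT (π : P) (β : Bool) :
    Tendsto (fun w : W3 => 1 - w.2.2 * S.ut j w.2.1 π β 1) (𝓝 0) (𝓝 1) := by
  have := (tz.mul (tcoord (S.tut j π β) 1)).const_sub 1
  rwa [zero_mul, sub_zero] at this

omit [Fintype R] [Nonempty R] in
theorem tden (x : R) (β : Bool) :
    Tendsto (fun w : W3 => 1 - sg β * w.2.1 * S.tau j x) (𝓝 0) (𝓝 1) := by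
  have := ((td.const_mul (sg β)).mul_const (S.tau j x)).const_sub 1
  rwa [mul_zero, zero_mul, sub_zero] at this

theorem tq' (a : S.NR j) :
    Tendsto (fun w : W3 => S.q' j w.1 w.2.1 a) (𝓝 0) (𝓝 (S.q (S.pr j a))) := by
  by_cases h : S.C j (S.pr j a)
  · simp only [q', if_pos h]
    have hA := (A0_pos (S := S) (j := j) (y := S.pr j a)).ne'
    have trho : Tendsto (fun w : W3 => S.rho j w.1 (S.pr j a)) (𝓝 0) (𝓝 _) :=
      tendsto_const_nhds.div ((S.tAs j _).mul_const _) (mul_ne_zero hA (sG_pos h).ne')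
    have tth : Tendsto (fun w : W3 => S.th' j w.1 w.2.1 (S.pr j a)) (𝓝 0) (𝓝 _) :=
      ((td.pow 2).mul ((S.tAs j _).sub (S.tA3 j _))).div (S.tA3 j _) hA
    obtain ⟨v1, h1⟩ : ∃ v, Tendsto (fun w : W3 => S.ca j w.2.1 a) (𝓝 0) (𝓝 v) := by
      rcases a with x | ⟨y, _ | _⟩
      · exact ⟨_, tendsto_const_nhds⟩
      · exact ⟨_, td.pow 2⟩
      · exact ⟨_, tendsto_const_nhds⟩
    obtain ⟨v2, h2⟩ : ∃ v, Tendsto (fun w : W3 => S.cc j w.1 w.2.1 a) (𝓝 0) (𝓝 v) := by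
      rcases a with ⟨x, β⟩ | ⟨y, _ | _⟩
      · simp only [cc]
        split_ifs
        · exact ⟨_, (tth.const_add 1).mul trho⟩
        · exact ⟨_, trho⟩
      · exact ⟨_, ((td.pow 2).const_sub 1).mul trho⟩
      · exact ⟨_, tendsto_const_nhds⟩
    have h3 : Tendsto (fun w : W3 => S.dt j w.2.1 (S.pr j a) (S.sb j a)) (𝓝 0) (𝓝 _) :=
      (((td.const_mul _).mul_const _).smul_const _).const_add _
    have := (td.smul ((h1.smul_const (S.db j (S.pr j a))).add (h2.smul h3))).const_add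
      (S.q (S.pr j a))
    rwa [zero_smul, add_zero] at this
  · simp only [q', if_neg h]
    have h1 : Tendsto (fun w : W3 => S.Nv j w.2.1 (S.pr j a) (S.sb j a)) (𝓝 0) (𝓝 _) :=
      (tendsto_const_nhds.div (S.tden j _ _) one_ne_zero).smul_const _
    have := ((td.mul_const (S.sv j (S.pr j a))).smul h1).const_add (S.q (S.pr j a))
    rwa [zero_mul, zero_smul, add_zero] at this

omit [Fintype R] [Nonempty R] in
theorem tcl (y : R) (β : Bool) {A T : W3 → ℝ} (hA : Tendsto A (𝓝 0) (𝓝 (S.A0 j y)))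
    (hT : Tendsto T (𝓝 0) (𝓝 0)) : Tendsto (fun w : W3 => S.cl j w.2.1 y (A w) (T w) β) (𝓝 0)
      (𝓝 (S.A0 j y • S.cb j y + S.cg j y)) := by
  have := ((hA.smul_const (S.cb j y)).add_const (S.cg j y)).add (hT.smul (S.tut j (S.pol true y) β))
  rwa [zero_smul, add_zero] at this

omit [Fintype R] [Nonempty R] in
theorem max_c0 (y s : R) (h : IsMx S.q (S.A0 j y • S.cb j y + S.cg j y) s) : s = y := by
  rw [cb, cg, isMx_add ((S.isMx_E _ y).smul A0_pos.le) (S.isMx_E _ y), isMx_smul A0_pos,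
    S.maxE, S.maxE] at h
  obtain ⟨h1 | h1, h2 | h2⟩ := h
  · exact h1
  · exact h1
  · exact h2
  · exact absurd (h2.symm.trans h1) (S.nb_ne_not _ _)

omit [Fintype R] [Nonempty R] in
theorem x_c0 (y : R) : 0 < (S.A0 j y • S.cb j y + S.cg j y) 1 :=
  add_pos (mul_pos A0_pos (S.E1 _ _)) (S.E1 _ _)

theorem near_eventually [Fintype P] [Fintype L] :
    ∀ᶠ w : W3 in 𝓝 0, S.Near j w.1 w.2.1 w.2.2 := by
  classical
  have hu : ∀ {c : W3 → E4} {c₀ : E4}, Tendsto c (𝓝 0) (𝓝 c₀) → ∀ᶠ w : W3 in 𝓝 0, ∀ a,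
      IsMx (S.q' j w.1 w.2.1) (c w) a → IsMx S.q c₀ (S.pr j a) :=
    fun hc => usc (S.pr_surj j) hc (S.tq' j)
  have tc1 : ∀ y, Tendsto (fun w : W3 => S.c1 j w.1 w.2.1 w.2.2 y) (𝓝 0) _ := fun y =>
    S.tcl j y _ (S.tAs j y) (by
      have := (tt.mul (S.tdenT j (S.pol true y) (S.kap j y))).div
        (S.tdenT j (S.pol true y) (!S.kap j y)) one_ne_zero
      rw [zero_mul, zero_div] at this
      exact this)
  have tc2 : ∀ y, Tendsto (fun w : W3 => S.c2 j w.1 w.2.1 y) (𝓝 0) _ := fun y =>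
    S.tcl j y _ (S.tAs j y) tt
  have tc3 : ∀ y, Tendsto (fun w : W3 => S.c3 j w.1 w.2.1 y) (𝓝 0) _ := fun y =>
    S.tcl j y _ (S.tA3 j y) (by simpa using tt.div_const 8)
  have tP : ∀ x : P × Bool, Tendsto (fun w : W3 => S.cP' j w.2.1 w.2.2 x) (𝓝 0)
      (𝓝 (S.cP x.1)) := fun x => by
    have := (((tz.mul_const (S.cP x.1 1)).div (S.tdenU j x.1 x.2) one_ne_zero).smul
      (S.tu j x.1 x.2)).const_add (S.cP x.1)
    rw [zero_mul, zero_div, zero_smul, add_zero] at this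
    exact this
  have tE : ∀ b x β, Tendsto (fun w : W3 => S.cEv j w.2.1 w.2.2 b x β) (𝓝 0)
      (𝓝 (S.cE b x)) := fun b x β => by
    have := (((tz.mul_const (S.cE b x 1)).div (S.tdenT j (S.pol b x) β) one_ne_zero).smul
      (S.tut j (S.pol b x) β)).const_add (S.cE b x)
    rw [zero_mul, zero_div, zero_smul, add_zero] at this
    exact this
  have e1 := td.eventually_lt_const one_pos
  have e2 : ∀ᶠ w : W3 in 𝓝 0, ∀ x β, _ := eventually_all.2 fun x => eventually_all.2 fun β =>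
    (S.tden j x β).eventually_const_lt one_pos
  have e3 : ∀ᶠ w : W3 in 𝓝 0, ∀ y, w.2.1 * S.aa j y < 1 := eventually_all.2 fun y =>
    (td.mul_const (S.aa j y)).eventually_lt_const (by simp)
  have e4 : ∀ᶠ w : W3 in 𝓝 0, ∀ y, w.2.1 * |S.cb j y 2| < |S.yn (S.pol true y)| / 2 :=
    eventually_all.2 fun y => (td.mul_const _).eventually_lt_const (by
      have := abs_pos.2 (yn_ne (S := S) (S.pol true y))
      rw [zero_mul]; linarith)
  have e5 : ∀ᶠ w : W3 in 𝓝 0, ∀ π β,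
      S.cP π 0 * S.u j w.2.1 π β 2 - S.cP π 2 * S.u j w.2.1 π β 0 ≠ 0 :=
    eventually_all.2 fun π => eventually_all.2 fun β =>
      (((tcoord (S.tu j π β) 2).const_mul _).sub
        ((tcoord (S.tu j π β) 0).const_mul _)).eventually_ne (by
          have := mul_ne_zero (sg_ne β) (S.ny π)
          simp only [Pi.smul_apply, smul_eq_mul]
          intro h
          apply this
          linarith)
  have e6 : ∀ᶠ w : W3 in 𝓝 0, ∀ π β, _ := eventually_all.2 fun π => eventually_all.2 fun β =>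
    (S.tdenU j π β).eventually_const_lt one_pos
  have e7 : ∀ᶠ w : W3 in 𝓝 0, ∀ π β, _ := eventually_all.2 fun π => eventually_all.2 fun β =>
    (S.tdenT j π β).eventually_const_lt one_pos
  have e8 : ∀ᶠ w : W3 in 𝓝 0, ∀ π, _ := eventually_all.2 fun π =>
    hu (tendsto_const_nhds (x := S.cP π))
  have e9 : ∀ᶠ w : W3 in 𝓝 0, ∀ b x, _ := eventually_all.2 fun b => eventually_all.2 fun x =>
    hu (tendsto_const_nhds (x := S.cE b x))
  have e10 : ∀ᶠ w : W3 in 𝓝 0, ∀ l, _ := eventually_all.2 fun l =>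
    hu (tendsto_const_nhds (x := S.cS l))
  have e11 : ∀ᶠ w : W3 in 𝓝 0, ∀ y, _ := eventually_all.2 fun y => hu (tc1 y)
  have e12 : ∀ᶠ w : W3 in 𝓝 0, ∀ y, _ := eventually_all.2 fun y => hu (tc2 y)
  have e13 : ∀ᶠ w : W3 in 𝓝 0, ∀ y, _ := eventually_all.2 fun y => hu (tc3 y)
  have e14 : ∀ᶠ w : W3 in 𝓝 0, ∀ y, _ := eventually_all.2 fun y =>
    (tcoord (tc1 y) 1).eventually_const_lt (S.x_c0 j y)
  have e15 : ∀ᶠ w : W3 in 𝓝 0, ∀ y, _ := eventually_all.2 fun y =>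
    (tcoord (tc2 y) 1).eventually_const_lt (S.x_c0 j y)
  have e16 : ∀ᶠ w : W3 in 𝓝 0, ∀ y, _ := eventually_all.2 fun y =>
    (tcoord (tc3 y) 1).eventually_const_lt (S.x_c0 j y)
  have e17 : ∀ᶠ w : W3 in 𝓝 0, ∀ x, _ := eventually_all.2 fun x =>
    (tcoord (tP x) 0).eventually_const_lt (S.P0 _)
  have e18 : ∀ᶠ w : W3 in 𝓝 0, ∀ x, _ := eventually_all.2 fun x =>
    (tcoord (tP x) 1).eventually_const_lt (S.P1 _)
  have e19 : ∀ᶠ w : W3 in 𝓝 0, ∀ b x β, _ := eventually_all.2 fun b => eventually_all.2 fun x =>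
    eventually_all.2 fun β => (tcoord (tE b x β) 1).eventually_const_lt (S.E1 _ _)
  have e20 : ∀ᶠ w : W3 in 𝓝 0, ∀ b x β, _ := eventually_all.2 fun b => eventually_all.2 fun x =>
    eventually_all.2 fun β =>
      ((tcoord (tE b x β) 2).const_mul (sg b)).eventually_const_lt (S.E2 _ _)
  filter_upwards [e1, e2, e3, e4, e5, e6, e7, e8, e9, e10, e11, e12, e13, e14, e15, e16, e17,
    e18, e19, e20] with w h1 h2 h3 h4 h5 h6 h7 h8 h9 h10 h11 h12 h13 h14 h15 h16 h17 h18 h19 h20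
  exact ⟨h1, h2, h3, h4, h5, h6, h7, fun π a h => (S.maxP _ _).1 (h8 π a h),
    fun b x a h => (S.maxE _ _ _).1 (h9 b x a h), fun l a h => (S.maxS _ _).1 (h10 l a h),
    fun y a h => S.max_c0 j y _ (h11 y a h), fun y a h => S.max_c0 j y _ (h12 y a h),
    fun y a h => S.max_c0 j y _ (h13 y a h), h14, h15, h16, h17, h18, h19, h20⟩

theorem tendsto_step (a b : ℝ) (ha : 0 < a) :
    Tendsto (fun ζ : ℝ => ζ * a / (1 - ζ * b)) (𝓝[>] 0) (𝓝[>] 0) := by
  have h1 : Tendsto (fun ζ : ℝ => 1 - ζ * b) (𝓝[>] 0) (𝓝 1) := by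
    simpa using (tendsto_id_pos.mul_const b).const_sub 1
  refine tendsto_nhdsWithin_iff.2 ⟨?_, ?_⟩
  · have := (tendsto_id_pos.mul_const a).div h1 one_ne_zero
    rw [zero_mul, zero_div] at this
    exact this
  · filter_upwards [h1.eventually_const_lt one_pos, self_mem_nhdsWithin] with ζ h2 h3
    exact div_pos (mul_pos h3 ha) h2

theorem exists_good [Fintype P] [Fintype L] : ∃ t δ ζ, S.Good j t δ ζ := by
  classical
  have h := S.near_eventually j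
  have h1 := Filter.Eventually.curry_nhds (x := (0 : ℝ)) (y := ((0 : ℝ), (0 : ℝ))) h
  obtain ⟨t, ht, ht0⟩ := ((h1.filter_mono nhdsWithin_le_nhds).and
    (self_mem_nhdsWithin (s := Set.Ioi (0 : ℝ)))).exists
  have h2 := Filter.Eventually.curry_nhds ht
  obtain ⟨δ, hδ, hδ0⟩ := ((h2.filter_mono nhdsWithin_le_nhds).and
    (self_mem_nhdsWithin (s := Set.Ioi (0 : ℝ)))).exists
  have e1 : ∀ᶠ ζ in 𝓝[>] (0 : ℝ), ∀ x : P × Bool, _ := eventually_all.2 fun x =>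
    (tendsto_step (S.cP x.1 1) (S.u j δ x.1 x.2 1) (S.P1 _)).eventually
      (lex (S.q' j t δ) (S.cP x.1) (S.u j δ x.1 x.2))
  have e2 : ∀ᶠ ζ in 𝓝[>] (0 : ℝ), ∀ b x β, _ := eventually_all.2 fun b =>
    eventually_all.2 fun x => eventually_all.2 fun β =>
    (tendsto_step (S.cE b x 1) (S.ut j δ (S.pol b x) β 1) (S.E1 _ _)).eventually
      (lex (S.q' j t δ) (S.cE b x) (S.ut j δ (S.pol b x) β))
  obtain ⟨ζ, k1, k2, k3⟩ := ((hδ.filter_mono nhdsWithin_le_nhds).and (e1.and e2)).exists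
  exact ⟨t, δ, ζ, k1, ht0, hδ0, k2, k3⟩

end GS

end Pool.Agent.Fat
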