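import Pool.Agent.Lib.MP_bbcf47_co.Glue2

/-! The gluing operation: the maximizers of the new certificates. -/

namespace Pool.Agent.Fat

open Matrix Filter Topology

namespace GS

variable {R P L : Type} [Fintype R] [Nonempty R] {S : GS R P L} {j : L} {t δ ζ : ℝ}

omit [Fintype R] [Nonempty R] in
theorem C_pr_inr (y : {x // S.C j x} × Bool) : S.C j (S.pr j (Sum.inr y)) := y.1.2

theorem cP_q' {π : P} {a : S.NR j} (h : S.InP π (S.pr j a)) :
    S.cP π ⬝ᵥ S.q' j t δ a = S.cP π ⬝ᵥ S.q (S.pr j a) := by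
  by_cases hC : S.C j (S.pr j a)
  · obtain rfl := (S.C_inP_iff hC).1 h
    rw [S.dot_q'_C j hC, cP_db hC, cP_dt hC]
    simp
  · rw [S.dot_q'_N j hC, h.Pe]
    simp

namespace Good

variable (H : S.Good j t δ ζ)
include H

theorem A3_pos (y : R) : 0 < S.A3 j t y := by
  have := A0_pos (S := S) (j := j) (y := y)
  have := mul_pos H.ht (aa_pos (S := S) (j := j) (y := y))
  unfold A3
  linarith

theorem A3_lt (y : R) : S.A3 j t y < S.As j t y := by
  have := mul_pos H.ht (aa_pos (S := S) (j := j) (y := y))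
  unfold A3 As
  linarith

theorem As_pos (y : R) : 0 < S.As j t y := (H.A3_pos y).trans (H.A3_lt y)

theorem rho_pos {y : R} (h : S.C j y) : 0 < S.rho j t y :=
  div_pos BB_pos (mul_pos (H.As_pos y) (sG_pos h))

theorem th'_pos (y : R) : 0 < S.th' j t δ y :=
  div_pos (mul_pos (pow_pos H.hδ 2) (sub_pos.2 (H.A3_lt y))) (H.A3_pos y)

theorem sq_lt : δ ^ 2 < 1 := by
  have := H.hδ
  have := H.hδ1
  nlinarith

theorem t1_pos (y : R) : 0 < S.t1 j t δ ζ y :=
  div_pos (mul_pos H.ht (H.denT _ _)) (H.denT _ _)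

theorem cc_pos {x : R} (h : S.C j x) (β : Bool) : 0 < S.cc j t δ (Sum.inl (x, β)) := by
  simp only [cc]
  split_ifs
  · exact mul_pos (by linarith [H.th'_pos x]) (H.rho_pos h)
  · exact H.rho_pos h

theorem u_side {π : P} {a : S.NR j} {β : Bool} (h : S.InP π (S.pr j a)) (hs : S.side j a β) :
    S.u j δ π β ⬝ᵥ S.q' j t δ a = sg β * (S.nP π ⬝ᵥ S.q (S.pr j a)) + δ * S.hs j := by
  have e : S.u j δ π β ⬝ᵥ S.q (S.pr j a) =
      sg β * (S.nP π ⬝ᵥ S.q (S.pr j a)) + δ * (S.hs j - S.sv j (S.pr j a)) := by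
    simp only [u, sv, add_dotProduct, smul_dotProduct, smul_eq_mul]; ring
  by_cases hC : S.C j (S.pr j a)
  · obtain rfl := (S.C_inP_iff hC).1 h
    rw [S.dot_q'_C j hC, u_db hC, u_dt hC, e, S.sv_zero j hC]
    rcases a with ⟨x, β'⟩ | ⟨y, _ | _⟩
    · simp only [side] at hs
      simp [sb, hs]
    · simp only [side, Bool.false_eq_true, false_or] at hs
      simp [sb, hs]
    · simp [cc]
  · rcases a with ⟨x, β'⟩ | y
    · simp only [side] at hs
      subst hs
      rw [S.dot_q'_N j hC, e]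
      have e2 : S.u j δ π β' ⬝ᵥ S.e x = sg β' - δ * S.tau j x := by
        simp only [u, tau, add_dotProduct, smul_dotProduct, smul_eq_mul, InP.ne (r := x) h]; ring
      have hd := H.den x β'
      have e3 := sg_mul_self β'
      simp only [pr, sb, e2]
      have e4 : sg β' / (1 - sg β' * δ * S.tau j x) * (sg β' - δ * S.tau j x) = 1 := by
        rw [div_mul_eq_mul_div, div_eq_one_iff_eq hd.ne']
        linear_combination e3
      rw [e4]; ring
    · exact absurd (C_pr_inr y) hC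

theorem u_nside {π : P} {a : S.NR j} {β : Bool} (h : S.InP π (S.pr j a))
    (hs : ¬ S.side j a β) :
    S.u j δ π β ⬝ᵥ S.q' j t δ a < sg β * (S.nP π ⬝ᵥ S.q (S.pr j a)) + δ * S.hs j := by
  have e : S.u j δ π β ⬝ᵥ S.q (S.pr j a) =
      sg β * (S.nP π ⬝ᵥ S.q (S.pr j a)) + δ * (S.hs j - S.sv j (S.pr j a)) := by
    simp only [u, sv, add_dotProduct, smul_dotProduct, smul_eq_mul]; ring
  have hδ := H.hδ
  by_cases hC : S.C j (S.pr j a)
  · obtain rfl := (S.C_inP_iff hC).1 h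
    rw [S.dot_q'_C j hC, u_db hC, u_dt hC, e, S.sv_zero j hC]
    have hG := sG_pos hC
    rcases a with ⟨x, β'⟩ | ⟨y, _ | _⟩
    · simp only [side] at hs
      have := H.cc_pos hC β'
      rw [sb, if_neg (Ne.symm hs)]
      simp only [pr] at *
      have : 0 < δ * (S.cc j t δ (Sum.inl (x, β')) * (2 * δ * S.sG j x)) := by positivity
      linarith
    · simp only [side, Bool.false_eq_true, false_or] at hs
      rw [sb, if_neg hs, cc]
      have h1 := H.rho_pos hC
      have h2 := sub_pos.2 H.sq_lt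
      simp only [pr] at *
      have : 0 < δ * ((1 - δ ^ 2) * S.rho j t y * (2 * δ * S.sG j y)) := by positivity
      linarith
    · simp [side] at hs
  · rcases a with ⟨x, β'⟩ | y
    · simp only [side] at hs
      obtain rfl : β' = !β := by cases β <;> cases β' <;> simp at hs ⊢
      rw [S.dot_q'_N j hC, e]
      have e2 : S.u j δ π β ⬝ᵥ S.e x = sg β - δ * S.tau j x := by
        simp only [u, tau, add_dotProduct, smul_dotProduct, smul_eq_mul, InP.ne (r := x) h]; ring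
      have hd := H.den x (!β)
      have hd' := H.den x β
      have e3 := sg_mul_self β
      have hp := S.sv_pos j hC
      simp only [pr, sb, e2] at *
      have e4 : sg (!β) / (1 - sg (!β) * δ * S.tau j x) * (sg β - δ * S.tau j x) < 0 := by
        rw [div_mul_eq_mul_div]
        refine div_neg_of_neg_of_pos ?_ hd
        rw [sg_not]
        linarith
      have k1 := mul_neg_of_pos_of_neg (mul_pos hδ hp) e4
      have k2 := mul_pos hδ hp
      linarith
    · exact absurd (C_pr_inr y) hC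

theorem maxP0 (π : P) (a : S.NR j) : IsMx (S.q' j t δ) (S.cP π) a ↔ S.InP π (S.pr j a) := by
  classical
  obtain ⟨x₀, hx₀⟩ := exists_isMx S.q (S.cP π)
  have h₀ : S.InP π x₀ := (S.maxP _ _).1 hx₀
  rw [isMx_iff_of_loc (B := fun _ => True) (m := S.cP π ⬝ᵥ S.q x₀) (H.locP π)
    (fun a ha _ => by rw [cP_q' ha, ha.cP_eq h₀]) (fun a _ h => absurd trivial h)
    ⟨Sum.inl (x₀, true), h₀, trivial⟩, and_true]

theorem maxP' (x : P × Bool) (a : S.NR j) : IsMx (S.q' j t δ) (S.cP' j δ ζ x) a ↔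
    S.InP x.1 (S.pr j a) ∧ S.side j a x.2 := by
  obtain ⟨x₀, hx₀⟩ := exists_isMx S.q (S.cP x.1)
  have h₀ : S.InP x.1 x₀ := (S.maxP _ _).1 hx₀
  rw [H.lexP]
  simp only [H.maxP0]
  exact argmax_iff (A := fun a => S.InP x.1 (S.pr j a)) (B := fun a => S.side j a x.2)
    (f := fun a => S.u j δ x.1 x.2 ⬝ᵥ S.q' j t δ a)
    (m := sg x.2 * (S.nP x.1 ⬝ᵥ S.q x₀) + δ * S.hs j)
    (fun a ha hb => by rw [H.u_side ha hb, S.nP_const _ _ _ ha h₀])
    (fun a ha hb => by rw [← S.nP_const _ _ _ ha h₀]; exact H.u_nside ha hb)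
    ⟨Sum.inl (x₀, x.2), h₀, rfl⟩ a

theorem ca_pos (y : {x // S.C j x} × Bool) : 0 < S.ca j δ (Sum.inr y) := by
  obtain ⟨y, _ | _⟩ := y
  · exact pow_pos H.hδ 2
  · exact one_pos

theorem maxE0 {b : Bool} {x : R} (hx : ¬ (S.C j x ∧ b = S.lab j)) (a : S.NR j) :
    IsMx (S.q' j t δ) (S.cE b x) a ↔
      (S.pr j a = x ∨ S.pr j a = S.nb b x) ∧ a.isLeft = true := by
  classical
  have hE : ∀ {y}, (y = x ∨ y = S.nb b x) → S.cE b x = S.cE b y := by
    rintro y (rfl | rfl)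
    · rfl
    · exact (S.cE_nb _ _).symm
  have hv : ∀ {y}, (y = x ∨ y = S.nb b x) → S.cE b x ⬝ᵥ S.q y = S.cE b x ⬝ᵥ S.q x :=
    fun h => ((S.maxE _ _ _).2 h).eq (S.isMx_E _ _)
  have hb : ∀ {y}, (y = x ∨ y = S.nb b x) → S.C j y → S.cE b x = S.cg j y := by
    intro y hy hC
    have : b = !S.lab j := by
      by_contra hn
      have e : b = S.lab j := by cases b <;> cases e : S.lab j <;> simp [e] at hn ⊢
      apply hx
      refine ⟨?_, e⟩
      rcases hy with rfl | rfl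
      · exact hC
      · exact S.C_nb_iff.1 (e ▸ hC)
    rw [hE hy, this, cg]
  refine isMx_iff_of_loc (B := fun a : S.NR j => a.isLeft = true)
    (m := S.cE b x ⬝ᵥ S.q x) (H.locE b x) ?_ ?_
    ⟨Sum.inl (x, true), Or.inl rfl, rfl⟩ a
  · rintro (a | a) ha hl
    · by_cases hC : S.C j (S.pr j (Sum.inl a))
      · rw [S.dot_q'_C j hC, hv ha, hb ha hC, cg_dt]
        simp [ca]
      · rw [S.dot_q'_N j hC, hv ha, hE ha, S.Ee]
        simp
    · simp at hl
  · rintro (a | a) ha hl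
    · simp at hl
    · have hC := C_pr_inr a
      rw [S.dot_q'_C j hC, hv ha, hb ha hC, cg_dt, cg_db]
      have := mul_pos H.hδ (mul_pos (H.ca_pos a) (BB_pos (S := S) (j := j)
        (y := S.pr j (Sum.inr a))))
      linarith

theorem maxEv {b : Bool} {x : R} (hx : ¬ (S.C j x ∧ b = S.lab j)) (β : Bool) (a : S.NR j) :
    IsMx (S.q' j t δ) (S.cEv j δ ζ b x β) a ↔
      a = Sum.inl (x, β) ∨ a = Sum.inl (S.nb b x, β) := by
  have hin : ∀ {y}, (y = x ∨ y = S.nb b x) → S.InP (S.pol b x) y := by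
    rintro y (rfl | rfl)
    · exact S.inP_self _ _
    · exact S.inP_nb _ _
  rw [H.lexE]
  simp only [H.maxE0 hx]
  rw [argmax_iff (B := fun a => S.side j a β)
    (A := fun a : S.NR j => (S.pr j a = x ∨ S.pr j a = S.nb b x) ∧ a.isLeft = true)
    (f := fun a => S.ut j δ (S.pol b x) β ⬝ᵥ S.q' j t δ a)
    (m := sg β * (S.nP (S.pol b x) ⬝ᵥ S.q x) + δ * S.hs j -
      S.u j δ (S.pol b x) β 0 / S.cP (S.pol b x) 0 * (S.cP (S.pol b x) ⬝ᵥ S.q x)) ?_ ?_
    ⟨Sum.inl (x, β), ⟨Or.inl rfl, rfl⟩, rfl⟩ a]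
  · rcases a with ⟨y, β'⟩ | y
    · simp only [pr, side, Sum.isLeft_inl, and_true, Sum.inl.injEq, Prod.mk.injEq]
      tauto
    · simp
  · intro a ha hs
    rw [ut, sub_dotProduct, smul_dotProduct, H.u_side (hin ha.1) hs, cP_q' (hin ha.1),
      S.nP_const _ _ _ (hin ha.1) (S.inP_self b x), (hin ha.1).cP_eq (S.inP_self b x), smul_eq_mul]
  · intro a ha hs
    have := H.u_nside (hin ha.1) hs
    rw [S.nP_const _ _ _ (hin ha.1) (S.inP_self b x)] at this
    rw [ut, sub_dotProduct, smul_dotProduct, cP_q' (hin ha.1),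
      (hin ha.1).cP_eq (S.inP_self b x), smul_eq_mul]
    linarith

theorem maxS' {l : L} (hl : l ≠ j) (a : S.NR j) :
    IsMx (S.q' j t δ) (S.cS l) a ↔ S.C l (S.pr j a) ∧ a.isLeft = true := by
  classical
  obtain ⟨x₀, hx₀⟩ := exists_isMx S.q (S.cS l)
  have hv : ∀ {y}, S.C l y → S.cS l ⬝ᵥ S.q y = S.cS l ⬝ᵥ S.q x₀ :=
    fun h => ((S.maxS _ _).2 h).eq hx₀
  have hlab : ∀ {y}, S.C l y → S.C j y → S.lab l = !S.lab j := by
    intro y h1 h2
    have := S.C_disj l j y hl h1 h2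
    cases e : S.lab l <;> cases e' : S.lab j <;> simp [e, e'] at this ⊢
  have hdt : ∀ {y}, S.C l y → S.C j y → ∀ β, S.cS l ⬝ᵥ S.dt j δ y β = 0 := by
    intro y h1 h2 β
    rw [dot_dt, S.cS_e h1, mul_zero, add_zero, dg, dotProduct_sub, ← hlab h1 h2,
      hv (S.C_nb _ _ h1), hv h1, sub_self]
  refine isMx_iff_of_loc (B := fun a : S.NR j => a.isLeft = true)
    (m := S.cS l ⬝ᵥ S.q x₀) (H.locS l) ?_ ?_
    ⟨Sum.inl (x₀, true), (S.maxS _ _).1 hx₀, rfl⟩ a
  · rintro (a | a) ha hl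
    · by_cases hC : S.C j (S.pr j (Sum.inl a))
      · rw [S.dot_q'_C j hC, hv ha, hdt ha hC]
        simp [ca]
      · rw [S.dot_q'_N j hC, hv ha, S.cS_e ha]
        simp
    · simp at hl
  · rintro (a | a) ha hl
    · simp at hl
    · have hC := C_pr_inr a
      rw [S.dot_q'_C j hC, hv ha, hdt ha hC]
      have hneg : S.cS l ⬝ᵥ S.db j (S.pr j (Sum.inr a)) < 0 := by
        rw [db, dotProduct_sub, sub_neg]
        refine ((S.maxS _ _).2 ha).lt fun h => S.not_C_other ha ?_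
        rw [hlab ha hC, Bool.not_not]
        exact (S.maxS _ _).1 h
      have := mul_neg_of_pos_of_neg H.hδ (mul_neg_of_pos_of_neg (H.ca_pos a) hneg)
      linarith

omit H in
theorem cl_val {y : R} (h : S.C j y) {a : S.NR j} (ha : S.pr j a = y) (A T : ℝ) (β : Bool) :
    S.cl j δ y A T β ⬝ᵥ S.q' j t δ a = S.cl j δ y A T β ⬝ᵥ S.q y + δ *
      (-(S.ca j δ a * S.BB j y) - S.cc j t δ a * S.sG j y *
        (A + if β = S.sb j a then 0 else 2 * δ * T)) := by
  subst ha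
  rw [S.dot_q'_C j h]
  congr 2
  simp only [cl, add_dotProduct, smul_dotProduct, smul_eq_mul, cb_db, cg_db, ut_db h, cb_dt h,
    cg_dt, ut_dt h]
  split_ifs <;> ring

omit [Fintype R] [Nonempty R] H in
theorem cluster {y : R} (h : S.C j y) {a : S.NR j} (ha : S.pr j a = y) :
    a = Sum.inl (y, S.kap j y) ∨ a = Sum.inl (y, !S.kap j y) ∨
      a = Sum.inr (⟨y, h⟩, true) ∨ a = Sum.inr (⟨y, h⟩, false) := by
  rcases a with ⟨x, β⟩ | ⟨⟨x, hx⟩, β⟩ <;> simp only [pr] at ha <;> subst ha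
  · cases β <;> cases S.kap j x <;> simp
  · cases β <;> simp

theorem rho_As {y : R} (h : S.C j y) : S.rho j t y * S.sG j y * S.As j t y = S.BB j y := by
  have h1 := (H.As_pos y).ne'
  have h2 := (sG_pos h).ne'
  unfold rho
  field_simp

theorem max1 {y : R} (h : S.C j y) (a : S.NR j) : IsMx (S.q' j t δ) (S.c1 j t δ ζ y) a ↔
    a = Sum.inl (y, !S.kap j y) ∨ a = Sum.inr (⟨y, h⟩, true) := by
  classical
  have e := H.rho_As h
  have p1 := mul_pos (H.rho_pos h) (sG_pos h)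
  have p2 := H.t1_pos y
  have p3 := H.th'_pos y
  have p4 := H.hδ
  have p5 := sub_pos.2 H.sq_lt
  have p6 := H.As_pos y
  rw [isMx_iff_of_loc (B := fun a => a = Sum.inl (y, !S.kap j y) ∨ a = Sum.inr (⟨y, h⟩, true))
    (m := S.c1 j t δ ζ y ⬝ᵥ S.q y + δ * -S.BB j y) (H.loc1 y) ?_ ?_ ⟨_, rfl, Or.inr rfl⟩ a]
  · refine ⟨fun h => h.2, fun h => ⟨?_, h⟩⟩
    rcases h with rfl | rfl <;> rfl
  · rintro a ha (rfl | rfl) <;> rw [c1, cl_val h ha] <;> simp [ca, cc, sb, ← e]
  · intro a ha hn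
    rw [c1, cl_val h ha]
    refine add_lt_add_right (mul_lt_mul_of_pos_left ?_ p4) _
    rcases cluster h ha with rfl | rfl | rfl | rfl
    · simp only [ca, cc, sb, if_true, Bool.not_eq_self, if_false, ← e]
      have := mul_pos p1 (mul_pos p4 p2)
      have := mul_pos p3 (mul_pos p1 (mul_pos p4 p2))
      have := mul_pos p3 (mul_pos p1 p6)
      nlinarith
    · exact absurd (Or.inl rfl) hn
    · exact absurd (Or.inr rfl) hn
    · simp only [ca, cc, sb, Bool.not_eq_self, if_false, ← e]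
      have := mul_pos p5 (mul_pos p1 (mul_pos p4 p2))
      nlinarith

theorem max2 {y : R} (h : S.C j y) (a : S.NR j) : IsMx (S.q' j t δ) (S.c2 j t δ y) a ↔
    a = Sum.inr (⟨y, h⟩, true) ∨ a = Sum.inr (⟨y, h⟩, false) := by
  classical
  have e := H.rho_As h
  have p1 := mul_pos (H.rho_pos h) (sG_pos h)
  have p2 := H.ht
  have p3 := H.th'_pos y
  have p4 := H.hδ
  have p6 := H.As_pos y
  rw [isMx_iff_of_loc (B := fun a => a = Sum.inr (⟨y, h⟩, true) ∨ a = Sum.inr (⟨y, h⟩, false))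
    (m := S.c2 j t δ y ⬝ᵥ S.q y + δ * -S.BB j y) (H.loc2 y) ?_ ?_ ⟨_, rfl, Or.inr rfl⟩ a]
  · refine ⟨fun h => h.2, fun h => ⟨?_, h⟩⟩
    rcases h with rfl | rfl <;> rfl
  · rintro a ha (rfl | rfl) <;> rw [c2, cl_val h ha]
    · simp [ca, cc]
    · simp only [ca, cc, sb, if_true, ← e]
      ring
  · intro a ha hn
    rw [c2, cl_val h ha]
    refine add_lt_add_right (mul_lt_mul_of_pos_left ?_ p4) _
    rcases cluster h ha with rfl | rfl | rfl | rfl
    · simp only [ca, cc, sb, if_true, ← e]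
      have := mul_pos p3 (mul_pos p1 p6)
      nlinarith
    · simp only [ca, cc, sb, Bool.not_eq_self, Bool.eq_not_self, if_false, ← e]
      have := mul_pos p1 (mul_pos p4 p2)
      nlinarith
    · exact absurd (Or.inl rfl) hn
    · exact absurd (Or.inr rfl) hn

theorem max3 {y : R} (h : S.C j y) (a : S.NR j) : IsMx (S.q' j t δ) (S.c3 j t δ y) a ↔
    a = Sum.inl (y, S.kap j y) ∨ a = Sum.inr (⟨y, h⟩, false) := by
  classical
  have e := H.rho_As h
  have p1 := mul_pos (H.rho_pos h) (sG_pos h)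
  have p2 := H.ht
  have p4 := H.hδ
  have p5 := sub_pos.2 H.sq_lt
  have p6 := H.A3_pos y
  have p7 := sub_pos.2 (H.A3_lt y)
  have e' : S.th' j t δ y * S.A3 j t y = δ ^ 2 * (S.As j t y - S.A3 j t y) :=
    div_mul_cancel₀ _ p6.ne'
  have e'' : S.As j t y - S.A3 j t y = t * S.aa j y / 4 := by unfold As A3; ring
  rw [isMx_iff_of_loc (B := fun a => a = Sum.inl (y, S.kap j y) ∨ a = Sum.inr (⟨y, h⟩, false))
    (m := S.c3 j t δ y ⬝ᵥ S.q y + δ * -(S.rho j t y * S.sG j y *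
      (S.A3 j t y + δ ^ 2 * (S.As j t y - S.A3 j t y)))) (H.loc3 y) ?_ ?_ ⟨_, rfl, Or.inr rfl⟩ a]
  · refine ⟨fun h => h.2, fun h => ⟨?_, h⟩⟩
    rcases h with rfl | rfl <;> rfl
  · rintro a ha (rfl | rfl) <;> rw [c3, cl_val h ha]
    · simp only [ca, cc, sb, if_true, ← e']
      ring
    · simp only [ca, cc, sb, if_true, ← e]
      ring
  · intro a ha hn
    rw [c3, cl_val h ha]
    refine add_lt_add_right (mul_lt_mul_of_pos_left ?_ p4) _
    rcases cluster h ha with rfl | rfl | rfl | rfl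
    · exact absurd (Or.inl rfl) hn
    · simp only [ca, cc, sb, Bool.not_eq_self, Bool.eq_not_self, if_false, e'']
      have := mul_pos p1 (mul_pos (mul_pos p4 p2) (sub_pos.2 (H.hδa y)))
      nlinarith
    · simp only [ca, cc, ← e]
      have := mul_pos p1 (mul_pos p5 p7)
      nlinarith
    · exact absurd (Or.inr rfl) hn

end Good

end GS

end Pool.Agent.Fat
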