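import Pool.Agent.Lib.MP_bbcf47_co.Glue3

/-! The gluing operation: labels, combinatorics and the new field. -/

namespace Pool.Agent.Fat

open Matrix Filter Topology

namespace GS

variable {R P L : Type} [Fintype R] [Nonempty R] (S : GS R P L) (j : L)

open Classical in
/-- New neighbours. -/
noncomputable def nb' (b : Bool) : S.NR j → S.NR j
  | Sum.inl (x, β) => if h : S.C j x ∧ b = S.lab j then Sum.inr (⟨x, h.1⟩, xor β (S.kap j x))
      else Sum.inl (S.nb b x, β)
  | Sum.inr (y, γ) => if b = S.lab j then Sum.inl (y, xor γ (S.kap j y)) else Sum.inr (y, !γ)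

/-- New polygons. -/
noncomputable def pol' (b : Bool) : S.NR j → P × Bool
  | Sum.inl (x, β) => (S.pol b x, β)
  | Sum.inr (y, γ) => (S.pol true y, if b = S.lab j then xor γ (S.kap j y) else S.kap j y)

/-- New middle partners. -/
def mid' : S.NR j → S.NR j
  | Sum.inl (x, β) => Sum.inl (S.mid x, β)
  | Sum.inr (y, γ) => Sum.inr (⟨S.nb (S.lab j) y, S.C_nb _ _ y.2⟩, γ)

/-- The two local certificates with the label of the glued class. -/
noncomputable def cs (t δ ζ : ℝ) (y : R) : Bool → E4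
  | true => S.c1 j t δ ζ y
  | false => S.c3 j t δ y

open Classical in
/-- New edge certificates. -/
noncomputable def cE' (t δ ζ : ℝ) (b : Bool) : S.NR j → E4
  | Sum.inl (x, β) => if S.C j x ∧ b = S.lab j then S.cs j t δ ζ x (xor β (S.kap j x))
      else S.cEv j δ ζ b x β
  | Sum.inr (y, γ) => if b = S.lab j then S.cs j t δ ζ y γ else S.c2 j t δ y

variable {S j} {t δ ζ : ℝ}

omit [Fintype R] [Nonempty R] in
theorem not_C_nb {b : Bool} {x : R} (h : ¬ (S.C j x ∧ b = S.lab j)) :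
    ¬ (S.C j (S.nb b x) ∧ b = S.lab j) := by
  rintro ⟨h1, rfl⟩
  exact h ⟨S.C_nb_iff.1 h1, rfl⟩

omit [Fintype R] [Nonempty R] in
theorem kap_nb {y : R} (h : S.C j y) : S.kap j (S.nb (S.lab j) y) = S.kap j y := by
  unfold kap
  rw [S.C_pol_nb h]

omit [Fintype R] [Nonempty R] in
theorem inP' (x : P × Bool) (a : S.NR j) :
    (S.pol' j true a = x ∨ S.pol' j false a = x) ↔ S.InP x.1 (S.pr j a) ∧ S.side j a x.2 := by
  obtain ⟨π, β⟩ := x
  rcases a with ⟨x, β'⟩ | ⟨y, γ⟩
  · simp only [pol', Prod.mk.injEq, pr, side, InP]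
    tauto
  · simp only [pol', Prod.mk.injEq, pr, side, S.C_inP_iff y.2]
    cases S.lab j <;> cases γ <;> cases S.kap j y <;> cases β <;> simp

omit [Fintype R] [Nonempty R] in
theorem cl_zero (y : R) (A T : ℝ) (β : Bool) : S.cl j δ y A T β 0 = 0 := by
  simp [cl, cb, cg, S.E0, S.ut_zero]

omit [Fintype R] [Nonempty R] in
theorem cl_two {y : R} (h : S.C j y) (s T : ℝ) (β : Bool) :
    sg (S.lab j) * S.cl j δ y (S.A0 j y + s * S.aa j y) T β 2 = s * |S.yn (S.pol true y)| +
      T * (sg (S.lab j) * (sg β * S.yn (S.pol true y)) + δ * |S.cb j y 2|) := by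
  have e1 : S.A0 j y * S.cb j y 2 = -S.cg j y 2 := div_mul_cancel₀ _ cb_ne
  have e2 : S.aa j y * |S.cb j y 2| = |S.yn (S.pol true y)| :=
    div_mul_cancel₀ _ (abs_pos.2 cb_ne).ne'
  simp only [cl, Pi.add_apply, Pi.smul_apply, smul_eq_mul, ut_two h]
  rw [← e2, abs_cb]
  linear_combination sg (S.lab j) * e1

/-- The unit vector dual to the second coordinate. -/
def eX : E4 := ![0, 1, 0, 0]

theorem dot_eX (c : E4) : c ⬝ᵥ eX = c 1 := by simp [eX, dotProduct, Fin.sum_univ_four]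

namespace Good

variable (H : S.Good j t δ ζ)
include H

theorem lab1 {y : R} (h : S.C j y) : 0 < sg (S.lab j) * S.c1 j t δ ζ y 2 := by
  have e : S.As j t y = S.A0 j y + t / 2 * S.aa j y := by unfold As; ring
  rw [c1, e, cl_two h, sg_not, neg_mul, mul_neg, kap_sign, neg_neg]
  have := H.ht
  have := H.hδ
  have := H.t1_pos y
  have := abs_pos.2 (yn_ne (S := S) (S.pol true y))
  positivity

theorem lab2 {y : R} (h : S.C j y) : 0 < sg (!S.lab j) * S.c2 j t δ y 2 := by
  have e : S.As j t y = S.A0 j y + t / 2 * S.aa j y := by unfold As; ring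
  rw [sg_not, neg_mul, c2, e, cl_two h, kap_sign]
  have := mul_pos H.ht (sub_pos.2 (H.hδb y))
  linarith

theorem lab3 {y : R} (h : S.C j y) : 0 < sg (S.lab j) * S.c3 j t δ y 2 := by
  have e : S.A3 j t y = S.A0 j y + t / 4 * S.aa j y := by unfold A3; ring
  rw [c3, e, cl_two h, kap_sign]
  have := mul_pos H.ht (abs_pos.2 (yn_ne (S := S) (S.pol true y)))
  have := mul_nonneg H.ht.le (mul_nonneg H.hδ.le (abs_nonneg (S.cb j y 2)))
  linarith

theorem max_cs {y : R} (h : S.C j y) (γ : Bool) (a : S.NR j) :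
    IsMx (S.q' j t δ) (S.cs j t δ ζ y γ) a ↔
      a = Sum.inl (y, xor γ (S.kap j y)) ∨ a = Sum.inr (⟨y, h⟩, γ) := by
  cases γ
  · simpa [cs] using H.max3 h a
  · simpa [cs] using H.max1 h a

theorem virt {π : P} {β : Bool} {z : E4} (h1 : S.cP π ⬝ᵥ z = ζ * S.cP π 1)
    (h2 : S.u j δ π β ⬝ᵥ z = ζ * S.u j δ π β 1 - 1) :
    S.cP' j δ ζ (π, β) ⬝ᵥ z = 0 ∧ S.nP' j δ ζ (π, β) ⬝ᵥ z = 1 ∧
      S.ut j δ π β ⬝ᵥ z = ζ * S.ut j δ π β 1 - 1 := by
  have hd := (H.denU π β).ne'
  refine ⟨?_, ?_, ?_⟩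
  · simp only [cP', zP, add_dotProduct, smul_dotProduct, smul_eq_mul, h1, h2]
    field_simp
    ring
  · simp only [nP', smul_dotProduct, smul_eq_mul, h2]
    field_simp
    ring
  · simp only [ut, sub_dotProduct, smul_dotProduct, smul_eq_mul, h1, h2, Pi.sub_apply,
      Pi.smul_apply]
    ring

theorem virtE {b : Bool} {x : R} {β : Bool} {z : E4} (h1 : S.cE b x ⬝ᵥ z = ζ * S.cE b x 1)
    (h2 : S.ut j δ (S.pol b x) β ⬝ᵥ z = ζ * S.ut j δ (S.pol b x) β 1 - 1) :
    S.cEv j δ ζ b x β ⬝ᵥ z = 0 := by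
  have hd := (H.denT (S.pol b x) β).ne'
  simp only [cEv, zE, add_dotProduct, smul_dotProduct, smul_eq_mul, h1, h2]
  field_simp
  ring

omit H in
theorem cl_dt {y : R} (h : S.C j y) (A T : ℝ) (β : Bool) :
    S.cl j δ y A T β ⬝ᵥ S.dt j δ y β = -(A * S.sG j y) := by
  simp [cl, add_dotProduct, smul_dotProduct, cb_dt h, cg_dt, ut_dt h]

omit [Fintype R] [Nonempty R] H in
theorem cl_db {y : R} (h : S.C j y) (A T : ℝ) (β : Bool) :
    S.cl j δ y A T β ⬝ᵥ S.db j y = -S.BB j y := by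
  simp [cl, add_dotProduct, smul_dotProduct, cb_db, cg_db, ut_db h]

theorem exists_e' (a : S.NR j) : ∃ z : E4, ∀ b, S.cP' j δ ζ (S.pol' j b a) ⬝ᵥ z = 0 ∧
    S.nP' j δ ζ (S.pol' j b a) ⬝ᵥ z = 1 ∧ S.cE' j t δ ζ b a ⬝ᵥ z = 0 := by
  rcases a with ⟨x, β⟩ | ⟨⟨y, h⟩, γ⟩
  · by_cases h : S.C j x
    · obtain ⟨A, T, hA, hc⟩ : ∃ A T, 0 < A ∧
          S.cs j t δ ζ x (xor β (S.kap j x)) = S.cl j δ x A T β := by
        by_cases e : β = S.kap j x
        · exact ⟨_, t / 8, H.A3_pos x, by simp [e, cs, c3]⟩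
        · have e' : β = !S.kap j x := by
            cases β <;> cases e' : S.kap j x <;> simp [e'] at e ⊢
          exact ⟨_, S.t1 j t δ ζ x, H.As_pos x, by simp [e', cs, c1]⟩
      have hG := sG_pos h
      set z₀ := ζ • eX - sg β • S.e x with hz₀
      refine ⟨z₀ + (S.cl j δ x A T β ⬝ᵥ z₀ / (A * S.sG j x)) • S.dt j δ x β, fun b => ?_⟩
      obtain ⟨k1, k2, k3⟩ := H.virt (π := S.pol true x) (β := β)
        (z := z₀ + (S.cl j δ x A T β ⬝ᵥ z₀ / (A * S.sG j x)) • S.dt j δ x β)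
        (by simp [hz₀, dotProduct_add, dotProduct_sub, dotProduct_smul, dot_eX, S.Pe, cP_dt h])
        (by simp [hz₀, dotProduct_add, dotProduct_sub, dotProduct_smul, dot_eX, u_e h, u_dt h,
          sg_mul_self])
      simp only [pol', S.C_pol' h b]
      refine ⟨k1, k2, ?_⟩
      simp only [cE']
      split_ifs with hb
      · rw [hc, dotProduct_add, dotProduct_smul, cl_dt h, smul_eq_mul]
        field_simp
        ring
      · have e : b = !S.lab j := by
          cases b <;> cases e : S.lab j <;> simp [e, h] at hb ⊢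
        refine H.virtE ?_ (by rw [S.C_pol' h b]; exact k3)
        have k4 := cg_dt (S := S) (j := j) (y := x) δ β
        rw [cg, ← e] at k4
        simp [hz₀, dotProduct_add, dotProduct_sub, dotProduct_smul, dot_eX, S.Ee, k4]
    · refine ⟨ζ • eX - S.Nv j δ x β, fun b => ?_⟩
      have hd := (H.den x β).ne'
      obtain ⟨k1, k2, k3⟩ := H.virt (π := S.pol b x) (β := β) (z := ζ • eX - S.Nv j δ x β)
        (by simp [Nv, dotProduct_sub, dotProduct_smul, dot_eX, S.Pe])
        (by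
          have e2 : S.u j δ (S.pol b x) β ⬝ᵥ S.e x = sg β - δ * S.tau j x := by
            simp only [u, tau, add_dotProduct, smul_dotProduct, smul_eq_mul, S.ne]; ring
          have e4 : sg β / (1 - sg β * δ * S.tau j x) * (sg β - δ * S.tau j x) = 1 := by
            rw [div_mul_eq_mul_div, div_eq_one_iff_eq hd]
            linear_combination sg_mul_self β
          simp only [Nv, dotProduct_sub, dotProduct_smul, dot_eX, smul_eq_mul, e2, e4])
      refine ⟨k1, k2, ?_⟩
      simp only [cE', h, false_and, if_false]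
      exact H.virtE (by simp [Nv, dotProduct_sub, dotProduct_smul, dot_eX, S.Ee]) k3
  · have hG := sG_pos h
    have hB := BB_pos (S := S) (j := j) (y := y)
    have hδ := H.hδ
    cases γ
    · set z₀ := ζ • eX - sg (S.kap j y) • S.e y with hz₀
      have hA := sub_pos.2 (H.A3_lt y)
      set α := (S.c2 j t δ y ⬝ᵥ z₀ - S.c3 j t δ y ⬝ᵥ z₀) /
        ((S.As j t y - S.A3 j t y) * S.sG j y) with hα
      set α' := (S.c2 j t δ y ⬝ᵥ z₀ - α * (S.As j t y * S.sG j y)) / S.BB j y with hα'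
      refine ⟨z₀ + α • S.dt j δ y (S.kap j y) + α' • S.db j y, fun b => ?_⟩
      obtain ⟨k1, k2, -⟩ := H.virt (π := S.pol true y) (β := S.kap j y)
        (z := z₀ + α • S.dt j δ y (S.kap j y) + α' • S.db j y)
        (by simp [hz₀, dotProduct_add, dotProduct_sub, dotProduct_smul, dot_eX, S.Pe, cP_dt h,
          cP_db h])
        (by simp [hz₀, dotProduct_add, dotProduct_sub, dotProduct_smul, dot_eX, u_e h, u_dt h,
          u_db h, sg_mul_self])
      simp only [pol', Bool.false_xor, ite_self]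
      refine ⟨k1, k2, ?_⟩
      have e1 : α * ((S.As j t y - S.A3 j t y) * S.sG j y) =
          S.c2 j t δ y ⬝ᵥ z₀ - S.c3 j t δ y ⬝ᵥ z₀ := div_mul_cancel₀ _ (mul_pos hA hG).ne'
      have e2 : α' * S.BB j y = S.c2 j t δ y ⬝ᵥ z₀ - α * (S.As j t y * S.sG j y) :=
        div_mul_cancel₀ _ hB.ne'
      simp only [cE']
      split_ifs with hb
      · have a1 : S.c3 j t δ y ⬝ᵥ S.dt j δ y (S.kap j y) = _ := cl_dt h _ _ _
        have a2 : S.c3 j t δ y ⬝ᵥ S.db j y = _ := cl_db h _ _ _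
        simp only [cs, dotProduct_add, dotProduct_smul, a1, a2, smul_eq_mul]
        linarith
      · have a1 : S.c2 j t δ y ⬝ᵥ S.dt j δ y (S.kap j y) = _ := cl_dt h _ _ _
        have a2 : S.c2 j t δ y ⬝ᵥ S.db j y = _ := cl_db h _ _ _
        simp only [dotProduct_add, dotProduct_smul, a1, a2, smul_eq_mul]
        linarith
    · set z₀ := ζ • eX + (δ * S.sG j y)⁻¹ • S.dg j y with hz₀
      set z := z₀ + (S.c2 j t δ y ⬝ᵥ z₀ / S.BB j y) • S.db j y with hz
      have hv : ∀ β, S.cP' j δ ζ (S.pol true y, β) ⬝ᵥ z = 0 ∧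
          S.nP' j δ ζ (S.pol true y, β) ⬝ᵥ z = 1 ∧
          S.ut j δ (S.pol true y) β ⬝ᵥ z = ζ * S.ut j δ (S.pol true y) β 1 - 1 := fun β =>
        H.virt (by simp [hz, hz₀, dotProduct_add, dotProduct_smul, dot_eX, cP_dg h, cP_db h])
          (by
            simp only [hz, hz₀, dotProduct_add, dotProduct_smul, dot_eX, u_dg h, u_db h,
              smul_eq_mul, mul_zero, add_zero]
            field_simp
            ring)
      have a2 : S.c2 j t δ y ⬝ᵥ z = 0 := by
        have a : S.c2 j t δ y ⬝ᵥ S.db j y = _ := cl_db h _ _ _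
        rw [hz, dotProduct_add, dotProduct_smul, a, smul_eq_mul]
        field_simp
        ring
      refine ⟨z, fun b => ⟨(hv _).1, (hv _).2.1, ?_⟩⟩
      simp only [cE']
      split_ifs with hb
      · have hd := (H.denT (S.pol true y) (!S.kap j y)).ne'
        have e1 : S.t1 j t δ ζ y * (1 - ζ * S.ut j δ (S.pol true y) (!S.kap j y) 1) =
          t * (1 - ζ * S.ut j δ (S.pol true y) (S.kap j y) 1) := div_mul_cancel₀ _ hd
        simp only [c2, cl, add_dotProduct, smul_dotProduct, smul_eq_mul, (hv _).2.2] at a2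
        simp only [cs, c1, cl, add_dotProduct, smul_dotProduct, smul_eq_mul, (hv _).2.2]
        linarith
      · exact a2

end Good

end GS

end Pool.Agent.Fat
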