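import Pool.Agent.Lib.MP_bbcf47_co.Glue4

/-! The gluing operation: assembly. -/

namespace Pool.Agent.Fat

open Matrix Filter Topology

namespace GS

variable {R P L L' : Type} [Fintype R] [Nonempty R] {S : GS R P L} {j : L} {t δ ζ : ℝ}

omit [Fintype R] [Nonempty R] in
theorem nb'_C {x : R} (h : S.C j x) (β : Bool) :
    S.nb' j (S.lab j) (Sum.inl (x, β)) = Sum.inr (⟨x, h⟩, xor β (S.kap j x)) := by
  simp [nb', h]

omit [Fintype R] [Nonempty R] in
theorem nb'_N {b : Bool} {x : R} (h : ¬ (S.C j x ∧ b = S.lab j)) (β : Bool) :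
    S.nb' j b (Sum.inl (x, β)) = Sum.inl (S.nb b x, β) := by
  simp only [nb', dif_neg h]

omit [Fintype R] [Nonempty R] in
theorem nb'_r1 (y : {x // S.C j x}) (γ : Bool) :
    S.nb' j (S.lab j) (Sum.inr (y, γ)) = Sum.inl (y.1, xor γ (S.kap j y)) := by
  simp [nb']

omit [Fintype R] [Nonempty R] in
theorem nb'_r2 {b : Bool} (h : b ≠ S.lab j) (y : {x // S.C j x}) (γ : Bool) :
    S.nb' j b (Sum.inr (y, γ)) = Sum.inr (y, !γ) := by
  simp [nb', h]

omit [Fintype R] [Nonempty R] in
theorem cE'_C {x : R} (h : S.C j x) (β : Bool) :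
    S.cE' j t δ ζ (S.lab j) (Sum.inl (x, β)) = S.cs j t δ ζ x (xor β (S.kap j x)) := by
  simp [cE', h]

omit [Fintype R] [Nonempty R] in
theorem cE'_N {b : Bool} {x : R} (h : ¬ (S.C j x ∧ b = S.lab j)) (β : Bool) :
    S.cE' j t δ ζ b (Sum.inl (x, β)) = S.cEv j δ ζ b x β := by
  simp only [cE', if_neg h]

omit [Fintype R] [Nonempty R] in
theorem cE'_r1 (y : {x // S.C j x}) (γ : Bool) :
    S.cE' j t δ ζ (S.lab j) (Sum.inr (y, γ)) = S.cs j t δ ζ y γ := by
  simp [cE']

omit [Fintype R] [Nonempty R] in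
theorem cE'_r2 {b : Bool} (h : b ≠ S.lab j) (y : {x // S.C j x}) (γ : Bool) :
    S.cE' j t δ ζ b (Sum.inr (y, γ)) = S.c2 j t δ y := by
  simp [cE', h]

omit [Fintype R] [Nonempty R] in
/-- Case analysis on a slot of a new vertex. -/
theorem slot_cases {motive : Bool → S.NR j → Prop}
    (h1 : ∀ x β, S.C j x → motive (S.lab j) (Sum.inl (x, β)))
    (h2 : ∀ b x β, ¬ (S.C j x ∧ b = S.lab j) → motive b (Sum.inl (x, β)))
    (h3 : ∀ y γ, motive (S.lab j) (Sum.inr (y, γ)))
    (h4 : ∀ b y γ, b ≠ S.lab j → motive b (Sum.inr (y, γ))) (b : Bool) (a : S.NR j) :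
    motive b a := by
  rcases a with ⟨x, β⟩ | ⟨y, γ⟩
  · by_cases h : S.C j x ∧ b = S.lab j
    · exact h.2 ▸ h1 x β h.1
    · exact h2 b x β h
  · by_cases h : b = S.lab j
    · exact h ▸ h3 y γ
    · exact h4 b y γ h

omit [Fintype R] [Nonempty R] in
theorem mid_spec' (a : S.NR j) (hne : S.pol' j true a ≠ S.pol' j false a) :
    (∀ b, S.mid' j a ≠ S.nb' j b a) ∧ S.mid' j a ≠ a ∧
    ∀ s, ((S.pol' j true s = S.pol' j true a ∨ S.pol' j false s = S.pol' j true a) ∧
      (S.pol' j true s = S.pol' j false a ∨ S.pol' j false s = S.pol' j false a)) ↔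
        s = a ∨ s = S.mid' j a := by
  simp only [inP']
  rcases a with ⟨x, β⟩ | ⟨⟨y, h⟩, γ⟩
  · have hne' : S.pol true x ≠ S.pol false x := fun e => hne (by simp [pol', e])
    have hC : ¬ S.C j x := fun h => hne' (S.C_pol _ _ h)
    obtain ⟨m1, m2, -⟩ := S.mid_spec x hne'
    refine ⟨fun b => ?_, by simpa [mid'] using m2, fun s => ?_⟩
    · rw [nb'_N (fun h => hC h.1)]
      simpa [mid'] using m1 b
    · have key := S.mid_iff hne' true (S.pr j s)
      simp only [Bool.not_true] at key
      simp only [pol', mid']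
      rcases s with ⟨x', β'⟩ | ⟨⟨y, h⟩, γ⟩
      · simp only [pr, side, Sum.inl.injEq, Prod.mk.injEq] at key ⊢
        tauto
      · simp only [pr, S.C_inP_iff h, reduceCtorEq, or_self, iff_false]
        exact fun hh => hne' (hh.1.1.symm.trans hh.2.1)
  · obtain rfl : γ = true := by
      cases γ
      · exact absurd (by simp [pol']) hne
      · rfl
    refine ⟨fun b => ?_, ?_, fun s => ?_⟩
    · by_cases hb : b = S.lab j
      · subst hb
        rw [nb'_r1]
        simp [mid']
      · rw [nb'_r2 hb]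
        simp [mid']
    · simpa [mid'] using S.nb_ne _ _
    · have e : ∀ s : S.NR j, ((S.InP (S.pol' j true (Sum.inr (⟨y, h⟩, true))).1 (S.pr j s) ∧
          S.side j s (S.pol' j true (Sum.inr (⟨y, h⟩, true))).2) ∧
          (S.InP (S.pol' j false (Sum.inr (⟨y, h⟩, true))).1 (S.pr j s) ∧
          S.side j s (S.pol' j false (Sum.inr (⟨y, h⟩, true))).2)) ↔
          (S.InP (S.pol true y) (S.pr j s) ∧ S.side j s true ∧ S.side j s false) := by
        intro s
        simp only [pol']
        cases S.lab j <;> cases S.kap j y <;> simp <;> tauto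
      rw [e]
      rcases s with ⟨x', β'⟩ | ⟨⟨y', h'⟩, γ⟩
      · cases β' <;> simp [side, mid']
      · simp only [pr, side, mid', Sum.inr.injEq, Prod.mk.injEq, Subtype.mk.injEq]
        constructor
        · rintro ⟨k1, k2, k3⟩
          have hγ : γ = true := by
            by_contra hn
            simp only [hn, false_or] at k2 k3
            exact absurd (k2.trans k3.symm) (by simp)
          rcases S.C_pair h h' k1 with e | e
          · exact Or.inl ⟨e, hγ⟩
          · exact Or.inr ⟨e, hγ⟩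
        · rintro (⟨rfl, rfl⟩ | ⟨rfl, rfl⟩)
          · exact ⟨S.inP_self true _, Or.inl rfl, Or.inl rfl⟩
          · exact ⟨S.C_inP h _, Or.inl rfl, Or.inl rfl⟩

/-- The glued gadget state. -/
noncomputable def Good.glue (H : S.Good j t δ ζ) (ι : L' → L) (hι : Function.Injective ι)
    (hj : ∀ l, ι l ≠ j) : GS (S.NR j) (P × Bool) L' where
  q := S.q' j t δ
  e := fun a => (H.exists_e' a).choose
  nb := S.nb' j
  pol := S.pol' j
  mid := S.mid' j
  cP := S.cP' j δ ζ
  nP := S.nP' j δ ζ
  cE := S.cE' j t δ ζ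
  C := fun l a => S.C (ι l) (S.pr j a) ∧ a.isLeft = true
  cS := fun l => S.cS (ι l)
  lab := fun l => S.lab (ι l)
  nb_inv := by
    refine slot_cases ?_ ?_ ?_ ?_
    · intro x β h
      rw [nb'_C h, nb'_r1]
      simp
    · intro b x β h
      rw [nb'_N h, nb'_N (not_C_nb h), S.nb_inv]
    · intro y γ
      rw [nb'_r1, nb'_C y.2]
      simp
    · intro b y γ h
      rw [nb'_r2 h, nb'_r2 h, Bool.not_not]
  nb_ne := by
    refine slot_cases ?_ ?_ ?_ ?_
    · intro x β h
      rw [nb'_C h]
      simp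
    · intro b x β h
      rw [nb'_N h]
      simpa using S.nb_ne b x
    · intro y γ
      rw [nb'_r1]
      simp
    · intro b y γ h
      rw [nb'_r2 h]
      simp
  nb_ne' := by
    have key : ∀ a, S.nb' j (S.lab j) a ≠ S.nb' j (!S.lab j) a := by
      rintro (⟨x, β⟩ | ⟨y, γ⟩)
      · rw [nb'_N (b := !S.lab j) (by simp)]
        by_cases h : S.C j x
        · rw [nb'_C h]; simp
        · rw [nb'_N (fun h' => h h'.1)]
          simpa using (S.nb_ne_not _ x).symm
      · rw [nb'_r1, nb'_r2 (by simp)]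
        simp
    intro a
    have := key a
    cases e : S.lab j <;> rw [e] at this
    · exact this.symm
    · exact this
  pol_nb := by
    refine slot_cases ?_ ?_ ?_ ?_
    · intro x β h
      rw [nb'_C h]
      simp [pol', S.C_pol' h (S.lab j)]
    · intro b x β h
      rw [nb'_N h]
      simp [pol', S.pol_nb]
    · intro y γ
      rw [nb'_r1]
      simp [pol', S.C_pol' y.2 (S.lab j)]
    · intro b y γ h
      rw [nb'_r2 h]
      simp [pol', h]
  cE_nb := by
    refine slot_cases ?_ ?_ ?_ ?_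
    · intro x β h
      rw [nb'_C h, cE'_r1, cE'_C h]
    · intro b x β h
      rw [nb'_N h, cE'_N h, cE'_N (not_C_nb h)]
      simp only [cEv, zE, S.cE_nb, S.pol_nb]
    · intro y γ
      rw [nb'_r1, cE'_r1, cE'_C y.2]
      simp
    · intro b y γ h
      rw [nb'_r2 h, cE'_r2 h, cE'_r2 h]
  maxP := fun x a => by rw [H.maxP', inP']
  P0 := H.P0
  P1 := H.P1
  nP_const := fun x a a' h h' => by
    rw [inP'] at h h'
    rw [nP', smul_dotProduct, smul_dotProduct, H.u_side h.1 h.2, H.u_side h'.1 h'.2,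
      S.nP_const _ _ _ h.1 h'.1]
  Pe := fun b a => ((H.exists_e' a).choose_spec b).1
  ne := fun b a => ((H.exists_e' a).choose_spec b).2.1
  ny := fun x => by
    have := mul_ne_zero (inv_ne_zero (H.denU x.1 x.2).ne') (H.ny x.1 x.2)
    simp only [cP', nP', Pi.add_apply, Pi.smul_apply, smul_eq_mul]
    intro h
    apply this
    linarith
  maxE := by
    refine slot_cases ?_ ?_ ?_ ?_
    · intro x β h s
      rw [nb'_C h, cE'_C h, H.max_cs h]
      simp
    · intro b x β h s
      rw [nb'_N h, cE'_N h, H.maxEv h]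
    · intro y γ s
      rw [nb'_r1, cE'_r1, H.max_cs y.2]
      exact or_comm
    · intro b y γ h s
      rw [nb'_r2 h, cE'_r2 h, H.max2 y.2]
      cases γ
      · exact or_comm
      · rfl
  E0 := by
    have key : ∀ y γ, S.cs j t δ ζ y γ 0 = 0 := fun y γ => by
      cases γ <;> exact cl_zero _ _ _ _
    refine slot_cases ?_ ?_ ?_ ?_
    · intro x β h
      rw [cE'_C h, key]
    · intro b x β h
      rw [cE'_N h]
      simp [cEv, S.E0, S.ut_zero]
    · intro y γ
      rw [cE'_r1, key]
    · intro b y γ h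
      rw [cE'_r2 h]
      exact cl_zero _ _ _ _
  E1 := by
    have key : ∀ y γ, 0 < S.cs j t δ ζ y γ 1 := fun y γ => by
      cases γ
      · exact H.x3 y
      · exact H.x1 y
    refine slot_cases ?_ ?_ ?_ ?_
    · intro x β h
      rw [cE'_C h]
      exact key _ _
    · intro b x β h
      rw [cE'_N h]
      exact H.E1 _ _ _
    · intro y γ
      rw [cE'_r1]
      exact key _ _
    · intro b y γ h
      rw [cE'_r2 h]
      exact H.x2 _
  E2 := by
    have key : ∀ y γ, S.C j y → 0 < sg (S.lab j) * S.cs j t δ ζ y γ 2 := fun y γ h => by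
      cases γ
      · exact H.lab3 h
      · exact H.lab1 h
    refine slot_cases ?_ ?_ ?_ ?_
    · intro x β h
      rw [cE'_C h]
      exact key _ _ h
    · intro b x β h
      rw [cE'_N h]
      exact H.E2 _ _ _
    · intro y γ
      rw [cE'_r1]
      exact key _ _ y.2
    · intro b y γ h
      rw [cE'_r2 h]
      have e : b = !S.lab j := by cases b <;> cases e : S.lab j <;> simp [e] at h ⊢
      rw [e]
      exact H.lab2 y.2
  Ee := fun b a => ((H.exists_e' a).choose_spec b).2.2
  mid_spec := mid_spec'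
  C_pol := by
    rintro l (⟨x, β⟩ | y) ⟨h1, h2⟩
    · simp only [pol', S.C_pol _ x h1]
    · simp at h2
  C_nb := by
    rintro l (⟨x, β⟩ | y) ⟨h1, h2⟩
    · rw [nb'_N (fun h => S.C_disj _ _ x (hj l) h1 h.1 h.2)]
      exact ⟨S.C_nb _ _ h1, rfl⟩
    · simp at h2
  maxS := fun l a => H.maxS' (hj l) a
  S0 := fun l => S.S0 _
  S1 := fun l => S.S1 _
  S_rel := by
    rintro l (⟨x, β⟩ | y) ⟨h1, h2⟩
    · rw [cE'_N (fun h => S.C_disj _ _ x (hj l) h1 h.1 h.2)]
      obtain ⟨θ, hθ⟩ := S.S_rel _ x h1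
      have e1 := congrFun hθ 1
      simp only [Pi.add_apply, Pi.smul_apply, smul_eq_mul, S.S1, zero_add] at e1
      have hp := S.C_pol' h1 (S.lab (ι l))
      simp only [pr] at hp
      set π := S.pol true x with hπ
      set k := S.u j δ π β 0 / S.cP π 0 with hk
      set z := S.zE j δ ζ (S.lab (ι l)) x β with hz
      refine ⟨θ - z * k, ?_⟩
      have d1 := (H.denU π β).ne'
      have d2 := (H.denT π β).ne'
      have e2 : S.ut j δ π β 1 = S.u j δ π β 1 - k * S.cP π 1 := rfl
      have e3 : z * (1 - ζ * S.ut j δ π β 1) = ζ * (θ * S.cP π 1) := by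
        rw [hz, zE, hp, e1]
        exact div_mul_cancel₀ _ d2
      have e4 : z = (θ - z * k) * S.zP j δ ζ π β := by
        rw [zP, ← mul_div_assoc, eq_div_iff d1]
        rw [e2] at e3
        linear_combination e3
      simp only [cEv, pol', cP', hp, ← hz, ← hπ]
      rw [hθ, smul_add, smul_smul, ← e4, ut, ← hk]
      module
    · simp at h2
  C_disj := fun l l' a hl h h' => S.C_disj _ _ _ (fun e => hl (hι e)) h.1 h'.1

open Classical in
/-- The size of a class. -/
noncomputable def nC (S : GS R P L) (l : L) : ℕ := (Finset.univ.filter fun r => S.C l r).card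

theorem glue [Fintype P] [Fintype L] (S : GS R P L) (j : L) (ι : L' → L)
    (hι : Function.Injective ι) (hj : ∀ l, ι l ≠ j) :
    ∃ (R' : Type) (_ : Fintype R') (_ : Nonempty R') (S' : GS R' (P × Bool) L'),
      Fintype.card R' = 2 * Fintype.card R + 2 * S.nC j ∧ S'.n3 = 2 * S.n3 + S.nC j ∧
      ∀ l, S'.nC l = 2 * S.nC (ι l) := by
  classical
  obtain ⟨t, δ, ζ, H⟩ := S.exists_good j
  have hC : Fintype.card {x // S.C j x} = S.nC j := by
    rw [Fintype.card_subtype, nC]
  refine ⟨S.NR j, inferInstance, inferInstance, H.glue ι hι hj, ?_, ?_, fun l => ?_⟩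
  · simp only [Fintype.card_sum, Fintype.card_prod, Fintype.card_bool, hC]
    ring
  · rw [← hC]
    simp only [n3, Finset.card_filter, Fintype.sum_sum_type, Fintype.sum_prod_type,
      Fintype.sum_bool, Good.glue, pol']
    congr 1
    · rw [two_mul, ← Finset.sum_add_distrib]
      refine Finset.sum_congr rfl fun x _ => ?_
      simp
    · rw [Fintype.card_eq_sum_ones]
      refine Finset.sum_congr rfl fun x _ => ?_
      cases S.lab j <;> cases S.kap j x <;> simp
  · simp only [nC, Finset.card_filter, Fintype.sum_sum_type, Fintype.sum_prod_type,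
      Fintype.sum_bool, Good.glue, pr]
    rw [two_mul, ← Finset.sum_add_distrib]
    simp

end GS

end Pool.Agent.Fat
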