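import Pool.Agent.Lib.MP_bbcf47_co.Stack3

/-! Gadgets and the local analysis of the insertion of a gadget at every vertex of a state. -/

namespace Pool.Agent.Fat

open Matrix Filter Topology

/-- The interface of a gadget. -/
structure Gadget (R : Type) [DecidableEq R] where
  q : R → E4
  e : R → E4
  FF : Finset (Finset R)
  EE : Finset (R × R)
  up : R → R
  lo : R → R
  K : ℝ
  up_inv : ∀ r, up (up r) = r
  up_ne : ∀ r, up r ≠ r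
  lo_inv : ∀ r, lo (lo r) = r
  lo_ne : ∀ r, lo r ≠ r
  cU : ∀ r, Compat q (fun _ : Unit => e) {r, up r}
  cL : ∀ r, Compat q (fun _ : Unit => e) {r, lo r}
  cF : ∀ F ∈ FF, Compat q (fun _ : Unit => e) F ∧ 2 ≤ Module.finrank ℝ (Ann q F)
  e3 : ∀ r, e r 3 ≠ 0
  xpos : ∀ r c, IsMx q c r → c ⬝ᵥ e r = 0 → 0 < c 0 → 0 < c 1
  mem : ∀ r c, IsMx q c r → c ⬝ᵥ e r = 0 → 0 < c 0 → ∃ F ∈ FF, ∀ s, IsMx q c s → s ∈ F
  ypos : ∀ r c, IsMx q c r → c ⬝ᵥ e r = 0 → 0 < c 0 → K * c 0 < c 2 →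
    ∀ s, IsMx q c s → s = r ∨ s = up r
  yneg : ∀ r c, IsMx q c r → c ⬝ᵥ e r = 0 → 0 < c 0 → c 2 < -(K * c 0) →
    ∀ s, IsMx q c s → s = r ∨ s = lo r
  cross : ∀ r c, c ⬝ᵥ e r = 0 → K * (|c 0| + |c 2|) < c 1 → ∀ s, IsMx q c s ↔ s = r
  edge : ∀ x ∈ EE, x.1 ≠ x.2 ∧ Compat q (fun _ : Unit => e) {x.1, x.2} ∧ ∃ c n,
    (∀ s, IsMx q c s ↔ s = x.1 ∨ s = x.2) ∧ c ⬝ᵥ e x.1 = 0 ∧ 0 < c 0 ∧
    n ⬝ᵥ q x.1 = n ⬝ᵥ q x.2 ∧ n ⬝ᵥ e x.1 = 1

/-- The anisotropic scaling. -/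
def Tm (ε : ℝ) : E4 →ₗ[ℝ] E4 where
  toFun a := ![ε ^ 5 * a 0, ε * a 1, ε ^ 3 * a 2, a 3]
  map_add' a b := by ext i; fin_cases i <;> simp [mul_add]
  map_smul' t a := by ext i; fin_cases i <;> simp <;> ring

theorem Tm_apply (ε : ℝ) (a : E4) : Tm ε a = ![ε ^ 5 * a 0, ε * a 1, ε ^ 3 * a 2, a 3] := rfl

theorem dot_Tm (ε : ℝ) (a b : E4) : a ⬝ᵥ Tm ε b = Tm ε a ⬝ᵥ b := by
  simp [Tm_apply, dotProduct, Fin.sum_univ_four]; ring

theorem Tm_dot (ε : ℝ) (a b : E4) : Tm ε a ⬝ᵥ b =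
    ε ^ 5 * a 0 * b 0 + ε * a 1 * b 1 + ε ^ 3 * a 2 * b 2 + a 3 * b 3 := by
  simp [Tm_apply, dotProduct, Fin.sum_univ_four]

namespace Gadget

variable {R : Type} [DecidableEq R] (G : Gadget R)

/-- The scaled gadget points. -/
def Q (ε : ℝ) (r : R) : E4 := ε • Tm ε (G.q r)

/-- The coefficients of the new fields. -/
def a (μ ε : ℝ) : Fin 4 → R → E4 :=
  ![fun _ => ![1, 0, 0, 0], fun _ => ![ε * μ, 1, ε, 0], fun _ => ![2 * μ, 0, 1, 0],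
    fun r => Tm ε (G.e r)]

theorem dot_Q (ε : ℝ) (r : R) (c : E4) : c ⬝ᵥ G.Q ε r = ε * (Tm ε c ⬝ᵥ G.q r) := by
  rw [Q, dotProduct_smul, dot_Tm, smul_eq_mul]

theorem isMx_Q {ε : ℝ} (hε : 0 < ε) (c : E4) (r : R) :
    IsMx (G.Q ε) c r ↔ IsMx G.q (Tm ε c) r := by
  simp only [IsMx, dot_Q]
  exact forall_congr' fun w => mul_le_mul_iff_right₀ hε

theorem tendsto_Q {X : Type*} {l : Filter X} {e : X → ℝ} (he : Tendsto e l (𝓝 0)) (r : R) :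
    Tendsto (fun x => G.Q (e x) r) l (𝓝 0) := by
  have hc : Continuous fun ε : ℝ => G.Q ε r := by
    unfold Q
    refine continuous_id.smul (continuous_pi fun k => ?_)
    fin_cases k <;> simp [Tm_apply] <;> fun_prop
  have h := (hc.tendsto 0).comp he
  have e : G.Q 0 r = 0 := by simp [Q]
  rw [e] at h
  exact h

theorem compat_Q {ε : ℝ} (hε : 0 < ε) (μ : ℝ) {F : Finset R}
    (h : Compat G.q (fun _ : Unit => G.e) F) : Compat (G.Q ε) (G.a μ ε) F := by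
  obtain ⟨K, hK, h⟩ := h
  refine ⟨K / ε, by positivity, fun c r s hr hs i => ?_⟩
  have hr' : MaxOn G.q F (Tm ε c) r := by
    refine ⟨hr.1, fun w hw => ?_⟩
    have := hr.2 w hw
    rw [dot_Q, dot_Q] at this
    exact le_of_mul_le_mul_left this hε
  have h0 : 0 ≤ K / ε * (c ⬝ᵥ G.Q ε r - c ⬝ᵥ G.Q ε s) :=
    mul_nonneg (by positivity) (sub_nonneg.2 (hr.2 s hs))
  fin_cases i
  · simpa [a] using h0
  · simpa [a] using h0
  · simpa [a] using h0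
  · have := h (Tm ε c) r s hr' hs ()
    have e : K / ε * (c ⬝ᵥ G.Q ε r - c ⬝ᵥ G.Q ε s) =
        K * (Tm ε c ⬝ᵥ G.q r - Tm ε c ⬝ᵥ G.q s) := by
      rw [dot_Q, dot_Q]; field_simp
    rw [e]
    simpa [a, dot_Tm] using this

theorem finrank_Q (ε : ℝ) (F : Finset R) :
    Module.finrank ℝ (Ann G.q F) ≤ Module.finrank ℝ (Ann (G.Q ε) F) := by
  refine (finrank_comap_ge (Tm ε) _).trans (Submodule.finrank_mono ?_)
  intro c hc r hr s hs
  rw [dot_Q, dot_Q, hc r hr s hs]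

end Gadget

section

variable {V R : Type} [DecidableEq V] [DecidableEq R] (S : State V) (G : Gadget R)

/-- New points. -/
def ip (ε : ℝ) : V × R → E4 := pp S.p S.d (G.Q ε)

/-- New fields. -/
def idd (μ ε : ℝ) : Fin 4 → V × R → E4 := fun i x => comb S.d x.1 (G.a μ ε i x.2)

theorem Lm_idd0 (μ ε : ℝ) (v : V) (r : R) (c : E4) :
    Lm (idd S G μ ε) (v, r) c 0 = Lm S.d v c 0 := by
  rw [Lm_apply, idd, dot_comb]
  simp [Gadget.a, dotProduct, Fin.sum_univ_four]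

theorem Lm_idd1 (μ ε : ℝ) (v : V) (r : R) (c : E4) :
    Lm (idd S G μ ε) (v, r) c 1 = Lm S.d v c 1 + ε * (Lm S.d v c 2 + μ * Lm S.d v c 0) := by
  rw [Lm_apply, idd, dot_comb]
  simp [Gadget.a, dotProduct, Fin.sum_univ_four]; ring

theorem Lm_idd2 (μ ε : ℝ) (v : V) (r : R) (c : E4) :
    Lm (idd S G μ ε) (v, r) c 2 = Lm S.d v c 2 + 2 * μ * Lm S.d v c 0 := by
  rw [Lm_apply, idd, dot_comb]
  simp [Gadget.a, dotProduct, Fin.sum_univ_four]; ring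

theorem Lm_idd3 (μ ε : ℝ) (v : V) (r : R) (c : E4) :
    Lm (idd S G μ ε) (v, r) c 3 = Tm ε (Lm S.d v c) ⬝ᵥ G.e r := by
  rw [Lm_apply, idd, dot_comb]
  simp [Gadget.a, dot_Tm]

theorem prod_eventually [Fintype R] (μ : ℝ) {X : Type*} {l : Filter X} {e : X → ℝ}
    (he : Tendsto e l (𝓝 0)) {Φ : Finset V} (hΦ : Compat S.p S.d Φ) :
    ∀ᶠ x in l, 0 < e x → ∀ F, Compat G.q (fun _ : Unit => G.e) F →
      Compat (ip S G (e x)) (idd S G μ (e x)) (Φ ×ˢ F) ∧ (Φ.Nonempty →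
      Module.finrank ℝ (Ann S.p Φ) + Module.finrank ℝ (Ann G.q F) ≤
        Module.finrank ℝ (Ann (ip S G (e x)) (Φ ×ˢ F)) + 4) := by
  obtain ⟨K, hK0, hK⟩ := hΦ
  filter_upwards [small_eventually K (G.tendsto_Q he)] with x hx hpos F hF
  refine ⟨compat_prod hK0 hK hx (G.compat_Q hpos μ hF), fun hne => ?_⟩
  have h1 := finrank_Ann_prod hK (G.Q (e x)) F hne
  have h2 := G.finrank_Q (e x) F
  unfold ip
  omega

theorem exists_mu [Fintype V] : ∃ μ : ℝ, 0 < μ ∧ ∀ v c, Lm S.d v c 3 = 0 → Lm S.d v c 1 = 0 →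
    0 < Lm S.d v c 0 → |Lm S.d v c 2| ≤ 2 * μ * Lm S.d v c 0 → ∀ w, IsMx S.p c w → w = v := by
  have h : ∀ᶠ m in 𝓝 (0 : ℝ), ∀ v w, IsMx S.p ((S.chart v).symm ![1, 0, m, 0]) w → w = v := by
    rw [eventually_all]
    intro v
    have hc : Tendsto (fun m : ℝ => (S.chart v).symm ![1, 0, m, 0]) (𝓝 0)
        (𝓝 ((S.chart v).symm ![1, 0, 0, 0])) := by
      refine ((S.continuous_chart_symm v).tendsto _).comp ?_
      refine tendsto_pi_nhds.2 fun k => ?_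
      fin_cases k
      · simp
      · simp
      · simpa using continuous_id'.tendsto (0 : ℝ)
      · simp
    filter_upwards [usc' (p := S.p) hc] with m hm w hw
    exact (S.base v _ (S.Lm_chart_symm v _) w).1 (hm w hw)
  obtain ⟨ρ, hρ, h⟩ := Metric.eventually_nhds_iff.1 h
  refine ⟨ρ / 4, by positivity, fun v c h3 h1 h0 h2 w hw => ?_⟩
  refine h (y := Lm S.d v c 2 / Lm S.d v c 0) ?_ v w ?_
  · rw [Real.dist_eq, sub_zero, abs_div, abs_of_pos h0, div_lt_iff₀ h0]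
    nlinarith
  · have e : ![1, 0, Lm S.d v c 2 / Lm S.d v c 0, 0] = Lm S.d v ((Lm S.d v c 0)⁻¹ • c) := by
      rw [map_smul]
      ext i
      fin_cases i
      · simp [h0.ne']
      · simp [h1]
      · simp [div_eq_inv_mul]
      · simp [h3]
    rw [e, S.chart_symm_Lm]
    exact (isMx_smul (inv_pos.2 h0)).2 hw

end

end Pool.Agent.Fat
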