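import Pool.Agent.Lib.MP_bbcf47_co.Insert

/-! The classification of the section after an insertion. -/

namespace Pool.Agent.Fat

open Matrix Filter Topology

variable {V R : Type} [DecidableEq V] [DecidableEq R] [Fintype V] [Fintype R]
  (S : State V) (G : Gadget R)

/-- New counted faces. -/
def iFF : Finset (Finset (V × R)) :=
  ((S.FF ×ˢ (Finset.univ : Finset R)).image fun x => x.1 ×ˢ ({x.2} : Finset R)) ∪
  (((Finset.univ : Finset V) ×ˢ G.FF).image fun x => ({x.1} : Finset V) ×ˢ x.2) ∪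
  (Finset.univ.image fun x : V × R => ({x.1, S.A x.1} : Finset V) ×ˢ ({x.2, G.up x.2} : Finset R))

/-- New terminal faces. -/
def iTT : Finset (Finset (V × R)) :=
  Finset.univ.image fun x : V × R => ({x.1, S.O x.1} : Finset V) ×ˢ ({x.2, G.lo x.2} : Finset R)

theorem mem_iFF1 {Φ : Finset V} (h : Φ ∈ S.FF) (r : R) : Φ ×ˢ ({r} : Finset R) ∈ iFF S G :=
  Finset.mem_union_left _ (Finset.mem_union_left _
    (Finset.mem_image.2 ⟨(Φ, r), by simpa using h, rfl⟩))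

theorem mem_iFF2 {F : Finset R} (h : F ∈ G.FF) (v : V) : ({v} : Finset V) ×ˢ F ∈ iFF S G :=
  Finset.mem_union_left _ (Finset.mem_union_right _
    (Finset.mem_image.2 ⟨(v, F), by simpa using h, rfl⟩))

theorem mem_iFF3 (v : V) (r : R) :
    ({v, S.A v} : Finset V) ×ˢ ({r, G.up r} : Finset R) ∈ iFF S G :=
  Finset.mem_union_right _ (Finset.mem_image.2 ⟨(v, r), Finset.mem_univ _, rfl⟩)

theorem mem_iTT (v : V) (r : R) :
    ({v, S.O v} : Finset V) ×ˢ ({r, G.lo r} : Finset R) ∈ iTT S G :=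
  Finset.mem_image.2 ⟨(v, r), Finset.mem_univ _, rfl⟩

/-- The classification statement at `(v, r)`. -/
def IClass (μ ε : ℝ) (c : E4) (v : V) (r : R) : Prop :=
  0 < Lm S.d v c 0 ∧
  (0 < Lm S.d v c 1 + ε * (Lm S.d v c 2 + μ * Lm S.d v c 0) →
    ∃ Φ, (Φ ∈ iFF S G ∨ Thin (ip S G ε) (idd S G μ ε) Φ) ∧ ∀ w, IsMx (ip S G ε) c w → w ∈ Φ) ∧
  (Lm S.d v c 1 + ε * (Lm S.d v c 2 + μ * Lm S.d v c 0) < 0 →
    ∃ Φ, Φ ∈ iTT S G ∧ ∀ w, IsMx (ip S G ε) c w → w ∈ Φ) ∧
  (Lm S.d v c 1 + ε * (Lm S.d v c 2 + μ * Lm S.d v c 0) = 0 →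
    0 < Lm S.d v c 2 + 2 * μ * Lm S.d v c 0 →
    ∀ w, IsMx (ip S G ε) c w → w = (v, r) ∨ w = (v, G.lo r)) ∧
  (Lm S.d v c 1 + ε * (Lm S.d v c 2 + μ * Lm S.d v c 0) = 0 →
    Lm S.d v c 2 + 2 * μ * Lm S.d v c 0 < 0 →
    ∀ w, IsMx (ip S G ε) c w → w = (v, r) ∨ w = (S.O v, r))

theorem IClass.of_smul {μ ε : ℝ} {c : E4} {v : V} {r : R} {t : ℝ} (ht : 0 < t)
    (h : IClass S G μ ε (t • c) v r) : IClass S G μ ε c v r := by
  obtain ⟨h0, h1, h2, h3, h4⟩ := h
  simp only [map_smul, Pi.smul_apply, smul_eq_mul, isMx_smul ht] at h0 h1 h2 h3 h4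
  have e1 : t * Lm S.d v c 1 + ε * (t * Lm S.d v c 2 + μ * (t * Lm S.d v c 0)) =
      t * (Lm S.d v c 1 + ε * (Lm S.d v c 2 + μ * Lm S.d v c 0)) := by ring
  have e2 : t * Lm S.d v c 2 + 2 * μ * (t * Lm S.d v c 0) =
      t * (Lm S.d v c 2 + 2 * μ * Lm S.d v c 0) := by ring
  rw [e1] at h1 h2 h3 h4
  rw [e2] at h3 h4
  refine ⟨(mul_pos_iff_of_pos_left ht).1 h0, fun h => h1 (mul_pos ht h),
    fun h => h2 (mul_neg_of_pos_of_neg ht h), fun h h' => h3 (by rw [h, mul_zero]) (mul_pos ht h'),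
    fun h h' => h4 (by rw [h, mul_zero]) (mul_neg_of_pos_of_neg ht h')⟩

omit [Fintype V] in
theorem thin_eventually (μ : ℝ) {X : Type*} {l : Filter X} {e : X → ℝ}
    (he : Tendsto e l (𝓝 0)) {Φ : Finset V} (hΦ : Thin S.p S.d Φ) (hne : Φ.Nonempty) (r : R) :
    ∀ᶠ x in l, 0 < e x → Thin (ip S G (e x)) (idd S G μ (e x)) (Φ ×ˢ ({r} : Finset R)) := by
  filter_upwards [prod_eventually S G μ he hΦ.1] with x hx hpos
  obtain ⟨h1, h2⟩ := hx hpos {r} (compat_single _ _ _)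
  have h3 := h2 hne
  have h4 := finrank_Ann_single G.q r
  have h5 := hΦ.2
  exact ⟨h1, by omega⟩

variable [Nonempty V] [Nonempty R]

theorem insert_class {μ : ℝ} (hμ : 0 < μ)
    (hμ' : ∀ v c, Lm S.d v c 3 = 0 → Lm S.d v c 1 = 0 →
      0 < Lm S.d v c 0 → |Lm S.d v c 2| ≤ 2 * μ * Lm S.d v c 0 → ∀ w, IsMx S.p c w → w = v) :
    ∀ᶠ ε in 𝓝[>] (0 : ℝ), ∀ c : E4, c ≠ 0 → ∀ (v : V) (r : R),
      IsMx (ip S G ε) c (v, r) → Tm ε (Lm S.d v c) ⬝ᵥ G.e r = 0 → IClass S G μ ε c v r := by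
  refine sphere_eventually ?_ ?_
  · intro ε c t ht h v r h1 h2
    refine (h v r ((isMx_smul ht).2 h1) ?_).of_smul S G ht
    rw [map_smul, map_smul, smul_dotProduct, h2, smul_zero]
  intro c₀ hc₀
  have hfst : Tendsto (fun z : ℝ × E4 => z.1) (𝓝 (0, c₀)) (𝓝 0) := continuous_fst.tendsto _
  have hsnd : Tendsto (fun z : ℝ × E4 => z.2) (𝓝 (0, c₀)) (𝓝 c₀) := continuous_snd.tendsto _
  have hQ := G.tendsto_Q hfst
  simp only [imp_forall_iff, eventually_all]
  intro v r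
  have t0 := tendsto_Lm S.d v hsnd 0
  have t1 := tendsto_Lm S.d v hsnd 1
  have t2 := tendsto_Lm S.d v hsnd 2
  have t3 := tendsto_Lm S.d v hsnd 3
  by_cases hv : IsMx S.p c₀ v
  swap
  · filter_upwards [usc_pp S.p S.d hQ hsnd] with z hz _ hm
    exact absurd (hz _ hm) hv
  by_cases h3 : Lm S.d v c₀ 3 = 0
  swap
  · have t : Tendsto (fun z : ℝ × E4 => Tm z.1 (Lm S.d v z.2) ⬝ᵥ G.e r) (𝓝 (0, c₀))
        (𝓝 (Lm S.d v c₀ 3 * G.e r 3)) := by
      simp only [Tm_dot]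
      simpa using ((((hfst.pow 5).mul t0).mul_const (G.e r 0)).add
        ((hfst.mul t1).mul_const (G.e r 1))).add
        (((hfst.pow 3).mul t2).mul_const (G.e r 2)) |>.add (t3.mul_const (G.e r 3))
    filter_upwards [t.eventually_ne (mul_ne_zero h3 (G.e3 r))] with z hz _ _ hm
    exact absurd hm hz
  have h0 := S.pos v c₀ hv h3 hc₀
  have E0 := t0.eventually_const_lt h0
  -- basic facts available near any such limit
  obtain ⟨Φ₀, hΦ₀, hM₀⟩ := S.cover hv h3 hc₀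
  have hcomp₀ : Compat S.p S.d Φ₀ := by
    rcases hΦ₀ with h | h
    · rcases Finset.mem_union.1 h with h | h
      · exact (S.cF _ h).1
      · exact (S.cT _ h).1
    · exact h.1
  have EL : ∀ᶠ z : ℝ × E4 in 𝓝 (0, c₀), 0 < z.1 → IsMx (ip S G z.1) z.2 (v, r) →
      ∀ u s, IsMx (ip S G z.1) z.2 (u, s) →
        IsMx S.p c₀ u ∧ IsMx G.q (Tm z.1 (Lm S.d v z.2)) s := by
    filter_upwards [loc_eventually hcomp₀ hQ hsnd hM₀] with z hz hpos hm u s hu
    exact ⟨(hz v r hm u s hu).1, (G.isMx_Q hpos _ _).1 (hz v r hm u s hu).2⟩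
  have hX : ∀ z : ℝ × E4, 0 < z.1 → 0 < Lm S.d v z.2 0 → IsMx G.q (Tm z.1 (Lm S.d v z.2)) r →
      Tm z.1 (Lm S.d v z.2) ⬝ᵥ G.e r = 0 → 0 < Lm S.d v z.2 1 := by
    intro z hpos k0 hm he
    have := G.xpos r _ hm he (by simp only [Tm_apply, cons_val_zero]; positivity)
    simp only [Tm_apply, cons_val_one, cons_val_zero] at this
    exact (mul_pos_iff_of_pos_left hpos).1 this
  have hcross : ∀ z : ℝ × E4, 0 < z.1 → Tm z.1 (Lm S.d v z.2) ⬝ᵥ G.e r = 0 →
      G.K * (z.1 ^ 4 * |Lm S.d v z.2 0| + z.1 ^ 2 * |Lm S.d v z.2 2|) < Lm S.d v z.2 1 →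
      ∀ s, IsMx G.q (Tm z.1 (Lm S.d v z.2)) s → s = r := by
    intro z hpos he hlt s hs
    refine (G.cross r _ he ?_ s).1 hs
    simp only [Tm_apply, cons_val_zero, cons_val_one, cons_val, abs_mul, abs_pow,
      abs_of_pos hpos]
    have := mul_lt_mul_of_pos_left hlt hpos
    linarith
  rcases lt_trichotomy (Lm S.d v c₀ 1) 0 with h1 | h1 | h1
  · filter_upwards [E0, EL, t1.eventually_lt_const h1] with z k0 kL k1 hpos hm he
    exact absurd (hX z hpos k0 (kL hpos hm v r hm).2 he) (not_lt.2 k1.le)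
  · have hyneg : Lm S.d v c₀ 2 < 0 → ∀ᶠ z : ℝ × E4 in 𝓝 (0, c₀), 0 < z.1 →
        IsMx (ip S G z.1) z.2 (v, r) → Tm z.1 (Lm S.d v z.2) ⬝ᵥ G.e r = 0 →
        ∀ u s, IsMx (ip S G z.1) z.2 (u, s) → (u = v ∨ u = S.O v) ∧ (s = r ∨ s = G.lo r) := by
      intro h2
      have t : Tendsto (fun z : ℝ × E4 => -(G.K * (z.1 ^ 2 * Lm S.d v z.2 0))) (𝓝 (0, c₀))
          (𝓝 0) := by
        simpa using (((hfst.pow 2).mul t0).const_mul G.K).neg
      filter_upwards [E0, EL, t2.eventually_lt t h2] with z k0 kL k2 hpos hm he u s hu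
      refine ⟨S.mneg v c₀ hv h3 h1 h2 u (kL hpos hm u s hu).1, ?_⟩
      refine G.yneg r _ (kL hpos hm v r hm).2 he
        (by simp only [Tm_apply, cons_val_zero]; positivity) ?_ s (kL hpos hm u s hu).2
      simp only [Tm_apply, cons_val_zero, cons_val]
      have := mul_lt_mul_of_pos_left k2 (pow_pos hpos 3)
      linarith
    have hTT : ∀ z : ℝ × E4, (∀ u s, IsMx (ip S G z.1) z.2 (u, s) →
        (u = v ∨ u = S.O v) ∧ (s = r ∨ s = G.lo r)) →
        ∃ Φ, Φ ∈ iTT S G ∧ ∀ w, IsMx (ip S G z.1) z.2 w → w ∈ Φ := by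
      intro z hz
      refine ⟨_, mem_iTT S G v r, ?_⟩
      rintro ⟨u, s⟩ hu
      simpa using hz u s hu
    have hmem : ∀ z : ℝ × E4, 0 < z.1 → 0 < Lm S.d v z.2 0 → IsMx (ip S G z.1) z.2 (v, r) →
        Tm z.1 (Lm S.d v z.2) ⬝ᵥ G.e r = 0 →
        (∀ u s, IsMx (ip S G z.1) z.2 (u, s) →
          IsMx S.p c₀ u ∧ IsMx G.q (Tm z.1 (Lm S.d v z.2)) s) → (∀ w, IsMx S.p c₀ w → w = v) →
        ∃ Φ, (Φ ∈ iFF S G ∨ Thin (ip S G z.1) (idd S G μ z.1) Φ) ∧
          ∀ w, IsMx (ip S G z.1) z.2 w → w ∈ Φ := by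
      intro z hpos k0 hm he kL hone
      obtain ⟨F, hF, hF'⟩ := G.mem r _ (kL v r hm).2 he
        (by simp only [Tm_apply, cons_val_zero]; positivity)
      refine ⟨_, Or.inl (mem_iFF2 S G hF v), ?_⟩
      rintro ⟨u, s⟩ hu
      exact Finset.mem_product.2
        ⟨Finset.mem_singleton.2 (hone u (kL u s hu).1), hF' s (kL u s hu).2⟩
    have ta := t2.add (t0.const_mul μ)
    have tb := t2.add (t0.const_mul (2 * μ))
    have hμ0 : 0 < μ * Lm S.d v c₀ 0 := mul_pos hμ h0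
    by_cases ha : 0 < Lm S.d v c₀ 2 + μ * Lm S.d v c₀ 0
    · -- the new cut is positive
      have key : ∀ᶠ z : ℝ × E4 in 𝓝 (0, c₀), 0 < z.1 → IsMx (ip S G z.1) z.2 (v, r) →
          Tm z.1 (Lm S.d v z.2) ⬝ᵥ G.e r = 0 →
          ∃ Φ, (Φ ∈ iFF S G ∨ Thin (ip S G z.1) (idd S G μ z.1) Φ) ∧
            ∀ w, IsMx (ip S G z.1) z.2 w → w ∈ Φ := by
        by_cases h2 : 0 < Lm S.d v c₀ 2
        · have t : Tendsto (fun z : ℝ × E4 => G.K * (z.1 ^ 2 * Lm S.d v z.2 0)) (𝓝 (0, c₀))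
              (𝓝 0) := by
            simpa using ((hfst.pow 2).mul t0).const_mul G.K
          filter_upwards [E0, EL, t.eventually_lt t2 h2] with z k0 kL k2 hpos hm he
          refine ⟨_, Or.inl (mem_iFF3 S G v r), ?_⟩
          rintro ⟨u, s⟩ hu
          have a1 := S.mpos v c₀ hv h3 h1 h2 u (kL hpos hm u s hu).1
          have a2 := G.ypos r _ (kL hpos hm v r hm).2 he
            (by simp only [Tm_apply, cons_val_zero]; positivity) (by
              simp only [Tm_apply, cons_val_zero, cons_val]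
              have := mul_lt_mul_of_pos_left k2 (pow_pos hpos 3)
              linarith) s (kL hpos hm u s hu).2
          simpa using ⟨a1, a2⟩
        · have hone := hμ' v c₀ h3 h1 h0 (by rw [abs_le]; constructor <;> linarith)
          filter_upwards [E0, EL] with z k0 kL hpos hm he
          exact hmem z hpos k0 hm he (kL hpos hm) hone
      filter_upwards [E0, EL, key, ta.eventually_const_lt ha] with z k0 kL kk ka hpos hm he
      have kx := hX z hpos k0 (kL hpos hm v r hm).2 he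
      have kp := mul_pos hpos ka
      exact ⟨k0, fun _ => kk hpos hm he, fun h => absurd h (by linarith),
        fun h => absurd h (by linarith), fun h => absurd h (by linarith)⟩
    have h2 : Lm S.d v c₀ 2 < 0 := by linarith
    have EN := hyneg h2
    by_cases hb : 0 < Lm S.d v c₀ 2 + 2 * μ * Lm S.d v c₀ 0
    · have hone := hμ' v c₀ h3 h1 h0 (by rw [abs_le]; constructor <;> linarith)
      filter_upwards [E0, EL, EN, tb.eventually_const_lt hb] with z k0 kL kN kb hpos hm he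
      refine ⟨k0, fun _ => hmem z hpos k0 hm he (kL hpos hm) hone,
        fun _ => hTT z (kN hpos hm he), fun _ _ => ?_, fun _ h => absurd h (by linarith)⟩
      rintro ⟨u, s⟩ hu
      have a1 := hone u (kL hpos hm u s hu).1
      have a2 := (kN hpos hm he u s hu).2
      simpa [a1] using a2
    · have hc : Lm S.d v c₀ 2 + μ * Lm S.d v c₀ 0 < 0 := by linarith
      have t : Tendsto (fun z : ℝ × E4 =>
          G.K * (z.1 ^ 3 * |Lm S.d v z.2 0| + z.1 * |Lm S.d v z.2 2|)) (𝓝 (0, c₀)) (𝓝 0) := by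
        simpa using (((hfst.pow 3).mul t0.abs).add (hfst.mul t2.abs)).const_mul G.K
      have EC : ∀ᶠ z : ℝ × E4 in 𝓝 (0, c₀), 0 < z.1 → IsMx (ip S G z.1) z.2 (v, r) →
          Tm z.1 (Lm S.d v z.2) ⬝ᵥ G.e r = 0 →
          0 ≤ Lm S.d v z.2 1 + z.1 * (Lm S.d v z.2 2 + μ * Lm S.d v z.2 0) →
          ∀ u s, IsMx (ip S G z.1) z.2 (u, s) → s = r := by
        filter_upwards [EL, t.eventually_lt ta.neg (by linarith)] with z kL kt hpos hm he hge
          u s hu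
        refine hcross z hpos he ?_ s (kL hpos hm u s hu).2
        have := mul_lt_mul_of_pos_left kt hpos
        linarith
      have ET := thin_eventually S G μ hfst (S.thin_pair (S.cO v)) (by simp) r
      have EB : ∀ᶠ z : ℝ × E4 in 𝓝 (0, c₀), 0 < Lm S.d v z.2 2 + 2 * μ * Lm S.d v z.2 0 →
          ∀ w, IsMx S.p c₀ w → w = v := by
        rcases (not_lt.1 hb).eq_or_lt with hb' | hb'
        · exact Eventually.of_forall fun _ _ =>
            hμ' v c₀ h3 h1 h0 (by rw [abs_le]; constructor <;> linarith)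
        · filter_upwards [tb.eventually_lt_const hb'] with z hz h
          exact absurd h (by linarith)
      filter_upwards [E0, EL, EN, EC, ET, EB] with z k0 kL kN kC kT kB hpos hm he
      refine ⟨k0, fun h => ⟨_, Or.inr (kT hpos), ?_⟩, fun _ => hTT z (kN hpos hm he),
        fun h h' => ?_, fun h _ => ?_⟩
      · rintro ⟨u, s⟩ hu
        have a1 := (kN hpos hm he u s hu).1
        have a2 := kC hpos hm he h.le u s hu
        rw [Finset.mem_product]
        simpa using ⟨a1, a2⟩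
      · rintro ⟨u, s⟩ hu
        have a1 := kB h' u (kL hpos hm u s hu).1
        have a2 := kC hpos hm he h.ge u s hu
        simp [a1, a2]
      · rintro ⟨u, s⟩ hu
        have a1 := (kN hpos hm he u s hu).1
        have a2 := kC hpos hm he h.ge u s hu
        simpa [a2] using a1
  · obtain ⟨Φ, hΦ, hM⟩ := S.xpos v c₀ hv h3 h1
    have t : Tendsto (fun z : ℝ × E4 =>
        G.K * (z.1 ^ 4 * |Lm S.d v z.2 0| + z.1 ^ 2 * |Lm S.d v z.2 2|)) (𝓝 (0, c₀)) (𝓝 0) := by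
      simpa using (((hfst.pow 4).mul t0.abs).add ((hfst.pow 2).mul t2.abs)).const_mul G.K
    have t' : Tendsto (fun z : ℝ × E4 =>
        Lm S.d v z.2 1 + z.1 * (Lm S.d v z.2 2 + μ * Lm S.d v z.2 0)) (𝓝 (0, c₀))
        (𝓝 (Lm S.d v c₀ 1)) := by
      simpa using t1.add (hfst.mul (t2.add (t0.const_mul μ)))
    have ET : ∀ᶠ z : ℝ × E4 in 𝓝 (0, c₀), 0 < z.1 → (Φ ×ˢ ({r} : Finset R) ∈ iFF S G ∨
        Thin (ip S G z.1) (idd S G μ z.1) (Φ ×ˢ ({r} : Finset R))) := by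
      rcases hΦ with h | h
      · exact Eventually.of_forall fun _ _ => Or.inl (mem_iFF1 S G h r)
      · filter_upwards [thin_eventually S G μ hfst h ⟨v, hM v hv⟩ r] with z hz hpos
        exact Or.inr (hz hpos)
    filter_upwards [E0, EL, t.eventually_lt t1 h1, t'.eventually_const_lt h1, ET]
      with z k0 kL kt kt' kT hpos hm he
    refine ⟨k0, fun _ => ⟨_, kT hpos, ?_⟩, fun h => absurd h (by linarith),
        fun h => absurd h (by linarith), fun h => absurd h (by linarith)⟩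
    rintro ⟨u, s⟩ hu
    have a1 := hM u (kL hpos hm u s hu).1
    have a2 := hcross z hpos he kt s (kL hpos hm u s hu).2
    rw [Finset.mem_product]
    simpa using ⟨a1, a2⟩

end Pool.Agent.Fat
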