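import Pool.Agent.Lib.MP_bbcf47_co.Insert2

/-! The insertion theorem. -/

namespace Pool.Agent.Fat

open Matrix Filter Topology

theorem pair_prod_single {α β : Type*} [DecidableEq α] [DecidableEq β] (v w : α) (r : β) :
    ({v, w} : Finset α) ×ˢ ({r} : Finset β) = {(v, r), (w, r)} := by
  ext ⟨a, b⟩
  simp only [Finset.mem_product, Finset.mem_insert, Finset.mem_singleton, Prod.mk.injEq]
  tauto

theorem single_prod_pair {α β : Type*} [DecidableEq α] [DecidableEq β] (v : α) (r s : β) :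
    ({v} : Finset α) ×ˢ ({r, s} : Finset β) = {(v, r), (v, s)} := by
  ext ⟨a, b⟩
  simp only [Finset.mem_product, Finset.mem_insert, Finset.mem_singleton, Prod.mk.injEq]
  tauto

theorem tendsto_vec {X : Type*} {l : Filter X} {f0 f1 f2 f3 : X → ℝ} {a0 a1 a2 a3 : ℝ}
    (h0 : Tendsto f0 l (𝓝 a0)) (h1 : Tendsto f1 l (𝓝 a1)) (h2 : Tendsto f2 l (𝓝 a2))
    (h3 : Tendsto f3 l (𝓝 a3)) :
    Tendsto (fun x => (![f0 x, f1 x, f2 x, f3 x] : E4)) l (𝓝 ![a0, a1, a2, a3]) := by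
  refine tendsto_pi_nhds.2 fun k => ?_
  fin_cases k
  · simpa using h0
  · simpa using h1
  · simpa using h2
  · simpa using h3

variable {V R : Type} [DecidableEq V] [DecidableEq R] [Fintype V] [Fintype R]
  [Nonempty V] [Nonempty R] (S : State V) (G : Gadget R)

omit [Fintype R] [Nonempty R] in
theorem cross_Tm {ε : ℝ} (hε : 0 < ε) {a : E4} {r : R} (he : Tm ε a ⬝ᵥ G.e r = 0)
    (hlt : G.K * (ε ^ 4 * |a 0| + ε ^ 2 * |a 2|) < a 1) (s : R) :
    IsMx (G.Q ε) a s ↔ s = r := by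
  rw [G.isMx_Q hε]
  refine G.cross r _ he ?_ s
  simp only [Tm_apply, cons_val_zero, cons_val_one, cons_val, abs_mul, abs_pow, abs_of_pos hε]
  have := mul_lt_mul_of_pos_left hlt hε
  linarith

theorem insert_base {μ : ℝ} (hμ : 0 < μ)
    (hμ' : ∀ v c, Lm S.d v c 3 = 0 → Lm S.d v c 1 = 0 →
      0 < Lm S.d v c 0 → |Lm S.d v c 2| ≤ 2 * μ * Lm S.d v c 0 → ∀ w, IsMx S.p c w → w = v)
    (v : V) (r : R) :
    ∀ᶠ ε in 𝓝[>] (0 : ℝ), ∀ c, Lm (idd S G μ ε) (v, r) c = ![1, 0, 0, 0] →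
      ∀ w, IsMx (ip S G ε) c w ↔ w = (v, r) := by
  have hc : Tendsto (fun ε : ℝ => (S.chart v).symm ![1, ε * μ, -(2 * μ),
      -(ε ^ 5 * G.e r 0 + ε * (ε * μ) * G.e r 1 - ε ^ 3 * (2 * μ) * G.e r 2) / G.e r 3])
      (𝓝[>] 0) (𝓝 ((S.chart v).symm ![1, 0, -(2 * μ), 0])) := by
    refine ((S.continuous_chart_symm v).tendsto _).comp (tendsto_vec tendsto_const_nhds ?_
      tendsto_const_nhds ?_)
    · simpa using tendsto_id_pos.mul_const μ
    · have : Continuous fun ε : ℝ =>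
          -(ε ^ 5 * G.e r 0 + ε * (ε * μ) * G.e r 1 - ε ^ 3 * (2 * μ) * G.e r 2) / G.e r 3 := by
        fun_prop
      simpa using (this.tendsto 0).mono_left nhdsWithin_le_nhds
  have hone := hμ' v ((S.chart v).symm ![1, 0, -(2 * μ), 0]) (by simp [S.Lm_chart_symm])
    (by simp [S.Lm_chart_symm]) (by simp [S.Lm_chart_symm])
    (by simp [S.Lm_chart_symm, abs_of_pos hμ])
  have t : Tendsto (fun ε : ℝ => G.K * (ε ^ 3 + ε * (2 * μ))) (𝓝[>] 0) (𝓝 0) := by
    simpa using ((tendsto_id_pos.pow 3).add (tendsto_id_pos.mul_const (2 * μ))).const_mul G.K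
  filter_upwards [vertex_cert (d := S.d) (G.tendsto_Q tendsto_id_pos) hc hone,
    t.eventually_lt_const hμ, self_mem_nhdsWithin] with ε h1 h2 hε c hcL
  have hε : 0 < ε := hε
  have k0 := congrFun hcL 0
  have k1 := congrFun hcL 1
  have k2 := congrFun hcL 2
  have k3 := congrFun hcL 3
  rw [Lm_idd0] at k0
  rw [Lm_idd1] at k1
  rw [Lm_idd2] at k2
  rw [Lm_idd3] at k3
  simp only [cons_val_zero, cons_val_one, cons_val] at k0 k1 k2 k3
  have l2 : Lm S.d v c 2 = -(2 * μ) := by rw [k0] at k2; linarith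
  have l1 : Lm S.d v c 1 = ε * μ := by rw [k0, l2] at k1; linarith
  have e : c = (S.chart v).symm ![1, ε * μ, -(2 * μ),
      -(ε ^ 5 * G.e r 0 + ε * (ε * μ) * G.e r 1 - ε ^ 3 * (2 * μ) * G.e r 2) / G.e r 3] := by
    rw [← S.chart_symm_Lm v c]
    congr 1
    ext i
    fin_cases i
    · simpa using k0
    · simpa using l1
    · simpa using l2
    · rw [Tm_dot, k0, l1, l2] at k3
      have := G.e3 r
      simp only [Fin.reduceFinMk, cons_val]
      field_simp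
      linarith
  rintro ⟨u, s⟩
  rw [← e] at h1
  rw [ip, h1, cross_Tm G hε k3, Prod.mk.injEq]
  rw [k0, l1, l2, abs_one, abs_neg, abs_of_pos (by linarith)]
  have := mul_lt_mul_of_pos_left h2 hε
  linarith

theorem insert_edge1 (μ : ℝ) {x : V × V} (hx : x ∈ S.EE) (r : R) :
    ∀ᶠ ε in 𝓝[>] (0 : ℝ), ∃ c n,
      (∀ w, IsMx (ip S G ε) c w ↔ w = (x.1, r) ∨ w = (x.2, r)) ∧
      Lm (idd S G μ ε) (x.1, r) c 3 = 0 ∧ 0 < Lm (idd S G μ ε) (x.1, r) c 1 ∧
      n ⬝ᵥ ip S G ε (x.1, r) = n ⬝ᵥ ip S G ε (x.2, r) ∧ Lm (idd S G μ ε) (x.1, r) n 3 = 1 := by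
  obtain ⟨-, hcomp, c, n, hc, h3, h1, hn, hn3⟩ := S.edge x hx
  have tT : ∀ a : E4, Tendsto (fun ε : ℝ => Tm ε a ⬝ᵥ G.e r) (𝓝[>] 0) (𝓝 (a 3 * G.e r 3)) := by
    intro a
    simp only [Tm_dot]
    have : Continuous fun ε : ℝ => ε ^ 5 * a 0 * G.e r 0 + ε * a 1 * G.e r 1 +
        ε ^ 3 * a 2 * G.e r 2 + a 3 * G.e r 3 := by fun_prop
    simpa using (this.tendsto 0).mono_left nhdsWithin_le_nhds
  have t1 := tT (Lm S.d x.1 c)
  have t2 := tT (Lm S.d x.1 n)
  rw [h3, zero_mul] at t1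
  rw [hn3, one_mul] at t2
  have hτ : Tendsto (fun ε : ℝ => -(Tm ε (Lm S.d x.1 c) ⬝ᵥ G.e r) /
      (Tm ε (Lm S.d x.1 n) ⬝ᵥ G.e r)) (𝓝[>] 0) (𝓝 0) := by
    have := t1.neg.div t2 (G.e3 r)
    simp only [neg_zero, zero_div] at this
    exact this
  set τ : ℝ → ℝ := fun ε => -(Tm ε (Lm S.d x.1 c) ⬝ᵥ G.e r) /
      (Tm ε (Lm S.d x.1 n) ⬝ᵥ G.e r) with hτd
  have ht : Tendsto (fun ε => c + τ ε • n) (𝓝[>] 0) (𝓝 c) := by
    have := (hτ.smul_const n).const_add c
    simpa using this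
  have u0 := tendsto_Lm S.d x.1 ht 0
  have u1 := tendsto_Lm S.d x.1 ht 1
  have u2 := tendsto_Lm S.d x.1 ht 2
  have t : Tendsto (fun ε : ℝ => G.K * (ε ^ 4 * |Lm S.d x.1 (c + τ ε • n) 0| +
      ε ^ 2 * |Lm S.d x.1 (c + τ ε • n) 2|)) (𝓝[>] 0) (𝓝 0) := by
    have := (((tendsto_id_pos.pow 4).mul u0.abs).add
      ((tendsto_id_pos.pow 2).mul u2.abs)).const_mul G.K
    simp only [ne_eq, OfNat.ofNat_ne_zero, not_false_eq_true, zero_pow, zero_mul, add_zero,
      mul_zero] at this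
    exact this
  have t' : Tendsto (fun ε : ℝ => Lm S.d x.1 (c + τ ε • n) 1 + ε * (Lm S.d x.1 (c + τ ε • n) 2 +
      μ * Lm S.d x.1 (c + τ ε • n) 0)) (𝓝[>] 0) (𝓝 (Lm S.d x.1 c 1)) := by
    have := u1.add (tendsto_id_pos.mul (u2.add (u0.const_mul μ)))
    simp only [zero_mul, add_zero] at this
    exact this
  filter_upwards [edge_cert hcomp (G.tendsto_Q tendsto_id_pos) hc hn hτ,
    t2.eventually_ne (G.e3 r), t.eventually_lt u1 h1, t'.eventually_const_lt h1,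
    self_mem_nhdsWithin] with ε k1 k2 k3 k4 hε
  have hε : 0 < ε := hε
  have he : Tm ε (Lm S.d x.1 (c + τ ε • n)) ⬝ᵥ G.e r = 0 := by
    rw [map_add, map_smul, map_add, map_smul, add_dotProduct, smul_dotProduct, smul_eq_mul, hτd]
    field_simp
    ring
  refine ⟨c + τ ε • n, (Tm ε (Lm S.d x.1 n) ⬝ᵥ G.e r)⁻¹ • n, ?_, ?_, ?_, ?_, ?_⟩
  · rintro ⟨u, s⟩
    rw [ip, k1, cross_Tm G hε he k3]
    simp only [Prod.mk.injEq]
    tauto
  · rw [Lm_idd3, he]
  · rw [Lm_idd1]; exact k4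
  · obtain ⟨K, -, hK⟩ := hcomp
    have hA : n ∈ Ann S.p {x.1, x.2} := mem_Ann_pair.2 hn
    rw [smul_dotProduct, smul_dotProduct, ip, dot_pp, dot_pp, hn,
      hK.Lm_eq (maxOn_of_mem_Ann hA (v := x.1) (by simp)) (maxOn_of_mem_Ann hA (v := x.2) (by simp))]
  · rw [Lm_idd3, map_smul, map_smul, smul_dotProduct, smul_eq_mul, inv_mul_cancel₀ k2]

theorem insert_edge2 {μ : ℝ} (hμ : 0 < μ) {x : R × R} (hx : x ∈ G.EE) (v : V) :
    ∀ᶠ ε in 𝓝[>] (0 : ℝ), ∃ c n,
      (∀ w, IsMx (ip S G ε) c w ↔ w = (v, x.1) ∨ w = (v, x.2)) ∧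
      Lm (idd S G μ ε) (v, x.1) c 3 = 0 ∧ 0 < Lm (idd S G μ ε) (v, x.1) c 1 ∧
      n ⬝ᵥ ip S G ε (v, x.1) = n ⬝ᵥ ip S G ε (v, x.2) ∧ Lm (idd S G μ ε) (v, x.1) n 3 = 1 := by
  obtain ⟨-, -, c, n, hc, h3, h0, hn, hn3⟩ := G.edge x hx
  have hT : ∀ (ε : ℝ) (a : E4), Tm ε ![a 0, ε ^ 4 * a 1, ε ^ 2 * a 2, ε ^ 5 * a 3] = ε ^ 5 • a := by
    intro ε a
    ext i
    fin_cases i <;> simp [Tm_apply] <;> ring
  have ht : Tendsto (fun ε : ℝ => (S.chart v).symm ![c 0, ε ^ 4 * c 1, ε ^ 2 * c 2, ε ^ 5 * c 3])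
      (𝓝[>] 0) (𝓝 ((S.chart v).symm ![c 0, 0, 0, 0])) := by
    refine ((S.continuous_chart_symm v).tendsto _).comp (tendsto_vec tendsto_const_nhds ?_ ?_ ?_)
    · simpa using (tendsto_id_pos.pow 4).mul_const (c 1)
    · simpa using (tendsto_id_pos.pow 2).mul_const (c 2)
    · simpa using (tendsto_id_pos.pow 5).mul_const (c 3)
  have hone : ∀ w, IsMx S.p ((S.chart v).symm ![c 0, 0, 0, 0]) w → w = v := by
    intro w hw
    have e : (![c 0, 0, 0, 0] : E4) = c 0 • ![1, 0, 0, 0] := by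
      ext i; fin_cases i <;> simp
    rw [e, map_smul, isMx_smul h0] at hw
    exact (S.base v _ (S.Lm_chart_symm v _) w).1 hw
  have t : Tendsto (fun ε : ℝ => ε ^ 3 * c 1 + (ε ^ 2 * c 2 + μ * c 0)) (𝓝[>] 0)
      (𝓝 (μ * c 0)) := by
    simpa using ((tendsto_id_pos.pow 3).mul_const (c 1)).add
      (((tendsto_id_pos.pow 2).mul_const (c 2)).add_const (μ * c 0))
  filter_upwards [vertex_cert (d := S.d) (G.tendsto_Q tendsto_id_pos) ht hone,
    t.eventually_const_lt (mul_pos hμ h0), self_mem_nhdsWithin] with ε k1 k2 hε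
  have hε : 0 < ε := hε
  have hε5 : 0 < ε ^ 5 := by positivity
  refine ⟨(S.chart v).symm ![c 0, ε ^ 4 * c 1, ε ^ 2 * c 2, ε ^ 5 * c 3],
    (ε ^ 5)⁻¹ • (S.chart v).symm ![n 0, ε ^ 4 * n 1, ε ^ 2 * n 2, ε ^ 5 * n 3], ?_, ?_, ?_, ?_, ?_⟩
  · rintro ⟨u, s⟩
    rw [ip, k1, S.Lm_chart_symm, G.isMx_Q hε, hT, isMx_smul hε5, hc]
    simp only [Prod.mk.injEq]
    tauto
  · rw [Lm_idd3, S.Lm_chart_symm, hT, smul_dotProduct, h3, smul_zero]
  · rw [Lm_idd1, S.Lm_chart_symm]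
    simp only [cons_val_zero, cons_val_one, cons_val]
    have := mul_pos hε k2
    linarith
  · rw [smul_dotProduct, smul_dotProduct, ip, dot_pp, dot_pp, S.Lm_chart_symm, G.dot_Q, G.dot_Q,
      hT, smul_dotProduct, smul_dotProduct, hn]
  · rw [Lm_idd3, map_smul, S.Lm_chart_symm, map_smul, hT, smul_dotProduct, smul_dotProduct, hn3]
    simp [hε5.ne']

/-- New counted edges. -/
def iEE : Finset ((V × R) × (V × R)) :=
  ((S.EE ×ˢ (Finset.univ : Finset R)).image fun x => ((x.1.1, x.2), (x.1.2, x.2))) ∪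
  (((Finset.univ : Finset V) ×ˢ G.EE).image fun x => ((x.1, x.2.1), (x.1, x.2.2)))

omit [Nonempty V] [Nonempty R] in
theorem card_iEE : (iEE S G).card = S.EE.card * Fintype.card R + Fintype.card V * G.EE.card := by
  rw [iEE, Finset.card_union_of_disjoint, Finset.card_image_of_injective,
    Finset.card_image_of_injective, Finset.card_product, Finset.card_product, Finset.card_univ,
    Finset.card_univ]
  · rintro ⟨a, b, c⟩ ⟨a', b', c'⟩ h
    simp only [Prod.mk.injEq] at h ⊢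
    tauto
  · rintro ⟨⟨a, b⟩, c⟩ ⟨⟨a', b'⟩, c'⟩ h
    simp only [Prod.mk.injEq] at h ⊢
    tauto
  · rw [Finset.disjoint_left]
    intro y h1 h2
    obtain ⟨⟨x, r⟩, hx, rfl⟩ := Finset.mem_image.1 h1
    obtain ⟨⟨v, z⟩, -, h⟩ := Finset.mem_image.1 h2
    simp only [Prod.mk.injEq] at h
    exact (S.edge x (Finset.mem_product.1 hx).1).1 (h.1.1.symm.trans h.2.1)

omit [Nonempty V] [Nonempty R] in
theorem card_iFF : 4 * (iFF S G).card ≤ 4 * (S.FF.card * Fintype.card R +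
    Fintype.card V * G.FF.card) + Fintype.card V * Fintype.card R := by
  have h1 := Finset.card_image_le (s := S.FF ×ˢ (Finset.univ : Finset R))
    (f := fun x => x.1 ×ˢ ({x.2} : Finset R))
  have h2 := Finset.card_image_le (s := (Finset.univ : Finset V) ×ˢ G.FF)
    (f := fun x => ({x.1} : Finset V) ×ˢ x.2)
  have h3 := Finset.mul_card_image_le_card (f := fun x : V × R =>
    ({x.1, S.A x.1} : Finset V) ×ˢ ({x.2, G.up x.2} : Finset R)) Finset.univ 4 (by
      intro T hT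
      obtain ⟨⟨v, r⟩, -, rfl⟩ := Finset.mem_image.1 hT
      have hc : (({v, S.A v} : Finset V) ×ˢ ({r, G.up r} : Finset R)).card = 4 := by
        rw [Finset.card_product, Finset.card_pair (S.A_ne v).symm,
          Finset.card_pair (G.up_ne r).symm]
      refine hc.ge.trans (Finset.card_le_card ?_)
      rintro ⟨a, b⟩ hab
      simp only [Finset.mem_product, Finset.mem_insert, Finset.mem_singleton] at hab
      refine Finset.mem_filter.2 ⟨Finset.mem_univ _, ?_⟩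
      have e1 : ({a, S.A a} : Finset V) = {v, S.A v} := by
        rcases hab.1 with rfl | rfl
        · rfl
        · rw [S.A_inv, Finset.pair_comm]
      have e2 : ({b, G.up b} : Finset R) = {r, G.up r} := by
        rcases hab.2 with rfl | rfl
        · rfl
        · rw [G.up_inv, Finset.pair_comm]
      simp only [e1, e2])
  rw [Finset.card_product, Finset.card_univ] at h1 h2
  rw [Finset.card_univ, Fintype.card_prod] at h3
  have h4 : (iFF S G).card ≤ _ := (Finset.card_union_le _ _).trans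
    (Nat.add_le_add_right (Finset.card_union_le _ _) _)
  omega

omit [Nonempty V] [Nonempty R] in
theorem card_iTT : (iTT S G).card ≤ Fintype.card V * Fintype.card R :=
  Finset.card_image_le.trans (by simp)

theorem insert_state : ∃ S' : State (V × R),
    S'.EE.card = S.EE.card * Fintype.card R + Fintype.card V * G.EE.card ∧
    4 * S'.FF.card ≤ 4 * (S.FF.card * Fintype.card R + Fintype.card V * G.FF.card) +
      Fintype.card V * Fintype.card R ∧
    S'.TT.card ≤ Fintype.card V * Fintype.card R := by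
  obtain ⟨μ, hμ, hμ'⟩ := exists_mu S
  have E1 := insert_class S G hμ hμ'
  have E2 : ∀ᶠ ε in 𝓝[>] (0 : ℝ), ∀ v r, _ :=
    eventually_all.2 fun v => eventually_all.2 fun r => insert_base S G hμ hμ' v r
  have E3 : ∀ᶠ ε in 𝓝[>] (0 : ℝ), ∀ x ∈ S.EE, ∀ r, _ :=
    (eventually_all_finset _).2 fun x hx => eventually_all.2 fun r => insert_edge1 S G μ hx r
  have E4' : ∀ᶠ ε in 𝓝[>] (0 : ℝ), ∀ x ∈ G.EE, ∀ v, _ :=
    (eventually_all_finset _).2 fun x hx => eventually_all.2 fun v => insert_edge2 S G hμ hx v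
  have E5 : ∀ᶠ ε in 𝓝[>] (0 : ℝ), ∀ x ∈ S.EE, _ :=
    (eventually_all_finset _).2 fun x hx => prod_eventually S G μ tendsto_id_pos (S.edge x hx).2.1
  have E6 : ∀ᶠ ε in 𝓝[>] (0 : ℝ), ∀ Φ ∈ S.FF, _ :=
    (eventually_all_finset _).2 fun Φ h => prod_eventually S G μ tendsto_id_pos (S.cF Φ h).1
  have E7 : ∀ᶠ ε in 𝓝[>] (0 : ℝ), ∀ v, _ :=
    eventually_all.2 fun v => prod_eventually S G μ tendsto_id_pos (S.cA v)
  have E8 : ∀ᶠ ε in 𝓝[>] (0 : ℝ), ∀ v, _ :=
    eventually_all.2 fun v => prod_eventually S G μ tendsto_id_pos (S.cO v)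
  have E9 : ∀ᶠ ε in 𝓝[>] (0 : ℝ), ∀ v, _ :=
    eventually_all.2 fun v => prod_eventually S G μ tendsto_id_pos (compat_single S.p S.d v)
  obtain ⟨ε, h1, h2, h3, h4, h5, h6, h7, h8, h9, hε⟩ :=
    (E1.and (E2.and (E3.and (E4'.and (E5.and (E6.and (E7.and (E8.and
      (E9.and self_mem_nhdsWithin))))))))).exists
  have hε : 0 < ε := hε
  have hne : ∀ {v : V} {r : R} {c : E4} {i : Fin 4}, Lm (idd S G μ ε) (v, r) c i ≠ 0 → c ≠ 0 := by
    intro v r c i h hc
    rw [hc, map_zero] at h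
    exact h rfl
  refine ⟨{
    p := ip S G ε
    d := idd S G μ ε
    FF := iFF S G
    TT := iTT S G
    EE := iEE S G
    A := fun x => (x.1, G.lo x.2)
    O := fun x => (S.O x.1, x.2)
    A_inv := fun x => by simp [G.lo_inv]
    A_ne := fun x h => G.lo_ne x.2 (congrArg Prod.snd h)
    cA := ?_
    cO := ?_
    cF := ?_
    cT := ?_
    inj := ?_
    base := ?_
    pos := ?_
    xpos := ?_
    xneg := ?_
    mpos := ?_
    mneg := ?_
    edge := ?_ }, card_iEE S G, card_iFF S G, card_iTT S G⟩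
  · rintro ⟨v, r⟩
    rw [← single_prod_pair]
    exact (h9 v hε _ (G.cL r)).1
  · rintro ⟨v, r⟩
    rw [← pair_prod_single]
    exact (h8 v hε _ (compat_single _ _ _)).1
  · intro Φ hΦ
    rcases Finset.mem_union.1 hΦ with hΦ | hΦ
    · rcases Finset.mem_union.1 hΦ with hΦ | hΦ
      · obtain ⟨⟨Ψ, r⟩, hx, rfl⟩ := Finset.mem_image.1 hΦ
        have hΨ := (Finset.mem_product.1 hx).1
        obtain ⟨k1, k2⟩ := h6 Ψ hΨ hε {r} (compat_single _ _ _)
        refine ⟨k1, ?_⟩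
        rcases Ψ.eq_empty_or_nonempty with rfl | hn
        · by_contra hlt
          dsimp only at hlt
          have := nonempty_of_finrank_lt (p := ip S G ε)
            (T := (∅ : Finset V) ×ˢ ({r} : Finset R)) (by omega)
          simp at this
        · have a1 := k2 hn
          have a2 := (S.cF Ψ hΨ).2
          have a3 := finrank_Ann_single G.q r
          dsimp only
          omega
      · obtain ⟨⟨v, F⟩, hx, rfl⟩ := Finset.mem_image.1 hΦ
        have hF := (Finset.mem_product.1 hx).2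
        obtain ⟨k1, k2⟩ := h9 v hε F (G.cF F hF).1
        refine ⟨k1, ?_⟩
        have a1 := k2 (by simp)
        have a2 := (G.cF F hF).2
        have a3 := finrank_Ann_single S.p v
        dsimp only
        omega
    · obtain ⟨⟨v, r⟩, -, rfl⟩ := Finset.mem_image.1 hΦ
      obtain ⟨k1, k2⟩ := h7 v hε _ (G.cU r)
      refine ⟨k1, ?_⟩
      have a1 := k2 (by simp)
      have a2 := finrank_Ann_pair S.p v (S.A v)
      have a3 := finrank_Ann_pair G.q r (G.up r)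
      dsimp only
      omega
  · intro Φ hΦ
    obtain ⟨⟨v, r⟩, -, rfl⟩ := Finset.mem_image.1 hΦ
    obtain ⟨k1, k2⟩ := h8 v hε _ (G.cL r)
    refine ⟨k1, ?_⟩
    have a1 := k2 (by simp)
    have a2 := finrank_Ann_pair S.p v (S.O v)
    have a3 := finrank_Ann_pair G.q r (G.lo r)
    dsimp only
    omega
  · rintro ⟨v, r⟩ c hc
    have k0 := congrFun hc 0
    have k1 := congrFun hc 1
    have k2 := congrFun hc 2
    have k3 := congrFun hc 3
    rw [Lm_idd0] at k0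
    rw [Lm_idd1] at k1
    rw [Lm_idd2] at k2
    rw [Lm_idd3, Tm_dot] at k3
    simp only [Pi.zero_apply] at k0 k1 k2 k3
    have l2 : Lm S.d v c 2 = 0 := by rw [k0] at k2; linarith
    have l1 : Lm S.d v c 1 = 0 := by rw [k0, l2] at k1; linarith
    rw [k0, l1, l2] at k3
    have l3 : Lm S.d v c 3 = 0 := by
      have : Lm S.d v c 3 * G.e r 3 = 0 := by linarith
      exact (mul_eq_zero.1 this).resolve_right (G.e3 r)
    refine S.inj v c ?_
    ext i
    fin_cases i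
    · exact k0
    · exact l1
    · exact l2
    · exact l3
  · rintro ⟨v, r⟩
    exact h2 v r
  · rintro ⟨v, r⟩ c hm k3 hc
    rw [Lm_idd3] at k3
    rw [Lm_idd0]
    exact (h1 c hc v r hm k3).1
  · rintro ⟨v, r⟩ c hm k3 k1
    have hc := hne k1.ne'
    rw [Lm_idd3] at k3
    rw [Lm_idd1] at k1
    exact (h1 c hc v r hm k3).2.1 k1
  · rintro ⟨v, r⟩ c hm k3 k1
    have hc := hne k1.ne
    rw [Lm_idd3] at k3
    rw [Lm_idd1] at k1
    obtain ⟨Φ, a1, a2⟩ := (h1 c hc v r hm k3).2.2.1 k1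
    exact ⟨Φ, Or.inl a1, a2⟩
  · rintro ⟨v, r⟩ c hm k3 k1 k2
    have hc := hne k2.ne'
    rw [Lm_idd3] at k3
    rw [Lm_idd1] at k1
    rw [Lm_idd2] at k2
    exact (h1 c hc v r hm k3).2.2.2.1 k1 k2
  · rintro ⟨v, r⟩ c hm k3 k1 k2
    have hc := hne k2.ne
    rw [Lm_idd3] at k3
    rw [Lm_idd1] at k1
    rw [Lm_idd2] at k2
    exact (h1 c hc v r hm k3).2.2.2.2 k1 k2
  · intro y hy
    rcases Finset.mem_union.1 hy with hy | hy
    · obtain ⟨⟨x, r⟩, hx, rfl⟩ := Finset.mem_image.1 hy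
      have hx' := (Finset.mem_product.1 hx).1
      refine ⟨fun h => (S.edge x hx').1 (congrArg Prod.fst h), ?_, h3 x hx' r⟩
      dsimp only
      rw [← pair_prod_single]
      exact (h5 x hx' hε _ (compat_single _ _ _)).1
    · obtain ⟨⟨v, x⟩, hx, rfl⟩ := Finset.mem_image.1 hy
      have hx' := (Finset.mem_product.1 hx).2
      refine ⟨fun h => (G.edge x hx').1 (congrArg Prod.snd h), ?_, h4 x hx' v⟩
      dsimp only
      rw [← single_prod_pair]
      exact (h9 v hε _ (G.edge x hx').2.1).1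

end Pool.Agent.Fat
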