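import Pool.Agent.Lib.MP_bbcf47_co.Insert3

/-! The initial state (a cube) and the iteration of the insertion. -/

namespace Pool.Agent.Fat

open Matrix Filter Topology

theorem two_le_finrank {W : Submodule ℝ E4} {c n : E4} (hc : c ∈ W) (hn : n ∈ W) {i j : Fin 4}
    (h : c i * n j - c j * n i ≠ 0) : 2 ≤ Module.finrank ℝ W := by
  have hc0 : c ≠ 0 := by
    rintro rfl
    simp at h
  have h1 : Module.finrank ℝ (Submodule.span ℝ {c}) = 1 := finrank_span_singleton hc0
  have h2 := finrank_lt_of_not_mem (A := Submodule.span ℝ {c}) (B := W)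
    ((Submodule.span_singleton_le_iff_mem _ _).2 hc) hn (by
      intro hm
      obtain ⟨t, rfl⟩ := Submodule.mem_span_singleton.1 hm
      apply h
      simp only [Pi.smul_apply, smul_eq_mul]
      ring)
  omega

/-- The sign of a Boolean. -/
def sg (b : Bool) : ℝ := if b then 1 else -1

@[simp] theorem sg_true : sg true = 1 := rfl
@[simp] theorem sg_false : sg false = -1 := rfl
theorem sg_not (b : Bool) : sg (!b) = -sg b := by cases b <;> simp
theorem sg_mul_self (b : Bool) : sg b * sg b = 1 := by cases b <;> simp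
theorem sg_ne (b : Bool) : sg b ≠ 0 := by cases b <;> simp

abbrev B3 := Bool × Bool × Bool

/-- The vertices of the cube. -/
def cubeP (v : B3) : E4 := ![sg v.1, sg v.2.1, sg v.2.2, 0]

/-- The fields on the cube. -/
def cubeD : Fin 4 → B3 → E4 :=
  ![cubeP, fun v => ![sg v.1, sg v.2.1, -sg v.2.2, 0], fun v => ![-sg v.1, sg v.2.1, 0, 0],
    fun _ => ![0, 0, 0, 1]]

theorem dot_cubeP (c : E4) (v : B3) :
    c ⬝ᵥ cubeP v = c 0 * sg v.1 + c 1 * sg v.2.1 + c 2 * sg v.2.2 := by
  simp [cubeP, dotProduct, Fin.sum_univ_four]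

theorem Lm_cube0 (c : E4) (v : B3) :
    Lm cubeD v c 0 = c 0 * sg v.1 + c 1 * sg v.2.1 + c 2 * sg v.2.2 := dot_cubeP c v

theorem Lm_cube1 (c : E4) (v : B3) :
    Lm cubeD v c 1 = c 0 * sg v.1 + c 1 * sg v.2.1 - c 2 * sg v.2.2 := by
  simp [Lm_apply, cubeD, dotProduct, Fin.sum_univ_four]; ring

theorem Lm_cube2 (c : E4) (v : B3) : Lm cubeD v c 2 = c 1 * sg v.2.1 - c 0 * sg v.1 := by
  simp [Lm_apply, cubeD, dotProduct, Fin.sum_univ_four]; ring

theorem Lm_cube3 (c : E4) (v : B3) : Lm cubeD v c 3 = c 3 := by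
  simp [Lm_apply, cubeD, dotProduct, Fin.sum_univ_four]

theorem cube_compat {Φ : Finset B3} (h : ∀ v ∈ Φ, ∀ w ∈ Φ, (w.1, v.2.1, v.2.2) ∈ Φ ∧
    (v.1, w.2.1, v.2.2) ∈ Φ ∧ (v.1, v.2.1, w.2.2) ∈ Φ) : Compat cubeP cubeD Φ := by
  refine ⟨1, zero_le_one, fun c v w hv hw i => ?_⟩
  obtain ⟨h1, h2, h3⟩ := h v hv.1 w hw
  have k1 := hv.2 _ h1
  have k2 := hv.2 _ h2
  have k3 := hv.2 _ h3
  simp only [dot_cubeP] at k1 k2 k3 ⊢
  rw [← Lm_apply, ← Lm_apply, abs_le]
  fin_cases i
  · simp only [Fin.zero_eta, Lm_cube0]; constructor <;> linarith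
  · simp only [Fin.mk_one, Lm_cube1]; constructor <;> linarith
  · simp only [Fin.reduceFinMk, Lm_cube2]; constructor <;> linarith
  · simp only [Fin.reduceFinMk, Lm_cube3]; constructor <;> linarith

theorem cube_isMx {c : E4} {v : B3} (h : IsMx cubeP c v) :
    0 ≤ c 0 * sg v.1 ∧ 0 ≤ c 1 * sg v.2.1 ∧ 0 ≤ c 2 * sg v.2.2 := by
  have k1 := h (!v.1, v.2.1, v.2.2)
  have k2 := h (v.1, !v.2.1, v.2.2)
  have k3 := h (v.1, v.2.1, !v.2.2)
  simp only [dot_cubeP, sg_not] at k1 k2 k3
  refine ⟨by linarith, by linarith, by linarith⟩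

theorem sg_eq {t : ℝ} {a b : Bool} (ha : 0 < t * sg a) (hb : 0 ≤ t * sg b) : b = a := by
  cases a <;> cases b <;> simp at ha hb ⊢ <;> linarith

theorem sg_le {t : ℝ} {a : Bool} (ha : 0 ≤ t * sg a) (b : Bool) : t * sg b ≤ t * sg a := by
  cases a <;> cases b <;> simp at ha ⊢ <;> linarith

/-- The initial state. -/
noncomputable def cubeState : State B3 where
  p := cubeP
  d := cubeD
  FF := (Finset.univ.image fun a : Bool => Finset.univ.filter fun v : B3 => v.1 = a) ∪
    (Finset.univ.image fun a : Bool => Finset.univ.filter fun v : B3 => v.2.1 = a)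
  TT := Finset.univ.image fun a : Bool => Finset.univ.filter fun v : B3 => v.2.2 = a
  EE := ∅
  A := fun v => (!v.1, v.2.1, v.2.2)
  O := fun v => (v.1, !v.2.1, v.2.2)
  A_inv := by simp
  A_ne := by decide
  cA := fun v => cube_compat (by revert v; decide)
  cO := fun v => cube_compat (by revert v; decide)
  cF := by
    intro Φ hΦ
    rcases Finset.mem_union.1 hΦ with hΦ | hΦ <;> obtain ⟨a, -, rfl⟩ := Finset.mem_image.1 hΦ
    · refine ⟨cube_compat (by simp), two_le_finrank (c := ![1, 0, 0, 0])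
        (n := ![0, 0, 0, 1]) ?_ ?_ (i := 0) (j := 3) (by simp)⟩
      · intro v hv w hw
        simp only [Finset.mem_filter, Finset.mem_univ, true_and] at hv hw
        rw [dot_cubeP, dot_cubeP]
        simp [hv, hw]
      · intro v hv w hw
        rw [dot_cubeP, dot_cubeP]
        simp
    · refine ⟨cube_compat (by simp), two_le_finrank (c := ![0, 1, 0, 0])
        (n := ![0, 0, 0, 1]) ?_ ?_ (i := 1) (j := 3) (by simp)⟩
      · intro v hv w hw
        simp only [Finset.mem_filter, Finset.mem_univ, true_and] at hv hw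
        rw [dot_cubeP, dot_cubeP]
        simp [hv, hw]
      · intro v hv w hw
        rw [dot_cubeP, dot_cubeP]
        simp
  cT := by
    intro Φ hΦ
    obtain ⟨a, -, rfl⟩ := Finset.mem_image.1 hΦ
    refine ⟨cube_compat (by simp), two_le_finrank (c := ![0, 0, 1, 0])
        (n := ![0, 0, 0, 1]) ?_ ?_ (i := 2) (j := 3) (by simp)⟩
    · intro v hv w hw
      simp only [Finset.mem_filter, Finset.mem_univ, true_and] at hv hw
      rw [dot_cubeP, dot_cubeP]
      simp [hv, hw]
    · intro v hv w hw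
      rw [dot_cubeP, dot_cubeP]
      simp
  inj := by
    intro v c hc
    have k0 := congrFun hc 0
    have k1 := congrFun hc 1
    have k2 := congrFun hc 2
    have k3 := congrFun hc 3
    simp only [Lm_cube0, Lm_cube1, Lm_cube2, Lm_cube3, Pi.zero_apply] at k0 k1 k2 k3
    have a0 : c 0 * sg v.1 = 0 := by linarith
    have a1 : c 1 * sg v.2.1 = 0 := by linarith
    have a2 : c 2 * sg v.2.2 = 0 := by linarith
    ext i
    fin_cases i
    · exact (mul_eq_zero.1 a0).resolve_right (sg_ne _)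
    · exact (mul_eq_zero.1 a1).resolve_right (sg_ne _)
    · exact (mul_eq_zero.1 a2).resolve_right (sg_ne _)
    · exact k3
  base := by
    intro v c hc w
    have k0 := congrFun hc 0
    have k1 := congrFun hc 1
    have k2 := congrFun hc 2
    simp only [Lm_cube0, Lm_cube1, Lm_cube2, cons_val_zero, cons_val_one, cons_val] at k0 k1 k2
    have a0 : 0 < c 0 * sg v.1 := by linarith
    have a1 : 0 < c 1 * sg v.2.1 := by linarith
    have a2 : 0 < c 2 * sg v.2.2 := by linarith
    constructor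
    · intro hw
      obtain ⟨b0, b1, b2⟩ := cube_isMx hw
      exact Prod.ext (sg_eq a0 b0) (Prod.ext (sg_eq a1 b1) (sg_eq a2 b2))
    · rintro rfl u
      simp only [dot_cubeP]
      linarith [sg_le a0.le u.1, sg_le a1.le u.2.1, sg_le a2.le u.2.2]
  pos := by
    intro v c hv h3 hc
    obtain ⟨b0, b1, b2⟩ := cube_isMx hv
    rw [Lm_cube3] at h3
    rw [Lm_cube0]
    by_contra hn
    apply hc
    have a0 : c 0 * sg v.1 = 0 := by linarith
    have a1 : c 1 * sg v.2.1 = 0 := by linarith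
    have a2 : c 2 * sg v.2.2 = 0 := by linarith
    ext i
    fin_cases i
    · exact (mul_eq_zero.1 a0).resolve_right (sg_ne _)
    · exact (mul_eq_zero.1 a1).resolve_right (sg_ne _)
    · exact (mul_eq_zero.1 a2).resolve_right (sg_ne _)
    · exact h3
  xpos := by
    intro v c hv _ h1
    obtain ⟨b0, b1, b2⟩ := cube_isMx hv
    rw [Lm_cube1] at h1
    by_cases a0 : 0 < c 0 * sg v.1
    · refine ⟨_, Or.inl (Finset.mem_union_left _
        (Finset.mem_image.2 ⟨v.1, Finset.mem_univ _, rfl⟩)), fun w hw => ?_⟩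
      simpa using sg_eq a0 (cube_isMx hw).1
    · have a1 : 0 < c 1 * sg v.2.1 := by linarith
      refine ⟨_, Or.inl (Finset.mem_union_right _
        (Finset.mem_image.2 ⟨v.2.1, Finset.mem_univ _, rfl⟩)), fun w hw => ?_⟩
      simpa using sg_eq a1 (cube_isMx hw).2.1
  xneg := by
    intro v c hv _ h1
    obtain ⟨b0, b1, b2⟩ := cube_isMx hv
    rw [Lm_cube1] at h1
    have a2 : 0 < c 2 * sg v.2.2 := by linarith
    refine ⟨_, Or.inl (Finset.mem_image.2 ⟨v.2.2, Finset.mem_univ _, rfl⟩), fun w hw => ?_⟩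
    simpa using sg_eq a2 (cube_isMx hw).2.2
  mpos := by
    intro v c hv _ h1 h2 w hw
    obtain ⟨b0, b1, b2⟩ := cube_isMx hv
    rw [Lm_cube1] at h1
    rw [Lm_cube2] at h2
    have e1 := sg_eq (t := c 1) (a := v.2.1) (by linarith) (cube_isMx hw).2.1
    have e2 := sg_eq (t := c 2) (a := v.2.2) (by linarith) (cube_isMx hw).2.2
    obtain ⟨a, b, c⟩ := v
    obtain ⟨a', b', c'⟩ := w
    simp only at e1 e2
    subst e1 e2
    cases a <;> cases a' <;> simp
  mneg := by
    intro v c hv _ h1 h2 w hw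
    obtain ⟨b0, b1, b2⟩ := cube_isMx hv
    rw [Lm_cube1] at h1
    rw [Lm_cube2] at h2
    have e1 := sg_eq (t := c 0) (a := v.1) (by linarith) (cube_isMx hw).1
    have e2 := sg_eq (t := c 2) (a := v.2.2) (by linarith) (cube_isMx hw).2.2
    obtain ⟨a, b, c⟩ := v
    obtain ⟨a', b', c'⟩ := w
    simp only at e1 e2
    subst e1 e2
    cases b <;> cases b' <;> simp
  edge := by simp

theorem iterate {R : Type} [DecidableEq R] [Fintype R] [Nonempty R] (G : Gadget R) (k : ℕ) :
    ∃ (V : Type) (_ : DecidableEq V) (_ : Fintype V) (_ : Nonempty V) (S : State V),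
      k * G.EE.card * Fintype.card V ≤ S.EE.card * Fintype.card R ∧
      4 * S.FF.card * Fintype.card R ≤
        (4 * Fintype.card R + k * (4 * G.FF.card + Fintype.card R)) * Fintype.card V ∧
      S.TT.card ≤ Fintype.card V := by
  induction k with
  | zero =>
    refine ⟨B3, inferInstance, inferInstance, inferInstance, cubeState, by simp, ?_, ?_⟩
    · have h : cubeState.FF.card ≤ 4 := (Finset.card_union_le _ _).trans
        (add_le_add (Finset.card_image_le.trans (le_of_eq (by simp : _ = 2)))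
          (Finset.card_image_le.trans (le_of_eq (by simp : _ = 2))))
      have : Fintype.card B3 = 8 := by simp
      rw [this]
      nlinarith
    · exact Finset.card_image_le.trans (by simp)
  | succ k ih =>
    obtain ⟨V, i1, i2, i3, S, h1, h2, -⟩ := ih
    obtain ⟨S', k1, k2, k3⟩ := insert_state S G
    refine ⟨V × R, inferInstance, inferInstance, inferInstance, S', ?_, ?_, ?_⟩
    · rw [k1, Fintype.card_prod]
      have := Nat.mul_le_mul_right (Fintype.card R) h1
      nlinarith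
    · rw [Fintype.card_prod]
      have a1 := Nat.mul_le_mul_right (Fintype.card R) h2
      have a2 := Nat.mul_le_mul_right (Fintype.card R) k2
      nlinarith
    · rw [Fintype.card_prod]; exact k3

theorem main_of_gadget {R : Type} [DecidableEq R] [Fintype R] [Nonempty R] (G : Gadget R)
    (M : ℝ) (hM : 1 ≤ M)
    (gap : (M - 1) * (4 * (G.FF.card : ℝ) + Fintype.card R) < 4 * G.EE.card) :
    ∃ P : Finset (Fin 4 → ℝ), ∃ f : ℕ → ℕ,
      (interior (convexHull ℝ (P : Set (Fin 4 → ℝ)))).Nonempty ∧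
      (∀ k : ℕ, f k = Set.ncard {F : Set (Fin 4 → ℝ) |
          IsExposed ℝ (convexHull ℝ (P : Set (Fin 4 → ℝ))) F ∧ F.Nonempty ∧
          Module.finrank ℝ (affineSpan ℝ F).direction = k}) ∧
      10 < f 0 + f 3 ∧
      M * ((f 0 : ℝ) + (f 3 : ℝ) - 10) < (f 1 : ℝ) + (f 2 : ℝ) - 20 := by
  set N : ℝ := ((Fintype.card R : ℕ) : ℝ) with hN
  set γ : ℝ := 4 * (G.EE.card : ℝ) - (M - 1) * (4 * (G.FF.card : ℝ) + N) with hγ
  have hγ0 : 0 < γ := by linarith
  have hN0 : 0 < N := by rw [hN]; exact_mod_cast Fintype.card_pos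
  obtain ⟨k, hk⟩ := exists_nat_gt (12 * M * N / γ)
  have hk' : 12 * M * N < k * γ := (div_lt_iff₀ hγ0).1 hk
  obtain ⟨V, i1, i2, i3, S, h1, h2, h3⟩ := iterate G k
  refine stack_final S M hM ?_
  set n : ℝ := ((Fintype.card V : ℕ) : ℝ) with hn
  have hn0 : 0 < n := by rw [hn]; exact_mod_cast Fintype.card_pos
  have k1 : (k : ℝ) * G.EE.card * n ≤ S.EE.card * N := by rw [hn, hN]; exact_mod_cast h1
  have k2 : 4 * (S.FF.card : ℝ) * N ≤ (4 * N + k * (4 * G.FF.card + N)) * n := by
    rw [hn, hN]; exact_mod_cast h2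
  have k3 : (S.TT.card : ℝ) ≤ n := by rw [hn]; exact_mod_cast h3
  have k4 := mul_le_mul_of_nonneg_left k2 (sub_nonneg.2 hM)
  have k5 := mul_le_mul_of_nonneg_left k3 (mul_nonneg (sub_nonneg.2 hM) hN0.le)
  have k6 := mul_lt_mul_of_pos_right hk' hn0
  have k7 := mul_pos hN0 hn0
  refine lt_of_mul_lt_mul_right (a := 4 * N) ?_ (by linarith)
  nlinarith

end Pool.Agent.Fat
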