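import Pool.Agent.Lib.MP_bbcf47_co.Glue5

/-! Iterating the gluing operation and the main theorem. -/

namespace Pool.Agent.Fat

open Matrix Filter Topology

namespace GS

/-- Restriction of the pending classes along an injection. -/
def relabel {R P L L' : Type} (S : GS R P L) (ι : L' → L) (hι : Function.Injective ι) :
    GS R P L' :=
  { S with
    C := fun l => S.C (ι l)
    cS := fun l => S.cS (ι l)
    lab := fun l => S.lab (ι l)
    C_pol := fun l => S.C_pol (ι l)
    C_nb := fun l => S.C_nb (ι l)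
    maxS := fun l => S.maxS (ι l)
    S0 := fun l => S.S0 (ι l)
    S1 := fun l => S.S1 (ι l)
    S_rel := fun l => S.S_rel (ι l)
    C_disj := fun l l' r h => S.C_disj (ι l) (ι l') r fun e => h (hι e) }

theorem iter_glue (k : ℕ) : ∀ (R P : Type) [Fintype R] [Nonempty R] [Fintype P]
    (S : GS R P (Fin k)), (∀ l, S.nC l = 2 * Fintype.card P) →
    ∃ (R' P' : Type) (_ : Fintype R') (_ : Nonempty R') (_ : Fintype P') (S' : GS R' P' (Fin 0)),
      Fintype.card P' = 2 ^ k * Fintype.card P ∧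
      Fintype.card R' = 2 ^ k * (Fintype.card R + 2 * k * Fintype.card P) ∧
      S'.n3 = 2 ^ k * (S.n3 + k * Fintype.card P) := by
  induction k with
  | zero =>
    intro R P _ _ _ S _
    exact ⟨R, P, inferInstance, inferInstance, inferInstance, S, by simp, by simp, by simp⟩
  | succ k ih =>
    intro R P _ _ _ S h
    obtain ⟨R₁, i1, i2, S₁, h1, h2, h3⟩ :=
      S.glue 0 Fin.succ (Fin.succ_injective _) (fun l => Fin.succ_ne_zero l)
    obtain ⟨R', P', j1, j2, j3, S', k1, k2, k3⟩ := ih R₁ (P × Bool) S₁ (fun l => by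
      rw [h3, h, Fintype.card_prod, Fintype.card_bool]; ring)
    refine ⟨R', P', j1, j2, j3, S', ?_, ?_, ?_⟩
    · rw [k1, Fintype.card_prod, Fintype.card_bool]; ring
    · rw [k2, h1, h, Fintype.card_prod, Fintype.card_bool]; ring
    · rw [k3, h2, h, Fintype.card_prod, Fintype.card_bool]; ring

end GS

theorem exists_gadget (n : ℕ) : ∃ (R : Type) (_ : DecidableEq R) (_ : Fintype R) (_ : Nonempty R)
    (G : Gadget R) (w : ℕ), 0 < w ∧ G.FF.card ≤ w ∧ Fintype.card R = 3 * (2 * n + 4) * w ∧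
      G.EE.card = 7 * (2 * n + 4) * w := by
  classical
  have hD : Fintype.card (Poly.PV n) = 2 * n + 4 := by simp; ring
  obtain ⟨R, P, i1, i2, i3, S, h1, h2, h3⟩ := GS.iter_glue _ (Poly.PV n) Unit
    ((Poly.gs n).relabel (Fintype.equivFin (Poly.PV n)).symm (Equiv.injective _))
    (fun l => by rw [Fintype.card_unit, mul_one]; exact Poly.card_C _)
  obtain ⟨G, k1, k2⟩ := S.to_gadget
  have h0 : ((Poly.gs n).relabel (Fintype.equivFin (Poly.PV n)).symm
      (Equiv.injective _)).n3 = 0 := by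
    simp [GS.n3]
  rw [h0] at h3
  rw [hD] at h1 h2 h3
  rw [Fintype.card_unit] at h1 h2 h3
  refine ⟨R, inferInstance, i1, i2, G, 2 ^ (2 * n + 4), by positivity, by omega, ?_, ?_⟩
  · rw [h2]; ring
  · rw [k2, h2, h3]; ring

theorem main (M : ℝ) (hM : M < 31 / 3) :
    ∃ S : Finset (Fin 4 → ℝ), ∃ f : ℕ → ℕ,
      (interior (convexHull ℝ (S : Set (Fin 4 → ℝ)))).Nonempty ∧
      (∀ k : ℕ, f k = Set.ncard {F : Set (Fin 4 → ℝ) |
          IsExposed ℝ (convexHull ℝ (S : Set (Fin 4 → ℝ))) F ∧ F.Nonempty ∧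
          Module.finrank ℝ (affineSpan ℝ F).direction = k}) ∧
      10 < f 0 + f 3 ∧
      M * ((f 0 : ℝ) + (f 3 : ℝ) - 10) < (f 1 : ℝ) + (f 2 : ℝ) - 20 := by
  set M' := max M 1 with hM'
  have h1 : 1 ≤ M' := le_max_right _ _
  have h2 : M' < 31 / 3 := max_lt hM (by norm_num)
  obtain ⟨n, hn⟩ := exists_nat_gt (4 * (M' - 1) / (31 - 3 * M'))
  have hn' : 4 * (M' - 1) < n * (31 - 3 * M') := (div_lt_iff₀ (by linarith)).1 hn
  obtain ⟨R, i1, i2, i3, G, w, hw, k1, k2, k3⟩ := exists_gadget n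
  obtain ⟨S, f, a1, a2, a3, a4⟩ := main_of_gadget G M' h1 (by
    have b1 : (G.FF.card : ℝ) ≤ w := by exact_mod_cast k1
    have b2 : (0 : ℝ) < w := by exact_mod_cast hw
    have b3 : (0 : ℝ) ≤ n := Nat.cast_nonneg n
    rw [k2, k3]
    push_cast
    have b4 := mul_le_mul_of_nonneg_left b1 (sub_nonneg.2 h1)
    have b5 : 4 * (M' - 1) < (2 * n + 4) * (31 - 3 * M') := by nlinarith
    have b6 := mul_lt_mul_of_pos_right b5 b2
    nlinarith)
  refine ⟨S, f, a1, a2, a3, lt_of_le_of_lt ?_ a4⟩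
  have : (10 : ℝ) < f 0 + f 3 := by exact_mod_cast a3
  exact mul_le_mul_of_nonneg_right (le_max_left _ _) (by linarith)

end Pool.Agent.Fat
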