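import Pool.Agent.Lib.MP_bbcf47_co.GS2

/-! The initial gadget state: a single polygon with an even number of edges. -/

namespace Pool.Agent.Fat

open Matrix Filter Topology

namespace Poly

variable {n : ℕ}

abbrev PV (n : ℕ) := Fin (n + 2) × Bool

/-- Position along the polygon. -/
def ix (r : PV n) : ℕ := 2 * (r.1 : ℕ) + (if r.2 then 1 else 0)

/-- The points. -/
def q (r : PV n) : E4 := ![0, -((ix r : ℝ) ^ 2), -((ix r : ℝ) ^ 2), ix r]

/-- The neighbours. -/
def nb : Bool → PV n → PV n
  | true, r => (r.1, !r.2)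
  | false, (i, true) => (i + 1, false)
  | false, (i, false) => (i - 1, true)

/-- Certificates of the odd edges. -/
noncomputable def cL (j : Fin (n + 2)) : E4 :=
  if j = Fin.last (n + 1) then ![0, 1, -2, -(2 * (n : ℝ) + 3)] else ![0, 2, -1, 4 * (j : ℕ) + 3]

/-- Edge certificates. -/
noncomputable def cE : Bool → PV n → E4
  | true, r => ![0, 1 / 2, 1 / 2, 4 * (r.1 : ℕ) + 1]
  | false, (i, true) => cL i
  | false, (i, false) => cL (i - 1)

theorem dot_q (c : E4) (r : PV n) :
    c ⬝ᵥ q r = c 3 * ix r - (c 1 + c 2) * (ix r : ℝ) ^ 2 := by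
  simp [q, dotProduct, Fin.sum_univ_four]; ring

theorem ix_inj {r s : PV n} (h : ix r = ix s) : r = s := by
  obtain ⟨i, a⟩ := r
  obtain ⟨j, b⟩ := s
  cases a <;> cases b <;> simp [ix] at h ⊢ <;> omega

theorem ix_le (r : PV n) : ix r ≤ 2 * n + 3 := by
  obtain ⟨i, a⟩ := r
  have := i.2
  cases a <;> simp [ix] <;> omega

theorem nb_inv (b : Bool) (r : PV n) : nb b (nb b r) = r := by
  obtain ⟨i, a⟩ := r
  cases b <;> cases a <;> simp [nb]

theorem nb_snd (b : Bool) (r : PV n) : (nb b r).2 = !r.2 := by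
  obtain ⟨i, a⟩ := r
  cases b <;> cases a <;> simp [nb]

theorem nb_ne (b : Bool) (r : PV n) : nb b r ≠ r := by
  intro h
  have := nb_snd b r
  rw [h] at this
  simp at this

theorem nb_ne' (r : PV n) : nb true r ≠ nb false r := by
  obtain ⟨i, a⟩ := r
  cases a
  · simp only [nb, ne_eq, Prod.mk.injEq, Bool.not_false, and_true]
    intro h
    have := congrArg (fun x => i - x) h
    simp at this
  · simp [nb]

theorem cE_nb (b : Bool) (r : PV n) : cE b (nb b r) = cE b r := by
  obtain ⟨i, a⟩ := r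
  cases b <;> cases a <;> simp [nb, cE]

theorem max_par {c : E4} {a : ℕ} (h1 : c 1 + c 2 = 1) (h3 : c 3 = 2 * a + 1) {r₀ : PV n}
    (h0 : ix r₀ = a) (s : PV n) : IsMx q c s ↔ ix s = a ∨ ix s = a + 1 := by
  have key : ∀ t : PV n, c ⬝ᵥ q r₀ - c ⬝ᵥ q t =
      ((((ix t : ℤ) - a) * ((ix t : ℤ) - a - 1) : ℤ) : ℝ) := fun t => by
    rw [dot_q, dot_q, h1, h3, h0]; push_cast; ring
  have hm : IsMx q c r₀ := fun t => by
    have h := key t
    have : (0 : ℝ) ≤ ((((ix t : ℤ) - a) * ((ix t : ℤ) - a - 1) : ℤ) : ℝ) := by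
      exact_mod_cast int_consec _
    linarith
  constructor
  · intro hs
    have h := key s
    rw [hm.eq hs, sub_self] at h
    have h' : ((ix s : ℤ) - a) * ((ix s : ℤ) - a - 1) = 0 := by exact_mod_cast h.symm
    rcases mul_eq_zero.1 h' with h | h <;> omega
  · intro hs
    refine hm.of_eq ?_
    have h := key s
    have h' : ((ix s : ℤ) - a) * ((ix s : ℤ) - a - 1) = 0 := by
      rcases hs with hs | hs <;> rw [hs] <;> push_cast <;> ring
    rw [h'] at h
    simp only [Int.cast_zero] at h
    linarith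

theorem max_close (s : PV n) :
    IsMx q ![0, 1, -2, -(2 * (n : ℝ) + 3)] s ↔ ix s = 0 ∨ ix s = 2 * n + 3 := by
  have key : ∀ t : PV n, (![0, 1, -2, -(2 * (n : ℝ) + 3)] : E4) ⬝ᵥ q t =
      -((ix t : ℝ) * (2 * n + 3 - ix t)) := fun t => by
    rw [dot_q]; simp; ring
  have h0 : ∀ t : PV n, 0 ≤ (ix t : ℝ) * (2 * n + 3 - ix t) := fun t => by
    have : (ix t : ℝ) ≤ 2 * n + 3 := by exact_mod_cast ix_le t
    exact mul_nonneg (Nat.cast_nonneg _) (by linarith)
  constructor
  · intro hs
    have h := hs (0, false)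
    rw [key, key] at h
    have e : ix ((0, false) : PV n) = 0 := by simp [ix]
    rw [e] at h
    have h1 : (ix s : ℝ) * (2 * n + 3 - ix s) = 0 := by
      have := h0 s
      simp only [Nat.cast_zero, zero_mul, neg_zero] at h
      linarith
    rcases mul_eq_zero.1 h1 with h | h
    · left; exact_mod_cast h
    · right
      have : (ix s : ℝ) = 2 * n + 3 := by linarith
      exact_mod_cast this
  · intro hs t
    rw [key, key]
    have := h0 t
    rcases hs with hs | hs <;> rw [hs] <;> push_cast <;> linarith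

theorem max_cL (j : Fin (n + 2)) (s : PV n) :
    IsMx q (cL j) s ↔ s = (j, true) ∨ s = (j + 1, false) := by
  unfold cL
  split_ifs with h
  · subst h
    rw [max_close]
    have e1 : ix ((Fin.last (n + 1), true) : PV n) = 2 * n + 3 := by simp [ix]; ring
    have e2 : ix ((Fin.last (n + 1) + 1, false) : PV n) = 0 := by simp [ix]
    constructor
    · rintro (h | h)
      · exact Or.inr (ix_inj (h.trans e2.symm))
      · exact Or.inl (ix_inj (h.trans e1.symm))
    · rintro (rfl | rfl)
      · exact Or.inr e1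
      · exact Or.inl e2
  · have e1 : ix ((j, true) : PV n) = 2 * j + 1 := by simp [ix]
    have e2 : ix ((j + 1, false) : PV n) = 2 * j + 1 + 1 := by
      have := Fin.val_add_one_of_lt (Fin.lt_last_iff_ne_last.2 h)
      simp only [ix, this, Bool.false_eq_true, if_false]
      ring
    rw [max_par (a := 2 * j + 1) (by simp; norm_num) (by simp; ring) e1]
    constructor
    · rintro (h | h)
      · exact Or.inl (ix_inj (h.trans e1.symm))
      · exact Or.inr (ix_inj (h.trans e2.symm))
    · rintro (rfl | rfl)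
      · exact Or.inl e1
      · exact Or.inr e2

theorem maxE (b : Bool) (r s : PV n) : IsMx q (cE b r) s ↔ s = r ∨ s = nb b r := by
  obtain ⟨i, a⟩ := r
  cases b
  · cases a
    · simp only [cE, nb, max_cL, sub_add_cancel]
      exact or_comm
    · simp only [cE, nb, max_cL]
  · have e1 : ix ((i, false) : PV n) = 2 * i := by simp [ix]
    have e2 : ix ((i, true) : PV n) = 2 * i + 1 := by simp [ix]
    rw [max_par (a := 2 * i) (by simp [cE]; norm_num) (by simp [cE]; ring) e1]
    have : (ix s = 2 * i ∨ ix s = 2 * i + 1) ↔ (s = (i, false) ∨ s = (i, true)) := by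
      constructor
      · rintro (h | h)
        · exact Or.inl (ix_inj (h.trans e1.symm))
        · exact Or.inr (ix_inj (h.trans e2.symm))
      · rintro (rfl | rfl)
        · exact Or.inl e1
        · exact Or.inr e2
    rw [this]
    cases a
    · simp [nb]
    · simp [nb, or_comm]

theorem cL_props (j : Fin (n + 2)) : cL j 0 = 0 ∧ 0 < cL j 1 ∧ cL j 2 < 0 := by
  unfold cL
  split_ifs <;> simp

theorem E_props (b : Bool) (r : PV n) : cE b r 0 = 0 ∧ 0 < cE b r 1 ∧ 0 < sg b * cE b r 2 := by
  obtain ⟨i, a⟩ := r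
  cases b
  · cases a <;> simpa [cE] using cL_props _
  · simp [cE]

theorem dot_cP (r : PV n) : (![1, 1, -1, 0] : E4) ⬝ᵥ q r = 0 := by
  rw [dot_q]; simp

theorem dot_nP (r : PV n) : (![0, 1, -1, 0] : E4) ⬝ᵥ q r = 0 := by
  rw [dot_q]; simp

theorem exists_e (r : PV n) : ∃ z : E4, (![1, 1, -1, 0] : E4) ⬝ᵥ z = 0 ∧
    (![0, 1, -1, 0] : E4) ⬝ᵥ z = 1 ∧ cE true r ⬝ᵥ z = 0 ∧ cE false r ⬝ᵥ z = 0 := by
  have m : ∀ b, IsMx q (cE b r) r := fun b => (maxE _ _ _).2 (Or.inl rfl)
  have m' : ∀ b, IsMx q (cE b r) (nb b r) := fun b => (maxE _ _ _).2 (Or.inr rfl)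
  refine four_solve (d₁ := q (nb true r) - q r) (d₂ := q (nb false r) - q r) ?_ ?_ ?_ ?_ ?_ ?_ ?_
    ?_ (i := 0) (j := 1) (by simp)
  · rw [dotProduct_sub, dot_cP, dot_cP, sub_self]
  · rw [dotProduct_sub, dot_cP, dot_cP, sub_self]
  · rw [dotProduct_sub, dot_nP, dot_nP, sub_self]
  · rw [dotProduct_sub, dot_nP, dot_nP, sub_self]
  · rw [dotProduct_sub, (m' true).eq (m true), sub_self]
  · rw [dotProduct_sub, sub_ne_zero]
    intro h
    rcases (maxE _ _ _).1 ((m true).of_eq h.symm) with h | h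
    · exact nb_ne _ _ h
    · exact nb_ne' _ h.symm
  · rw [dotProduct_sub, (m' false).eq (m false), sub_self]
  · rw [dotProduct_sub, sub_ne_zero]
    intro h
    rcases (maxE _ _ _).1 ((m false).of_eq h.symm) with h | h
    · exact nb_ne _ _ h
    · exact nb_ne' _ h

/-- The polygon as a gadget state. -/
noncomputable def gs (n : ℕ) : GS (PV n) Unit (PV n) where
  q := q
  e := fun r => (exists_e r).choose
  nb := nb
  pol := fun _ _ => ()
  mid := id
  cP := fun _ => ![1, 1, -1, 0]
  nP := fun _ => ![0, 1, -1, 0]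
  cE := cE
  C := fun l r => r = (l.1, true) ∨ r = nb l.2 (l.1, true)
  cS := fun l => cE l.2 (l.1, true) - cE l.2 (l.1, true) 1 • ![1, 1, -1, 0]
  lab := fun l => l.2
  nb_inv := nb_inv
  nb_ne := nb_ne
  nb_ne' := nb_ne'
  pol_nb := fun _ _ => rfl
  cE_nb := cE_nb
  maxP := fun _ r => ⟨fun _ => Or.inl rfl, fun _ w => by rw [dot_cP, dot_cP]⟩
  P0 := by simp
  P1 := by simp
  nP_const := fun _ r s _ _ => by rw [dot_nP, dot_nP]
  Pe := fun _ r => (exists_e r).choose_spec.1
  ne := fun _ r => (exists_e r).choose_spec.2.1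
  ny := by simp
  maxE := maxE
  E0 := fun b r => (E_props b r).1
  E1 := fun b r => (E_props b r).2.1
  E2 := fun b r => (E_props b r).2.2
  Ee := fun b r => by
    cases b
    · exact (exists_e r).choose_spec.2.2.2
    · exact (exists_e r).choose_spec.2.2.1
  mid_spec := fun _ h => absurd rfl h
  C_pol := fun _ _ _ => rfl
  C_nb := by
    rintro l r (rfl | rfl)
    · exact Or.inr rfl
    · exact Or.inl (nb_inv _ _)
  maxS := fun l r => by
    rw [← maxE]
    simp only [IsMx, sub_dotProduct, smul_dotProduct, dot_cP, smul_zero, sub_zero]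
  S0 := fun l => by simpa [(E_props _ _).1] using (E_props l.2 (l.1, true)).2.1
  S1 := fun l => by simp
  S_rel := by
    rintro l r (rfl | rfl)
    · exact ⟨_, (sub_add_cancel _ _).symm⟩
    · rw [cE_nb]
      exact ⟨_, (sub_add_cancel _ _).symm⟩
  C_disj := by
    rintro ⟨i, b⟩ ⟨i', b'⟩ r hne h h' hb
    simp only at hb h h'
    subst hb
    apply hne
    rcases h with rfl | rfl <;> rcases h' with h' | h'
    · simpa using h'
    · have := nb_snd b (i', true)
      rw [← h'] at this
      simp at this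
    · have := nb_snd b (i, true)
      rw [h'] at this
      simp at this
    · have := congrArg (nb b) h'
      rw [nb_inv, nb_inv] at this
      simpa using this

open Classical in
theorem card_C (l : PV n) : (Finset.univ.filter fun r => (gs n).C l r).card = 2 := by
  have : (Finset.univ.filter fun r => (gs n).C l r) = {(l.1, true), nb l.2 (l.1, true)} := by
    ext r
    simp [gs]
  rw [this, Finset.card_pair (nb_ne _ _).symm]

end Poly

end Pool.Agent.Fat
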