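import Pool.Agent.Lib.MP_bbcf47_co.Faces

/-! The product lemma for deformed products. -/

namespace Pool.Agent.Fat

open Matrix Filter Topology

variable {V R ι : Type*}

/-- The chart at `v`: pairing with the four fields. -/
def Lm (d : Fin 4 → V → E4) (v : V) : E4 →ₗ[ℝ] E4 where
  toFun c := fun i => c ⬝ᵥ d i v
  map_add' a b := by ext i; simp [add_dotProduct]
  map_smul' t a := by ext i; simp [smul_dotProduct]

theorem Lm_apply (d : Fin 4 → V → E4) (v : V) (c : E4) (i : Fin 4) :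
    Lm d v c i = c ⬝ᵥ d i v := rfl

/-- Linear combination of the four fields at `v`. -/
def comb (d : Fin 4 → V → E4) (v : V) (a : E4) : E4 := ∑ i, a i • d i v

theorem dot_comb (d : Fin 4 → V → E4) (v : V) (a c : E4) :
    c ⬝ᵥ comb d v a = Lm d v c ⬝ᵥ a := by
  simp only [comb, dotProduct_sum, dotProduct_smul, smul_eq_mul]
  simp only [dotProduct, Lm_apply]
  exact Finset.sum_congr rfl fun i _ => mul_comm _ _

/-- The deformed product. -/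
def pp (p : V → E4) (d : Fin 4 → V → E4) (Q : R → E4) : V × R → E4 :=
  fun x => p x.1 + comb d x.1 (Q x.2)

theorem dot_pp (p : V → E4) (d : Fin 4 → V → E4) (Q : R → E4) (c : E4) (v : V) (r : R) :
    c ⬝ᵥ pp p d Q (v, r) = c ⬝ᵥ p v + Lm d v c ⬝ᵥ Q r := by
  simp [pp, dotProduct_add, dot_comb]

/-- Compatibility of the fields `d` with the points on `Φ`, with constant `K`. -/
def CK (p : V → E4) (d : ι → V → E4) (Φ : Finset V) (K : ℝ) : Prop :=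
  ∀ c v w, MaxOn p Φ c v → w ∈ Φ → ∀ i,
    |c ⬝ᵥ d i v - c ⬝ᵥ d i w| ≤ K * (c ⬝ᵥ p v - c ⬝ᵥ p w)

/-- Compatibility with some constant. -/
def Compat (p : V → E4) (d : ι → V → E4) (Φ : Finset V) : Prop := ∃ K, 0 ≤ K ∧ CK p d Φ K

/-- The sum of the absolute values of the coordinates. -/
def n1 (a : E4) : ℝ := ∑ i, |a i|

theorem n1_nonneg (a : E4) : 0 ≤ n1 a := Finset.sum_nonneg fun _ _ => abs_nonneg _

theorem CK.bound {p : V → E4} {d : Fin 4 → V → E4} {Φ : Finset V} {K : ℝ} (h : CK p d Φ K)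
    {c : E4} {v w : V} (hv : MaxOn p Φ c v) (hw : w ∈ Φ) (a : E4) :
    |Lm d v c ⬝ᵥ a - Lm d w c ⬝ᵥ a| ≤ K * n1 a * (c ⬝ᵥ p v - c ⬝ᵥ p w) := by
  have e : Lm d v c ⬝ᵥ a - Lm d w c ⬝ᵥ a = ∑ i, (c ⬝ᵥ d i v - c ⬝ᵥ d i w) * a i := by
    rw [← sub_dotProduct]
    rfl
  rw [e]
  refine (Finset.abs_sum_le_sum_abs _ _).trans ?_
  have e2 : K * n1 a * (c ⬝ᵥ p v - c ⬝ᵥ p w) =
      ∑ i, (K * (c ⬝ᵥ p v - c ⬝ᵥ p w)) * |a i| := by
    rw [← Finset.mul_sum, n1]; ring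
  rw [e2]
  refine Finset.sum_le_sum fun i _ => ?_
  rw [abs_mul]
  exact mul_le_mul_of_nonneg_right (h c v w hv hw i) (abs_nonneg _)

theorem CK.Lm_eq {p : V → E4} {d : Fin 4 → V → E4} {Φ : Finset V} {K : ℝ} (h : CK p d Φ K)
    {c : E4} {v w : V} (hv : MaxOn p Φ c v) (hw : MaxOn p Φ c w) : Lm d v c = Lm d w c := by
  ext i
  have h1 := h c v w hv hw.1 i
  have h2 : c ⬝ᵥ p v = c ⬝ᵥ p w := le_antisymm (hw.2 v hv.1) (hv.2 w hw.1)
  rw [h2, sub_self, mul_zero, abs_nonpos_iff, sub_eq_zero] at h1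
  exact h1

theorem prodmax {p : V → E4} {d : Fin 4 → V → E4} {Φ : Finset V} {K : ℝ} (h : CK p d Φ K)
    {Q : R → E4} (hs : ∀ r, K * n1 (Q r) ≤ 1 / 2) (F : Finset R) (c : E4) (v : V) (r : R) :
    MaxOn (pp p d Q) (Φ ×ˢ F) c (v, r) ↔ MaxOn p Φ c v ∧ MaxOn Q F (Lm d v c) r := by
  constructor
  · rintro ⟨hm, hx⟩
    rw [Finset.mem_product] at hm
    obtain ⟨u, hu⟩ := exists_maxOn p ⟨v, hm.1⟩ c
    have h1 := hx (u, r) (Finset.mem_product.2 ⟨hu.1, hm.2⟩)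
    rw [dot_pp, dot_pp] at h1
    have h2 := h.bound hu hm.1 (Q r)
    have h3 := hu.2 v hm.1
    have h4 := hs r
    have h5 := (abs_le.1 h2).1
    have h6 : c ⬝ᵥ p u ≤ c ⬝ᵥ p v := by nlinarith
    refine ⟨⟨hm.1, fun w hw => (hu.2 w hw).trans h6⟩, hm.2, fun s hs' => ?_⟩
    have h7 := hx (v, s) (Finset.mem_product.2 ⟨hm.1, hs'⟩)
    rw [dot_pp, dot_pp] at h7
    linarith
  · rintro ⟨hv, hr⟩
    refine ⟨Finset.mem_product.2 ⟨hv.1, hr.1⟩, ?_⟩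
    rintro ⟨w, s⟩ hw
    rw [Finset.mem_product] at hw
    rw [dot_pp, dot_pp]
    have h2 := h.bound hv hw.1 (Q s)
    have h3 := hv.2 w hw.1
    have h4 := hs s
    have h5 := (abs_le.1 h2).1
    have h6 := hr.2 s hw.2
    simp only at *
    nlinarith

/-- Global form of the product lemma, given localization. -/
theorem prodmax_glob [Fintype V] [Nonempty V] [Fintype R] [Nonempty R]
    {p : V → E4} {d : Fin 4 → V → E4} {Φ : Finset V} {K : ℝ} (h : CK p d Φ K)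
    {Q : R → E4} (hs : ∀ r, K * n1 (Q r) ≤ 1 / 2) {c : E4}
    (hloc : ∀ a, IsMx (pp p d Q) c a → a.1 ∈ Φ) (v : V) (r : R) :
    IsMx (pp p d Q) c (v, r) ↔ MaxOn p Φ c v ∧ IsMx Q (Lm d v c) r := by
  have key := prodmax h hs Finset.univ c v r
  constructor
  · intro hm
    have := key.1 (hm.maxOn (Finset.mem_product.2 ⟨hloc _ hm, Finset.mem_univ _⟩))
    exact ⟨this.1, fun s => this.2.2 s (Finset.mem_univ _)⟩
  · rintro ⟨h1, h2⟩
    have := key.2 ⟨h1, h2.maxOn (Finset.mem_univ _)⟩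
    obtain ⟨a, ha⟩ := exists_isMx (pp p d Q) c
    exact ha.of_le (this.2 a (Finset.mem_product.2 ⟨hloc _ ha, Finset.mem_univ _⟩))

theorem isMx_pp_snd {p : V → E4} {d : Fin 4 → V → E4} {Q : R → E4} {c : E4} {v : V} {r : R}
    (h : IsMx (pp p d Q) c (v, r)) : IsMx Q (Lm d v c) r := by
  intro s
  have := h (v, s)
  rw [dot_pp, dot_pp] at this
  linarith

theorem maxOn_of_mem_Ann {p : V → E4} {Φ : Finset V} {c : E4} (hc : c ∈ Ann p Φ) {v : V}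
    (hv : v ∈ Φ) : MaxOn p Φ c v := ⟨hv, fun w hw => (hc w hw v hv).le⟩

theorem mem_Ann_of_maxOn {p : V → E4} {Φ : Finset V} {c : E4}
    (h : ∀ v ∈ Φ, MaxOn p Φ c v) : c ∈ Ann p Φ :=
  fun v hv w hw => le_antisymm ((h w hw).2 v hv) ((h v hv).2 w hw)

theorem Ann_prod_ge {p : V → E4} {d : Fin 4 → V → E4} {Φ : Finset V} {K : ℝ} (h : CK p d Φ K)
    (Q : R → E4) (F : Finset R) {v₀ : V} (hv₀ : v₀ ∈ Φ) :
    Ann p Φ ⊓ (Ann Q F).comap (Lm d v₀) ≤ Ann (pp p d Q) (Φ ×ˢ F) := by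
  rintro c ⟨h1, h2⟩ ⟨v, r⟩ hv ⟨w, s⟩ hw
  rw [Finset.mem_product] at hv hw
  rw [dot_pp, dot_pp, h1 v hv.1 w hw.1,
    h.Lm_eq (maxOn_of_mem_Ann h1 hv.1) (maxOn_of_mem_Ann h1 hv₀),
    h.Lm_eq (maxOn_of_mem_Ann h1 hw.1) (maxOn_of_mem_Ann h1 hv₀), h2 r hv.2 s hw.2]

theorem Ann_prod_eq {p : V → E4} {d : Fin 4 → V → E4} {Φ : Finset V} {K : ℝ} (h : CK p d Φ K)
    {Q : R → E4} (hs : ∀ r, K * n1 (Q r) ≤ 1 / 2) {F : Finset R} (hF : F.Nonempty)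
    {v₀ : V} (hv₀ : v₀ ∈ Φ) :
    Ann (pp p d Q) (Φ ×ˢ F) = Ann p Φ ⊓ (Ann Q F).comap (Lm d v₀) := by
  refine le_antisymm ?_ (Ann_prod_ge h Q F hv₀)
  intro c hc
  obtain ⟨r₀, hr₀⟩ := hF
  refine ⟨mem_Ann_of_maxOn fun v hv => ?_, mem_Ann_of_maxOn fun r hr => ?_⟩
  · exact ((prodmax h hs F c v r₀).1
      (maxOn_of_mem_Ann hc (Finset.mem_product.2 ⟨hv, hr₀⟩))).1
  · exact ((prodmax h hs F c v₀ r).1
      (maxOn_of_mem_Ann hc (Finset.mem_product.2 ⟨hv₀, hr⟩))).2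

theorem finrank_Ann_prod {p : V → E4} {d : Fin 4 → V → E4} {Φ : Finset V} {K : ℝ}
    (h : CK p d Φ K) (Q : R → E4) (F : Finset R) (hΦ : Φ.Nonempty) :
    Module.finrank ℝ (Ann p Φ) + Module.finrank ℝ (Ann Q F) ≤
      Module.finrank ℝ (Ann (pp p d Q) (Φ ×ˢ F)) + 4 := by
  obtain ⟨v₀, hv₀⟩ := hΦ
  have h1 := finrank_inf_ge (Ann p Φ) ((Ann Q F).comap (Lm d v₀))
  have h2 := finrank_comap_ge (Lm d v₀) (Ann Q F)
  have h3 := Submodule.finrank_mono (Ann_prod_ge h Q F hv₀)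
  omega

theorem compat_prod [Fintype ι] [Fintype R] {p : V → E4} {d : Fin 4 → V → E4} {Φ : Finset V}
    {K : ℝ} (hK : 0 ≤ K) (h : CK p d Φ K) {Q : R → E4} (hs : ∀ r, K * n1 (Q r) ≤ 1 / 2)
    {F : Finset R} {a : ι → R → E4} (ha : Compat Q a F) :
    Compat (pp p d Q) (fun i x => comb d x.1 (a i x.2)) (Φ ×ˢ F) := by
  obtain ⟨K₁, hK₁, ha⟩ := ha
  obtain ⟨B, hB⟩ : ∃ B : ℝ, ∀ i s, n1 (a i s) ≤ B := by
    obtain ⟨B, hB⟩ := (Set.finite_range fun x : ι × R => n1 (a x.1 x.2)).bddAbove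
    exact ⟨B, fun i s => hB ⟨(i, s), rfl⟩⟩
  refine ⟨K₁ + 2 * K * |B|, by positivity, ?_⟩
  rintro c ⟨v, r⟩ ⟨w, s⟩ hv hw i
  obtain ⟨h1, h2⟩ := (prodmax h hs F c v r).1 hv
  rw [Finset.mem_product] at hw
  simp only [dot_comb, dot_pp]
  have b1 := ha (Lm d v c) r s h2 hw.2 i
  have b2 := h.bound h1 hw.1 (a i s)
  have b3 := h.bound h1 hw.1 (Q s)
  have b4 := h1.2 w hw.1
  have b5 := h2.2 s hw.2
  have b6 := hs s
  have b7 : n1 (a i s) ≤ |B| := (hB i s).trans (le_abs_self _)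
  simp only at b2 b3 b4 b5
  set x := c ⬝ᵥ p v - c ⬝ᵥ p w with hx
  set y := Lm d v c ⬝ᵥ Q r - Lm d v c ⬝ᵥ Q s with hy
  have hx0 : 0 ≤ x := by linarith
  have hy0 : 0 ≤ y := by linarith
  have b8 : x / 2 + y ≤ c ⬝ᵥ p v + Lm d v c ⬝ᵥ Q r - (c ⬝ᵥ p w + Lm d w c ⬝ᵥ Q s) := by
    have := (abs_le.1 b3).1
    nlinarith
  have b9 : |Lm d v c ⬝ᵥ a i r - Lm d w c ⬝ᵥ a i s| ≤ K₁ * y + K * |B| * x := by
    have e : Lm d v c ⬝ᵥ a i r - Lm d w c ⬝ᵥ a i s =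
      (Lm d v c ⬝ᵥ a i r - Lm d v c ⬝ᵥ a i s) + (Lm d v c ⬝ᵥ a i s - Lm d w c ⬝ᵥ a i s) := by
        ring
    rw [e]
    refine (abs_add_le _ _).trans (add_le_add b1 (b2.trans ?_))
    exact mul_le_mul_of_nonneg_right (mul_le_mul_of_nonneg_left b7 hK) hx0
  refine b9.trans ?_
  have hB0 := abs_nonneg B
  have : K₁ * y + K * |B| * x ≤ (K₁ + 2 * K * |B|) * (x / 2 + y) := by
    have := mul_nonneg hK₁ hx0
    have := mul_nonneg (mul_nonneg hK hB0) hy0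
    nlinarith
  exact this.trans (mul_le_mul_of_nonneg_left b8 (by positivity))

theorem compat_single (p : V → E4) (d : ι → V → E4) (v : V) : Compat p d {v} := by
  refine ⟨0, le_rfl, fun c a b ha hb i => ?_⟩
  have h1 := Finset.mem_singleton.1 ha.1
  have h2 := Finset.mem_singleton.1 hb
  subst h1 h2
  simp

theorem small_eventually [Fintype R] {X : Type*} {l : Filter X} {Q : X → R → E4} (K : ℝ)
    (hQ : ∀ r, Tendsto (fun x => Q x r) l (𝓝 0)) :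
    ∀ᶠ x in l, ∀ r, K * n1 (Q x r) ≤ 1 / 2 := by
  rw [eventually_all]
  intro r
  have hc : Continuous fun a : E4 => K * n1 a := by unfold n1; fun_prop
  have h := (hc.tendsto 0).comp (hQ r)
  have e : K * n1 0 = 0 := by simp [n1]
  rw [e] at h
  exact h.eventually_le_const (by norm_num)

theorem tendsto_pp {X : Type*} {l : Filter X} (p : V → E4) (d : Fin 4 → V → E4)
    {Q : X → R → E4} (hQ : ∀ r, Tendsto (fun x => Q x r) l (𝓝 0)) (a : V × R) :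
    Tendsto (fun x => pp p d (Q x) a) l (𝓝 (p a.1)) := by
  have hc : Continuous fun b : E4 => p a.1 + comb d a.1 b := by unfold comb; fun_prop
  have h := (hc.tendsto 0).comp (hQ a.2)
  have e : p a.1 + comb d a.1 0 = p a.1 := by simp [comb]
  rw [e] at h
  exact h

theorem usc_pp [Fintype V] [Fintype R] [Nonempty R] {X : Type*} {l : Filter X} (p : V → E4)
    (d : Fin 4 → V → E4) {Q : X → R → E4} (hQ : ∀ r, Tendsto (fun x => Q x r) l (𝓝 0))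
    {c : X → E4} {c₀ : E4} (hc : Tendsto c l (𝓝 c₀)) :
    ∀ᶠ x in l, ∀ a, IsMx (pp p d (Q x)) (c x) a → IsMx p c₀ a.1 :=
  usc (pr := Prod.fst) Prod.fst_surjective hc (tendsto_pp p d hQ)

end Pool.Agent.Fat
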