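import Pool.Agent.Lib.MP_bbcf47_co.State

/-! The final stacking of a state along a long convex path. -/

namespace Pool.Agent.Fat

open Matrix Filter Topology

/-- The convex path. -/
noncomputable def Qs (m : ℕ) (ε : ℝ) (i : Fin (m + 1)) : E4 :=
  ![-(ε ^ 2 * ((i : ℕ) : ℝ) ^ 2), 0, 0, ε * ((i : ℕ) : ℝ)]

theorem dot_Qs (m : ℕ) (ε : ℝ) (i : Fin (m + 1)) (c : E4) :
    c ⬝ᵥ Qs m ε i = ε * (((i : ℕ) : ℝ) * c 3 - ε * ((i : ℕ) : ℝ) ^ 2 * c 0) := by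
  simp [Qs, dotProduct, Fin.sum_univ_four]; ring

theorem tendsto_Qs (m : ℕ) {X : Type*} {l : Filter X} {e : X → ℝ} (he : Tendsto e l (𝓝 0))
    (i : Fin (m + 1)) : Tendsto (fun x => Qs m (e x) i) l (𝓝 0) := by
  have hc : Continuous fun ε : ℝ => Qs m ε i := by
    unfold Qs
    refine continuous_pi fun k => ?_
    fin_cases k <;> simp <;> fun_prop
  have h := (hc.tendsto 0).comp he
  have e : Qs m 0 i = 0 := by
    ext k; fin_cases k <;> simp [Qs]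
  rw [e] at h
  exact h

theorem Qs_single {m : ℕ} {ε : ℝ} (hε : 0 < ε) {c : E4} (h0 : 0 < c 0) (i : Fin (m + 1))
    (h3 : c 3 = 2 * ((i : ℕ) : ℝ) * ε * c 0) (j : Fin (m + 1)) :
    IsMx (Qs m ε) c j ↔ j = i := by
  have key : ∀ k : Fin (m + 1), c ⬝ᵥ Qs m ε i - c ⬝ᵥ Qs m ε k =
      ε ^ 2 * c 0 * (((k : ℕ) : ℝ) - ((i : ℕ) : ℝ)) ^ 2 := fun k => by
    rw [dot_Qs, dot_Qs, h3]; ring
  have hp : 0 < ε ^ 2 * c 0 := by positivity
  constructor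
  · intro h
    have h1 := h i
    have h2 := key j
    have h3 : (((j : ℕ) : ℝ) - ((i : ℕ) : ℝ)) ^ 2 ≤ 0 := by
      by_contra hn
      have := mul_pos hp (not_le.1 hn)
      linarith
    have h4 : ((j : ℕ) : ℝ) = ((i : ℕ) : ℝ) := by nlinarith [sq_nonneg (((j : ℕ) : ℝ) - ((i : ℕ) : ℝ))]
    exact Fin.ext (by exact_mod_cast h4)
  · rintro rfl k
    have := key k
    have h2 : 0 ≤ ε ^ 2 * c 0 * (((k : ℕ) : ℝ) - ((j : ℕ) : ℝ)) ^ 2 := by positivity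
    linarith

theorem int_consec (z : ℤ) : 0 ≤ z * (z - 1) := by
  rcases le_or_gt z 0 with h | h
  · nlinarith
  · nlinarith

theorem Qs_pair {m : ℕ} {ε : ℝ} (hε : 0 < ε) {c : E4} (h0 : 0 < c 0) (i : Fin m)
    (h3 : c 3 = (2 * ((i : ℕ) : ℝ) + 1) * ε * c 0) (j : Fin (m + 1)) :
    IsMx (Qs m ε) c j ↔ j = i.castSucc ∨ j = i.succ := by
  have key : ∀ k : Fin (m + 1), c ⬝ᵥ Qs m ε i.castSucc - c ⬝ᵥ Qs m ε k =
      ε ^ 2 * c 0 * (((((k : ℕ) : ℤ) - ((i : ℕ) : ℤ)) * (((k : ℕ) : ℤ) - ((i : ℕ) : ℤ) - 1) : ℤ) : ℝ) :=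
    fun k => by
    rw [dot_Qs, dot_Qs, h3]; push_cast; simp only [Fin.val_castSucc]; ring
  have hp : 0 < ε ^ 2 * c 0 := by positivity
  have hi : IsMx (Qs m ε) c i.castSucc := by
    intro k
    have h1 := key k
    have h2 : (0 : ℝ) ≤ (((((k : ℕ) : ℤ) - ((i : ℕ) : ℤ)) *
        (((k : ℕ) : ℤ) - ((i : ℕ) : ℤ) - 1) : ℤ) : ℝ) := by exact_mod_cast int_consec _
    have := mul_nonneg hp.le h2
    linarith
  constructor
  · intro h
    have h1 := hi.eq h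
    have h2 := key j
    rw [h1, sub_self] at h2
    have h3 := (mul_eq_zero.1 h2.symm).resolve_left hp.ne'
    have h4 : (((j : ℕ) : ℤ) - ((i : ℕ) : ℤ)) * (((j : ℕ) : ℤ) - ((i : ℕ) : ℤ) - 1) = 0 := by
      exact_mod_cast h3
    rcases mul_eq_zero.1 h4 with h5 | h5
    · left; ext; simp only [Fin.val_castSucc]; omega
    · right; ext; simp only [Fin.val_succ]; omega
  · rintro (rfl | rfl)
    · exact hi
    · refine hi.of_eq ?_
      have h2 := key i.succ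
      simp only [Fin.val_succ] at h2
      have e : ((((i : ℕ) + 1 : ℕ) : ℤ) - ((i : ℕ) : ℤ)) *
        ((((i : ℕ) + 1 : ℕ) : ℤ) - ((i : ℕ) : ℤ) - 1) = 0 := by push_cast; ring
      rw [e] at h2
      simp only [Int.cast_zero, mul_zero] at h2
      linarith

theorem Qs_close {m : ℕ} {ε : ℝ} (hε : 0 < ε) {c : E4} (h0 : 0 < c 0) {i j : Fin (m + 1)}
    (hi : IsMx (Qs m ε) c i) (hj : IsMx (Qs m ε) c j) : (j : ℕ) ≤ i + 1 := by
  by_contra hn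
  have hlt : (i : ℕ) + 1 < m + 1 := by omega
  have h1 := hi ⟨i + 1, hlt⟩
  have h2 := hi.eq hj
  rw [dot_Qs, dot_Qs] at h1 h2
  simp only at h1
  push_cast at h1
  have h3 : ((i : ℕ) : ℝ) + 1 < ((j : ℕ) : ℝ) := by exact_mod_cast not_le.1 hn
  set a : ℝ := ((i : ℕ) : ℝ)
  set b : ℝ := ((j : ℕ) : ℝ)
  have h4 := le_of_mul_le_mul_left h1 hε
  have h5 := mul_left_cancel₀ hε.ne' h2
  have h6 : (b - a) * (c 3 - ε * (a + b) * c 0) = 0 := by linarith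
  have h7 : c 3 = ε * (a + b) * c 0 := by
    have := (mul_eq_zero.1 h6).resolve_left (by linarith)
    linarith
  rw [h7] at h4
  have h8 : 0 < ε * c 0 := mul_pos hε h0
  nlinarith

theorem Qs_sub {m : ℕ} (hm : 0 < m) {ε : ℝ} (hε : 0 < ε) {c : E4} (h0 : 0 < c 0) :
    ∃ j : Fin m, ∀ i, IsMx (Qs m ε) c i → i = j.castSucc ∨ i = j.succ := by
  classical
  obtain ⟨i₀, hi₀, hmin⟩ := Finset.exists_min_image (Mset (Qs m ε) c) (fun i => (i : ℕ))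
    (by obtain ⟨v, hv⟩ := exists_isMx (Qs m ε) c; exact ⟨v, mem_Mset.2 hv⟩)
  have hi := mem_Mset.1 hi₀
  by_cases h : (i₀ : ℕ) < m
  · refine ⟨⟨i₀, h⟩, fun i hi' => ?_⟩
    have h1 := hmin i (mem_Mset.2 hi')
    have h2 := Qs_close hε h0 hi hi'
    rcases h1.eq_or_lt with h3 | h3
    · left; ext; simp only [Fin.val_castSucc]; omega
    · right; ext; simp only [Fin.val_succ]; omega
  · refine ⟨⟨m - 1, by omega⟩, fun i hi' => ?_⟩
    have h1 := hmin i (mem_Mset.2 hi')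
    have := i.2
    right; ext; simp only [Fin.val_succ]; omega

theorem Qs_good {m : ℕ} {ε : ℝ} (hε : 0 < ε) {c : E4} {i : Fin (m + 1)} (h1 : (i : ℕ) ≠ 0)
    (h2 : (i : ℕ) ≠ m) (hi : IsMx (Qs m ε) c i) :
    (2 * ((i : ℕ) : ℝ) - 1) * ε * c 0 ≤ c 3 ∧ c 3 ≤ (2 * ((i : ℕ) : ℝ) + 1) * ε * c 0 := by
  have := i.2
  have k1 := hi ⟨i + 1, by omega⟩
  have k2 := hi ⟨i - 1, by omega⟩
  rw [dot_Qs, dot_Qs] at k1 k2
  simp only at k1 k2
  rw [Nat.cast_sub (by omega)] at k2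
  push_cast at k1 k2
  have k3 := le_of_mul_le_mul_left k1 hε
  have k4 := le_of_mul_le_mul_left k2 hε
  constructor <;> nlinarith

end Pool.Agent.Fat
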