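import Pool.Agent.Lib.MP_bbcf47_co.Stack

/-! Face numbers of the stacked polytope. -/

namespace Pool.Agent.Fat

open Matrix Filter Topology

section general

variable {V R : Type*} [Fintype V] [DecidableEq V] [Nonempty V] [Fintype R] [Nonempty R]

theorem edge_cert {X : Type*} {l : Filter X} {p : V → E4} {d : Fin 4 → V → E4} {v w : V}
    (hΦ : Compat p d {v, w}) {Q : X → R → E4} (hQ : ∀ r, Tendsto (fun x => Q x r) l (𝓝 0))
    {c n : E4} (hc : ∀ u, IsMx p c u ↔ u = v ∨ u = w) (hn : n ⬝ᵥ p v = n ⬝ᵥ p w)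
    {τ : X → ℝ} (hτ : Tendsto τ l (𝓝 0)) :
    ∀ᶠ x in l, ∀ u s, IsMx (pp p d (Q x)) (c + τ x • n) (u, s) ↔
      (u = v ∨ u = w) ∧ IsMx (Q x) (Lm d v (c + τ x • n)) s := by
  have ht : Tendsto (fun x => c + τ x • n) l (𝓝 c) := by
    have := (hτ.smul_const n).const_add c
    simpa using this
  obtain ⟨K, hK0, hK⟩ := hΦ
  filter_upwards [cert_eventually ⟨K, hK0, hK⟩ hQ ht (fun u hu => by simpa using (hc u).1 hu)]
    with x hx u s
  have e : (c + τ x • n) ⬝ᵥ p v = (c + τ x • n) ⬝ᵥ p w := by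
    have := ((hc v).2 (Or.inl rfl)).eq ((hc w).2 (Or.inr rfl))
    simp only [add_dotProduct, smul_dotProduct, this, hn]
  have hA : (c + τ x • n) ∈ Ann p {v, w} := by
    intro a ha b hb
    simp only [Finset.mem_insert, Finset.mem_singleton] at ha hb
    rcases ha with rfl | rfl <;> rcases hb with rfl | rfl <;> simp only [e]
  rw [hx]
  constructor
  · rintro ⟨h1, h2⟩
    refine ⟨by simpa using h1.1, ?_⟩
    rwa [hK.Lm_eq h1 (maxOn_of_mem_Ann hA (Finset.mem_insert_self _ _))] at h2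
  · rintro ⟨h1, h2⟩
    have h3 := maxOn_of_mem_Ann hA (v := u) (by simpa using h1)
    refine ⟨h3, ?_⟩
    rwa [hK.Lm_eq h3 (maxOn_of_mem_Ann hA (Finset.mem_insert_self _ _))]

omit [DecidableEq V] in
theorem vertex_cert {X : Type*} {l : Filter X} {p : V → E4} {d : Fin 4 → V → E4} {v : V}
    {Q : X → R → E4} (hQ : ∀ r, Tendsto (fun x => Q x r) l (𝓝 0))
    {c : X → E4} {c₀ : E4} (hc : Tendsto c l (𝓝 c₀)) (hM : ∀ w, IsMx p c₀ w → w = v) :
    ∀ᶠ x in l, ∀ u s, IsMx (pp p d (Q x)) (c x) (u, s) ↔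
      u = v ∧ IsMx (Q x) (Lm d v (c x)) s := by
  filter_upwards [cert_eventually (compat_single p d v) hQ hc
    (fun u hu => by simpa using hM u hu)] with x hx u s
  rw [hx]
  constructor
  · rintro ⟨h1, h2⟩
    have := Finset.mem_singleton.1 h1.1
    subst this
    exact ⟨rfl, h2⟩
  · rintro ⟨rfl, h2⟩
    exact ⟨⟨Finset.mem_singleton_self _, fun w hw => by rw [Finset.mem_singleton.1 hw]⟩, h2⟩

end general

theorem tendsto_id_pos : Tendsto (fun ε : ℝ => ε) (𝓝[>] 0) (𝓝 0) :=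
  tendsto_id.mono_left nhdsWithin_le_nhds

variable {V : Type} [Fintype V] [DecidableEq V] [Nonempty V] (S : State V) (m : ℕ)

theorem stack_class : ∀ᶠ ε in 𝓝[>] (0 : ℝ), ∀ c : E4, c ≠ 0 → ∀ (v : V) (i : Fin (m + 1)),
    (i : ℕ) ≠ 0 → (i : ℕ) ≠ m → IsMx (pp S.p S.d (Qs m ε)) c (v, i) →
    0 < Lm S.d v c 0 ∧ ∃ Φ, (Φ ∈ S.FF ∪ S.TT ∨ Thin S.p S.d Φ) ∧
      ∀ u s, IsMx (pp S.p S.d (Qs m ε)) c (u, s) → u ∈ Φ ∧ IsMx (Qs m ε) (Lm S.d v c) s := by
  refine sphere_eventually ?_ ?_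
  · intro ε c t ht h v i h1 h2 h3
    obtain ⟨k1, Φ, k2, k3⟩ := h v i h1 h2 ((isMx_smul ht).2 h3)
    rw [map_smul] at k1 k3
    refine ⟨?_, Φ, k2, fun u s hu => ?_⟩
    · simp only [Pi.smul_apply, smul_eq_mul] at k1
      exact (mul_pos_iff_of_pos_left ht).1 k1
    · have := k3 u s ((isMx_smul ht).2 hu)
      exact ⟨this.1, (isMx_smul ht).1 this.2⟩
  · intro c₀ hc₀
    have hfst : Tendsto (fun z : ℝ × E4 => z.1) (𝓝 (0, c₀)) (𝓝 0) := continuous_fst.tendsto _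
    have hsnd : Tendsto (fun z : ℝ × E4 => z.2) (𝓝 (0, c₀)) (𝓝 c₀) := continuous_snd.tendsto _
    have hQ := tendsto_Qs m hfst
    simp only [imp_forall_iff, eventually_all]
    intro v i
    by_cases hv : IsMx S.p c₀ v
    · rcases lt_trichotomy (Lm S.d v c₀ 3) 0 with h3 | h3 | h3
      · have t1 : Tendsto (fun z : ℝ × E4 => (2 * ((i : ℕ) : ℝ) - 1) * z.1 * Lm S.d v z.2 0)
            (𝓝 (0, c₀)) (𝓝 0) := by
          simpa using (hfst.const_mul (2 * ((i : ℕ) : ℝ) - 1)).mul (tendsto_Lm S.d v hsnd 0)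
        filter_upwards [(tendsto_Lm S.d v hsnd 3).eventually_lt t1 h3] with z hz hpos h1 h2 hm
        exact absurd (Qs_good hpos h1 h2 (isMx_pp_snd hm)).1 (not_le.2 hz)
      · obtain ⟨Φ, hΦ, hM⟩ := S.cover hv h3 hc₀
        have hcomp : Compat S.p S.d Φ := by
          rcases hΦ with h | h
          · rcases Finset.mem_union.1 h with h | h
            · exact (S.cF Φ h).1
            · exact (S.cT Φ h).1
          · exact h.1
        filter_upwards [loc_eventually hcomp hQ hsnd hM,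
          (tendsto_Lm S.d v hsnd 0).eventually_const_lt (S.pos v c₀ hv h3 hc₀)]
          with z hz h0 _ _ _ hm
        exact ⟨h0, Φ, hΦ, fun u s hu => ⟨hM u (hz v i hm u s hu).1, (hz v i hm u s hu).2⟩⟩
      · have t1 : Tendsto (fun z : ℝ × E4 => (2 * ((i : ℕ) : ℝ) + 1) * z.1 * Lm S.d v z.2 0)
            (𝓝 (0, c₀)) (𝓝 0) := by
          simpa using (hfst.const_mul (2 * ((i : ℕ) : ℝ) + 1)).mul (tendsto_Lm S.d v hsnd 0)
        filter_upwards [t1.eventually_lt (tendsto_Lm S.d v hsnd 3) h3] with z hz hpos h1 h2 hm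
        exact absurd (Qs_good hpos h1 h2 (isMx_pp_snd hm)).2 (not_le.2 hz)
    · filter_upwards [usc_pp S.p S.d hQ hsnd] with z hz _ _ _ hm
      exact absurd (hz _ hm) hv

theorem stack_edge {x : V × V} (hx : x ∈ S.EE) (t : ℝ) :
    ∀ᶠ ε in 𝓝[>] (0 : ℝ), ∃ c, 0 < Lm S.d x.1 c 0 ∧ Lm S.d x.1 c 3 = t * ε * Lm S.d x.1 c 0 ∧
      ∀ u s, IsMx (pp S.p S.d (Qs m ε)) c (u, s) ↔
        (u = x.1 ∨ u = x.2) ∧ IsMx (Qs m ε) (Lm S.d x.1 c) s := by
  obtain ⟨-, hcomp, c, n, hc, h3, h1, hn, hn3⟩ := S.edge x hx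
  have h0 : 0 < Lm S.d x.1 c 0 := S.pos x.1 c ((hc _).2 (Or.inl rfl)) h3 (by
    rintro rfl
    simp at h1)
  set a := Lm S.d x.1 c 0 with ha
  set b := Lm S.d x.1 n 0 with hb
  have hden : Tendsto (fun ε : ℝ => 1 - t * ε * b) (𝓝[>] 0) (𝓝 1) := by
    simpa using ((tendsto_id_pos.const_mul t).mul_const b).const_sub 1
  have hτ : Tendsto (fun ε : ℝ => t * ε * a / (1 - t * ε * b)) (𝓝[>] 0) (𝓝 0) := by
    have := ((tendsto_id_pos.const_mul t).mul_const a).div hden one_ne_zero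
    simp only [mul_zero, zero_mul, zero_div] at this
    exact this
  filter_upwards [edge_cert hcomp (tendsto_Qs m tendsto_id_pos) hc hn hτ,
    hden.eventually_const_lt one_pos] with ε h1 h2
  refine ⟨_, ?_, ?_, h1⟩
  · simp only [map_add, map_smul, Pi.add_apply, Pi.smul_apply, smul_eq_mul, ← ha, ← hb]
    have : a + t * ε * a / (1 - t * ε * b) * b = a / (1 - t * ε * b) := by
      field_simp; ring
    rw [this]; positivity
  · simp only [map_add, map_smul, Pi.add_apply, Pi.smul_apply, smul_eq_mul, ← ha, ← hb, h3, hn3]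
    field_simp; ring

theorem stack_vertex (v : V) (i : Fin (m + 1)) :
    ∀ᶠ ε in 𝓝[>] (0 : ℝ), ∃ c, ∀ a, IsMx (pp S.p S.d (Qs m ε)) c a ↔ a = (v, i) := by
  have hc : Tendsto (fun ε : ℝ => (S.chart v).symm ![1, 0, 0, 2 * ((i : ℕ) : ℝ) * ε]) (𝓝[>] 0)
      (𝓝 ((S.chart v).symm ![1, 0, 0, 0])) := by
    refine ((S.continuous_chart_symm v).tendsto _).comp ?_
    refine tendsto_pi_nhds.2 fun k => ?_
    fin_cases k
    · simp
    · simp
    · simp
    · simpa using tendsto_id_pos.const_mul (2 * ((i : ℕ) : ℝ))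
  filter_upwards [vertex_cert (d := S.d) (tendsto_Qs m tendsto_id_pos) hc
    (fun w hw => (S.base v _ (S.Lm_chart_symm v _) w).1 hw), self_mem_nhdsWithin] with ε h1 h2
  refine ⟨(S.chart v).symm ![1, 0, 0, 2 * ((i : ℕ) : ℝ) * ε], fun a => ?_⟩
  obtain ⟨u, s⟩ := a
  rw [h1, S.Lm_chart_symm, Qs_single h2 (by simp) i (by simp), Prod.mk.injEq]

omit [Fintype V] [Nonempty V] in
theorem stack_small {Φ : Finset V} (h : Compat S.p S.d Φ) :
    ∀ᶠ ε in 𝓝[>] (0 : ℝ), ∃ K, CK S.p S.d Φ K ∧ ∀ r, K * n1 (Qs m ε r) ≤ 1 / 2 := by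
  obtain ⟨K, -, hK⟩ := h
  filter_upwards [small_eventually K (tendsto_Qs m tendsto_id_pos)] with ε hε
  exact ⟨K, hK, hε⟩

omit [Fintype V] [Nonempty V] in
theorem stack_trans {x : V × V} (hx : x ∈ S.EE) (j : Fin m) :
    ∀ᶠ ε in 𝓝[>] (0 : ℝ), ∃ n ∈ Ann S.p {x.1, x.2},
      Lm S.d x.1 n ⬝ᵥ Qs m ε j.castSucc ≠ Lm S.d x.1 n ⬝ᵥ Qs m ε j.succ := by
  obtain ⟨-, hcomp, c, n, hc, h3, h1, hn, hn3⟩ := S.edge x hx
  have hden : Tendsto (fun ε : ℝ => ε * ((2 * ((j : ℕ) : ℝ) + 1) * Lm S.d x.1 n 0)) (𝓝[>] 0)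
      (𝓝 0) := by
    simpa using tendsto_id_pos.mul_const ((2 * ((j : ℕ) : ℝ) + 1) * Lm S.d x.1 n 0)
  filter_upwards [hden.eventually_lt_const one_pos, self_mem_nhdsWithin] with ε h1 h2
  have h2 : 0 < ε := h2
  refine ⟨n, ?_, ?_⟩
  · intro a ha b hb
    simp only [Finset.mem_insert, Finset.mem_singleton] at ha hb
    rcases ha with rfl | rfl <;> rcases hb with rfl | rfl <;> simp only [hn]
  · rw [dot_Qs, dot_Qs, hn3]
    intro h
    have := mul_left_cancel₀ h2.ne' h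
    simp only [Fin.val_castSucc, Fin.val_succ] at this
    push_cast at this
    nlinarith

end Pool.Agent.Fat
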