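import Pool.Agent.Lib.MP_bbcf47_co.Stack2

/-! Counting the faces of the stacked polytope. -/

namespace Pool.Agent.Fat

open Matrix Filter Topology

theorem Ann_single_top {V : Type*} (p : V → E4) (v : V) : Ann p {v} = ⊤ := by
  apply Submodule.eq_top_of_finrank_eq
  have h1 := finrank_Ann_single p v
  have h2 := finrank_Ann_le p {v}
  rw [finrank_E4]; omega

theorem nonempty_of_finrank_lt {V : Type*} {p : V → E4} {T : Finset V}
    (h : Module.finrank ℝ (Ann p T) < 4) : T.Nonempty := by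
  rcases T.eq_empty_or_nonempty with rfl | h'
  · have : Ann p ∅ = ⊤ := by
      rw [eq_top_iff]
      intro c _ a ha
      simp at ha
    rw [this, finrank_top, finrank_E4] at h
    omega
  · exact h'

theorem mem_Ann_pair {V : Type*} [DecidableEq V] {p : V → E4} {c : E4} {v w : V} :
    c ∈ Ann p {v, w} ↔ c ⬝ᵥ p v = c ⬝ᵥ p w := by
  constructor
  · intro h
    exact h v (by simp) w (by simp)
  · intro h a ha b hb
    simp only [Finset.mem_insert, Finset.mem_singleton] at ha hb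
    rcases ha with rfl | rfl <;> rcases hb with rfl | rfl <;> simp only [h]

theorem mem_Ann_Mset {V : Type*} [Fintype V] (p : V → E4) (c : E4) : c ∈ Ann p (Mset p c) :=
  fun _ hv _ hw => (mem_Mset.1 hv).eq (mem_Mset.1 hw)

/-- The bottom face of a prism facet is a two-dimensional face. -/
theorem bottom_face {V R : Type*} [Fintype V] [Nonempty V] [Fintype R] [Nonempty R]
    [DecidableEq R] {p : V → E4} {d : Fin 4 → V → E4} {Φ : Finset V} {K : ℝ} (h : CK p d Φ K)
    {Q : R → E4} (hs : ∀ r, K * n1 (Q r) ≤ 1 / 2) (h2 : 2 ≤ Module.finrank ℝ (Ann p Φ))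
    {i j : R} (hf : Φ ×ˢ {i, j} ∈ faceSets (pp p d Q) 3) :
    Φ ×ˢ {i} ∈ faceSets (pp p d Q) 2 := by
  obtain ⟨⟨c, hc⟩, hdim⟩ := mem_faceSets.1 hf
  have hne := nonempty_of_finrank_lt (p := pp p d Q) (T := Φ ×ˢ {i, j}) (by omega)
  obtain ⟨v₀, hv₀⟩ := hne.fst
  have e1 := Ann_prod_eq h hs (F := {i, j}) (by simp) hv₀
  have e2 := Ann_prod_eq h hs (F := {i}) (by simp) hv₀
  rw [Ann_single_top, Submodule.comap_top, inf_top_eq] at e2
  have hle : Module.finrank ℝ (Ann p Φ) ≤ 2 := by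
    have k1 := finrank_inf_ge (Ann p Φ) ((Ann Q {i, j}).comap (Lm d v₀))
    have k2 := finrank_comap_ge (Lm d v₀) (Ann Q {i, j})
    have k3 := finrank_Ann_pair Q i j
    rw [← e1] at k1
    omega
  obtain ⟨u, hu, hu'⟩ : ∃ u ∈ Ann p Φ, Lm d v₀ u ⬝ᵥ Q j < Lm d v₀ u ⬝ᵥ Q i := by
    by_contra hn
    push Not at hn
    have : Ann p Φ ≤ Ann (pp p d Q) (Φ ×ˢ {i, j}) := by
      rw [e1]
      intro u hu
      refine ⟨hu, ?_⟩
      have k1 := hn u hu
      have k2 := hn (-u) (Submodule.neg_mem _ hu)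
      rw [map_neg, neg_dotProduct, neg_dotProduct] at k2
      exact mem_Ann_pair.2 (by linarith)
    have := Submodule.finrank_mono this
    omega
  obtain ⟨ζ, hζ⟩ := (lex (pp p d Q) c u).exists
  refine mem_faceSets.2 ⟨⟨c + ζ • u, ?_⟩, by rw [e2]; omega⟩
  have hval : ∀ v ∈ Φ, ∀ r, u ⬝ᵥ pp p d Q (v, r) = u ⬝ᵥ p v₀ + Lm d v₀ u ⬝ᵥ Q r := by
    intro v hv r
    rw [dot_pp, hu v hv v₀ hv₀, h.Lm_eq (maxOn_of_mem_Ann hu hv) (maxOn_of_mem_Ann hu hv₀)]
  have hM : ∀ a, IsMx (pp p d Q) c a ↔ a.1 ∈ Φ ∧ (a.2 = i ∨ a.2 = j) := by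
    intro a
    rw [← mem_Mset, ← hc]
    simp
  ext ⟨v, r⟩
  rw [mem_Mset, hζ, hM]
  simp only [Finset.mem_product, Finset.mem_singleton]
  constructor
  · rintro ⟨hv, rfl⟩
    refine ⟨⟨hv, Or.inl rfl⟩, ?_⟩
    rintro ⟨w, s⟩ hb
    obtain ⟨hw, hs'⟩ := (hM _).1 hb
    rw [hval w hw, hval v hv]
    rcases hs' with hs' | hs' <;> simp only at hs' <;> subst hs' <;> linarith
  · rintro ⟨⟨hv, hr⟩, hb⟩
    refine ⟨hv, hr.resolve_right ?_⟩
    rintro rfl
    have := hb (v, i) ((hM _).2 ⟨hv, Or.inl rfl⟩)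
    rw [hval v hv, hval v hv] at this
    linarith

variable {V : Type} [Fintype V] [DecidableEq V] [Nonempty V] (S : State V)

theorem stack_count (m : ℕ) (hm : 2 ≤ m) : ∃ q : V × Fin (m + 1) → E4, ∃ g e : ℕ,
    (∀ c, (∀ a, IsMx q c a) → c = 0) ∧ S.EE.card ≤ 2 * e ∧
    g ≤ m * (S.FF.card + S.TT.card) ∧ m + 1 ≤ (faceSets q 0).card ∧
    (faceSets q 0).card ≤ Fintype.card V * (m + 1) ∧
    (faceSets q 3).card ≤ g + 2 ^ (2 * Fintype.card V) ∧
    m * e ≤ (faceSets q 1).card ∧ m * e + g ≤ (faceSets q 2).card := by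
  classical
  obtain ⟨v₀⟩ : Nonempty V := inferInstance
  have E1 := stack_class S m
  have E2 : ∀ᶠ ε in 𝓝[>] (0 : ℝ), ∀ x ∈ S.EE, ∀ i : Fin (m + 1), _ :=
    (eventually_all_finset _).2 fun x hx => eventually_all.2 fun i =>
      stack_edge S m hx (2 * ((i : ℕ) : ℝ))
  have E3 : ∀ᶠ ε in 𝓝[>] (0 : ℝ), ∀ x ∈ S.EE, ∀ j : Fin m, _ :=
    (eventually_all_finset _).2 fun x hx => eventually_all.2 fun j =>
      stack_edge S m hx (2 * ((j : ℕ) : ℝ) + 1)
  have E4' : ∀ᶠ ε in 𝓝[>] (0 : ℝ), ∀ x ∈ S.EE, ∀ j : Fin m, _ :=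
    (eventually_all_finset _).2 fun x hx => eventually_all.2 fun j => stack_trans S m hx j
  have E5 : ∀ᶠ ε in 𝓝[>] (0 : ℝ), ∀ x ∈ S.EE, _ :=
    (eventually_all_finset _).2 fun x hx => stack_small S m (S.edge x hx).2.1
  have hflat : ∀ Φ ∈ S.FF ∪ S.TT, Flat S.p S.d Φ := fun Φ h =>
    (Finset.mem_union.1 h).elim (S.cF Φ) (S.cT Φ)
  have E6 : ∀ᶠ ε in 𝓝[>] (0 : ℝ), ∀ Φ ∈ S.FF ∪ S.TT, _ :=
    (eventually_all_finset _).2 fun Φ hΦ => stack_small S m (hflat Φ hΦ).1
  have E7 : ∀ᶠ ε in 𝓝[>] (0 : ℝ), ∀ i : Fin (m + 1), _ :=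
    eventually_all.2 fun i => stack_vertex S m v₀ i
  obtain ⟨ε, h1, h2, h3, h4, h5, h6, h7, hε⟩ :=
    (E1.and (E2.and (E3.and (E4'.and (E5.and (E6.and (E7.and self_mem_nhdsWithin))))))).exists
  have hε : 0 < ε := hε
  set q := pp S.p S.d (Qs m ε) with hq
  set EU := S.EE.image fun x => ({x.1, x.2} : Finset V) with hEU
  set G := ((S.FF ∪ S.TT) ×ˢ (Finset.univ : Finset (Fin m))).filter
    fun x => x.1 ×ˢ ({x.2.castSucc, x.2.succ} : Finset (Fin (m + 1))) ∈ faceSets q 3 with hG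
  have hfull : ∀ c, (∀ a, IsMx q c a) → c = 0 := by
    intro c hc
    by_contra hne
    obtain ⟨k1, Φ, -, k2⟩ := h1 c hne v₀ ⟨1, by omega⟩ (by simp) (by simp; omega) (hc _)
    have := Qs_close hε k1 (k2 v₀ 0 (hc _)).2 (k2 v₀ ⟨2, by omega⟩ (hc _)).2
    simp at this
  have hEne : ∀ Φ ∈ EU, Φ.Nonempty := by
    intro Φ hΦ
    obtain ⟨x, -, rfl⟩ := Finset.mem_image.1 hΦ
    simp
  have hGne : ∀ x ∈ G, x.1.Nonempty := by
    intro x hx
    have := (mem_faceSets.1 (Finset.mem_filter.1 hx).2).2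
    exact (nonempty_of_finrank_lt (p := q)
      (T := x.1 ×ˢ ({x.2.castSucc, x.2.succ} : Finset (Fin (m + 1)))) (by omega)).fst
  refine ⟨q, G.card, EU.card, hfull, card_le_two_mul_pairs _, ?_, ?_, ?_, ?_, ?_, ?_⟩
  · refine (Finset.card_filter_le _ _).trans ?_
    rw [Finset.card_product, Finset.card_univ, Fintype.card_fin, mul_comm]
    exact Nat.mul_le_mul_left _ (Finset.card_union_le _ _)
  · have := Finset.card_le_card_of_injOn (s := Finset.univ) (t := faceSets q 0)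
      (fun i : Fin (m + 1) => ({(v₀, i)} : Finset (V × Fin (m + 1)))) ?_ ?_
    · simpa using this
    · intro i _
      obtain ⟨c, hc⟩ := h7 i
      refine mem_faceSets.2 ⟨⟨c, ?_⟩, ?_⟩
      · ext a; rw [mem_Mset, hc, Finset.mem_singleton]
      · rw [Ann_single_top, finrank_top, finrank_E4]
    · intro i _ j _ hij
      simpa using hij
  · simpa using card_faceSets_zero q
  · have hsub : faceSets q 3 ⊆ (G.image fun x =>
        x.1 ×ˢ ({x.2.castSucc, x.2.succ} : Finset (Fin (m + 1)))) ∪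
        ((Finset.univ : Finset V) ×ˢ ({0, Fin.last m} : Finset (Fin (m + 1)))).powerset := by
      intro T hT
      obtain ⟨⟨c, rfl⟩, hdim⟩ := mem_faceSets.1 hT
      by_cases hb : Mset q c ⊆ (Finset.univ : Finset V) ×ˢ ({0, Fin.last m} : Finset _)
      · exact Finset.mem_union_right _ (Finset.mem_powerset.2 hb)
      refine Finset.mem_union_left _ ?_
      obtain ⟨⟨v, i⟩, ha, ha'⟩ := Finset.not_subset.1 hb
      have hi : (i : ℕ) ≠ 0 ∧ (i : ℕ) ≠ m := by
        simp only [Finset.mem_product, Finset.mem_univ, Finset.mem_insert, Finset.mem_singleton,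
          true_and, not_or] at ha'
        exact ⟨fun h => ha'.1 (Fin.ext h), fun h => ha'.2 (Fin.ext h)⟩
      have hc : c ≠ 0 := by
        rintro rfl
        have : Ann q (Mset q 0) = ⊥ := by
          rw [eq_bot_iff]
          intro u hu
          exact hfull u fun a b =>
            (hu b (mem_Mset.2 (isMx_zero _ _)) a (mem_Mset.2 (isMx_zero _ _))).le
        rw [this, finrank_bot] at hdim
        omega
      obtain ⟨k1, Φ, hΦ, k2⟩ := h1 c hc v i hi.1 hi.2 (mem_Mset.1 ha)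
      obtain ⟨j, hj⟩ := Qs_sub (m := m) (by omega) hε k1
      have hsub : Mset q c ⊆ Φ ×ˢ ({j.castSucc, j.succ} : Finset _) := by
        rintro ⟨u, s⟩ hu
        have := k2 u s (mem_Mset.1 hu)
        simpa using ⟨this.1, hj s this.2⟩
      have hmono := Ann_mono q hsub
      have hfr := Submodule.finrank_mono hmono
      have hΦne : Φ.Nonempty := ⟨v, (k2 v i (mem_Mset.1 ha)).1⟩
      have hpair := finrank_Ann_pair (Qs m ε) j.castSucc j.succ
      rcases hΦ with hΦ | hΦ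
      · obtain ⟨⟨K, -, hK⟩, hfl⟩ := hflat Φ hΦ
        have := finrank_Ann_prod hK (Qs m ε) {j.castSucc, j.succ} hΦne
        have heq : Ann q (Φ ×ˢ ({j.castSucc, j.succ} : Finset _)) = Ann q (Mset q c) :=
          Submodule.eq_of_le_of_finrank_le hmono (by rw [hq] at *; omega)
        have hT' : Mset q c = Φ ×ˢ ({j.castSucc, j.succ} : Finset _) := by
          refine Finset.Subset.antisymm hsub fun a ha2 => ?_
          have hcA : c ∈ Ann q (Φ ×ˢ ({j.castSucc, j.succ} : Finset _)) :=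
            heq ▸ mem_Ann_Mset q c
          exact mem_Mset.2 ((mem_Mset.1 ha).of_eq (hcA _ (hsub ha) _ ha2))
        refine Finset.mem_image.2 ⟨(Φ, j), ?_, hT'.symm⟩
        refine Finset.mem_filter.2 ⟨by simpa using hΦ, ?_⟩
        exact hT' ▸ hT
      · obtain ⟨⟨K, -, hK⟩, hfl⟩ := hΦ
        have := finrank_Ann_prod hK (Qs m ε) {j.castSucc, j.succ} hΦne
        rw [hq] at *
        omega
    refine (Finset.card_le_card hsub).trans ((Finset.card_union_le _ _).trans
      (add_le_add Finset.card_image_le ?_))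
    rw [Finset.card_powerset, Finset.card_product, Finset.card_univ, mul_comm]
    exact Nat.pow_le_pow_right (by norm_num) (Nat.mul_le_mul_right _ Finset.card_le_two)
  · have := Finset.card_le_card_of_injOn (s := EU ×ˢ (Finset.univ : Finset (Fin (m + 1))))
      (t := faceSets q 1) (fun x => x.1 ×ˢ ({x.2} : Finset (Fin (m + 1)))) ?_ ?_
    · rw [Finset.card_product, Finset.card_univ, Fintype.card_fin] at this
      nlinarith
    · rintro ⟨Φ, i⟩ hx
      obtain ⟨x, hx', rfl⟩ := Finset.mem_image.1 (Finset.mem_product.1 hx).1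
      obtain ⟨c, k1, k2, k3⟩ := h2 x hx' i
      obtain ⟨K, hK, hs⟩ := h5 x hx'
      refine mem_faceSets.2 ⟨⟨c, ?_⟩, ?_⟩
      · ext ⟨u, s⟩
        rw [mem_Mset, k3, Qs_single hε k1 i k2, Finset.mem_product]
        simp
      · rw [hq, Ann_prod_eq hK hs (by simp) (Finset.mem_insert_self _ _), Ann_single_top,
          Submodule.comap_top, inf_top_eq, S.finrank_edge hx']
    · rintro ⟨Φ, i⟩ hx ⟨Φ', i'⟩ hx' h
      have := product_inj (hEne Φ (Finset.mem_product.1 hx).1) (by simp) h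
      simp only [Finset.singleton_inj] at this
      exact Prod.ext this.1 this.2
  · set A := (EU ×ˢ (Finset.univ : Finset (Fin m))).image
      fun x => x.1 ×ˢ ({x.2.castSucc, x.2.succ} : Finset (Fin (m + 1))) with hA
    set B := G.image fun x => x.1 ×ˢ ({x.2.castSucc} : Finset (Fin (m + 1))) with hB
    have cA : A.card = m * EU.card := by
      rw [hA, Finset.card_image_of_injOn, Finset.card_product, Finset.card_univ,
        Fintype.card_fin, mul_comm]
      rintro ⟨Φ, i⟩ hx ⟨Φ', i'⟩ hx' h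
      have := product_inj (hEne Φ (Finset.mem_product.1 hx).1) (by simp) h
      refine Prod.ext this.1 ?_
      have k1 : i.castSucc ∈ ({i'.castSucc, i'.succ} : Finset _) := this.2 ▸ (by simp)
      have k2 : i.succ ∈ ({i'.castSucc, i'.succ} : Finset _) := this.2 ▸ (by simp)
      simp only [Finset.mem_insert, Finset.mem_singleton, Fin.ext_iff, Fin.val_castSucc,
        Fin.val_succ] at k1 k2 ⊢
      omega
    have cB : B.card = G.card := by
      rw [hB, Finset.card_image_of_injOn]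
      rintro ⟨Φ, i⟩ hx ⟨Φ', i'⟩ hx' h
      have := product_inj (hGne _ hx) (by simp) h
      refine Prod.ext this.1 ?_
      simpa using this.2
    have hdisj : Disjoint A B := by
      rw [Finset.disjoint_left]
      intro T hTA hTB
      obtain ⟨⟨Φ, i⟩, hx, rfl⟩ := Finset.mem_image.1 hTA
      obtain ⟨⟨Φ', i'⟩, hx', h⟩ := Finset.mem_image.1 hTB
      have := product_inj (hGne _ hx') (by simp) h
      have k1 : i.castSucc ∈ ({i'.castSucc} : Finset _) := this.2 ▸ (by simp)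
      have k2 : i.succ ∈ ({i'.castSucc} : Finset _) := this.2 ▸ (by simp)
      simp only [Finset.mem_singleton, Fin.ext_iff, Fin.val_castSucc, Fin.val_succ] at k1 k2
      omega
    rw [← cA, ← cB, ← Finset.card_union_of_disjoint hdisj]
    refine Finset.card_le_card (Finset.union_subset ?_ ?_)
    · intro T hT
      obtain ⟨⟨Φ, j⟩, hx, rfl⟩ := Finset.mem_image.1 hT
      obtain ⟨x, hx', rfl⟩ := Finset.mem_image.1 (Finset.mem_product.1 hx).1
      obtain ⟨c, k1, k2, k3⟩ := h3 x hx' j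
      obtain ⟨K, hK, hs⟩ := h5 x hx'
      obtain ⟨n, hn, hn'⟩ := h4 x hx' j
      refine mem_faceSets.2 ⟨⟨c, ?_⟩, ?_⟩
      · ext ⟨u, s⟩
        rw [mem_Mset, k3, Qs_pair hε k1 j k2]
        simp
      · have e1 := finrank_Ann_prod hK (Qs m ε) {j.castSucc, j.succ} (by simp)
        have e2 := S.finrank_edge hx'
        have e3 := finrank_Ann_pair (Qs m ε) j.castSucc j.succ
        have e4 := Ann_prod_eq hK hs (F := {j.castSucc, j.succ}) (by simp)
          (Finset.mem_insert_self _ _)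
        have e5 : Module.finrank ℝ (Ann (pp S.p S.d (Qs m ε))
            (({x.1, x.2} : Finset V) ×ˢ ({j.castSucc, j.succ} : Finset _))) <
            Module.finrank ℝ (Ann S.p {x.1, x.2}) := by
          refine finrank_lt_of_not_mem (e4 ▸ inf_le_left) hn fun h => ?_
          rw [e4] at h
          exact hn' (mem_Ann_pair.1 h.2)
        rw [← hq] at e1 e5
        dsimp only
        omega
    · intro T hT
      obtain ⟨⟨Φ, j⟩, hx, rfl⟩ := Finset.mem_image.1 hT
      obtain ⟨k1, k2⟩ := Finset.mem_filter.1 hx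
      have hΦ := (Finset.mem_product.1 k1).1
      obtain ⟨K, hK, hs⟩ := h6 Φ hΦ
      exact bottom_face hK hs (hflat Φ hΦ).2 k2

theorem stack_final (M : ℝ) (hM : 1 ≤ M)
    (gap : (M - 1) * ((S.FF.card : ℝ) + S.TT.card) + M * Fintype.card V < S.EE.card) :
    ∃ P : Finset (Fin 4 → ℝ), ∃ f : ℕ → ℕ,
      (interior (convexHull ℝ (P : Set (Fin 4 → ℝ)))).Nonempty ∧
      (∀ k : ℕ, f k = Set.ncard {F : Set (Fin 4 → ℝ) |
          IsExposed ℝ (convexHull ℝ (P : Set (Fin 4 → ℝ))) F ∧ F.Nonempty ∧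
          Module.finrank ℝ (affineSpan ℝ F).direction = k}) ∧
      10 < f 0 + f 3 ∧
      M * ((f 0 : ℝ) + (f 3 : ℝ) - 10) < (f 1 : ℝ) + (f 2 : ℝ) - 20 := by
  set N : ℝ := ((Fintype.card V : ℕ) : ℝ) with hN
  set G : ℝ := (S.FF.card : ℝ) + S.TT.card with hG
  set C : ℝ := ((2 ^ (2 * Fintype.card V) : ℕ) : ℝ) with hC
  set γ : ℝ := (S.EE.card : ℝ) - ((M - 1) * G + M * N) with hγ
  have hγ0 : 0 < γ := by linarith
  obtain ⟨m, hm⟩ := exists_nat_gt (max 10 ((M * N + M * C + 20) / γ))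
  have hm1 : (10 : ℝ) < m := (le_max_left _ _).trans_lt hm
  have hm2 : M * N + M * C + 20 < m * γ := (div_lt_iff₀ hγ0).1 ((le_max_right _ _).trans_lt hm)
  have hm3 : 10 < m := by exact_mod_cast hm1
  obtain ⟨q, g, e, h1, h2, h3, h4, h5, h6, h7, h8⟩ := stack_count S m (by omega)
  refine package q M h1 (by omega) ?_
  have k2 : (S.EE.card : ℝ) ≤ 2 * e := by exact_mod_cast h2
  have k3 : (g : ℝ) ≤ m * G := by rw [hG]; exact_mod_cast h3
  have k5 : ((faceSets q 0).card : ℝ) ≤ N * (m + 1) := by rw [hN]; exact_mod_cast h5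
  have k6 : ((faceSets q 3).card : ℝ) ≤ g + C := by rw [hC]; exact_mod_cast h6
  have k7 : (m : ℝ) * e ≤ (faceSets q 1).card := by exact_mod_cast h7
  have k8 : (m : ℝ) * e + g ≤ (faceSets q 2).card := by exact_mod_cast h8
  have k9 : M * (((faceSets q 0).card : ℝ) + ((faceSets q 3).card : ℝ) - 10) ≤
      M * (N * (m + 1) + g + C) := mul_le_mul_of_nonneg_left (by linarith) (by linarith)
  have k10 : (M - 1) * g ≤ (M - 1) * (m * G) := mul_le_mul_of_nonneg_left k3 (by linarith)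
  have k11 : (m : ℝ) * S.EE.card ≤ m * (2 * e) := mul_le_mul_of_nonneg_left k2 (by linarith)
  nlinarith

end Pool.Agent.Fat
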