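import Pool.Agent.Lib.MP_bbcf47_co.Prod

/-! The state of the inductive construction, and general limiting tools. -/

namespace Pool.Agent.Fat

open Matrix Filter Topology

variable {V R : Type*}

/-- A compatible set contained in a line. -/
def Thin (p : V → E4) (d : Fin 4 → V → E4) (Φ : Finset V) : Prop :=
  Compat p d Φ ∧ 3 ≤ Module.finrank ℝ (Ann p Φ)

/-- A compatible set contained in a plane. -/
def Flat (p : V → E4) (d : Fin 4 → V → E4) (Φ : Finset V) : Prop :=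
  Compat p d Φ ∧ 2 ≤ Module.finrank ℝ (Ann p Φ)

/-- The state: points, four fields (height, cut, side, transversal), faces and edges. -/
structure State (V : Type) [DecidableEq V] where
  p : V → E4
  d : Fin 4 → V → E4
  FF : Finset (Finset V)
  TT : Finset (Finset V)
  EE : Finset (V × V)
  A : V → V
  O : V → V
  A_inv : ∀ v, A (A v) = v
  A_ne : ∀ v, A v ≠ v
  cA : ∀ v, Compat p d {v, A v}
  cO : ∀ v, Compat p d {v, O v}
  cF : ∀ Φ ∈ FF, Flat p d Φ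
  cT : ∀ Φ ∈ TT, Flat p d Φ
  inj : ∀ v c, Lm d v c = 0 → c = 0
  base : ∀ v c, Lm d v c = ![1, 0, 0, 0] → ∀ w, IsMx p c w ↔ w = v
  pos : ∀ v c, IsMx p c v → Lm d v c 3 = 0 → c ≠ 0 → 0 < Lm d v c 0
  xpos : ∀ v c, IsMx p c v → Lm d v c 3 = 0 → 0 < Lm d v c 1 →
    ∃ Φ, (Φ ∈ FF ∨ Thin p d Φ) ∧ ∀ w, IsMx p c w → w ∈ Φ
  xneg : ∀ v c, IsMx p c v → Lm d v c 3 = 0 → Lm d v c 1 < 0 →
    ∃ Φ, (Φ ∈ TT ∨ Thin p d Φ) ∧ ∀ w, IsMx p c w → w ∈ Φ
  mpos : ∀ v c, IsMx p c v → Lm d v c 3 = 0 → Lm d v c 1 = 0 → 0 < Lm d v c 2 →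
    ∀ w, IsMx p c w → w = v ∨ w = A v
  mneg : ∀ v c, IsMx p c v → Lm d v c 3 = 0 → Lm d v c 1 = 0 → Lm d v c 2 < 0 →
    ∀ w, IsMx p c w → w = v ∨ w = O v
  edge : ∀ x ∈ EE, x.1 ≠ x.2 ∧ Compat p d {x.1, x.2} ∧ ∃ c n,
    (∀ w, IsMx p c w ↔ w = x.1 ∨ w = x.2) ∧ Lm d x.1 c 3 = 0 ∧ 0 < Lm d x.1 c 1 ∧
    n ⬝ᵥ p x.1 = n ⬝ᵥ p x.2 ∧ Lm d x.1 n 3 = 1

namespace State

variable {V : Type} [DecidableEq V] (S : State V)

theorem mzero {v : V} {c : E4} (hv : IsMx S.p c v) (h3 : Lm S.d v c 3 = 0) (hc : c ≠ 0)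
    (h1 : Lm S.d v c 1 = 0) (h2 : Lm S.d v c 2 = 0) (w : V) : IsMx S.p c w ↔ w = v := by
  have h0 := S.pos v c hv h3 hc
  have := S.base v ((Lm S.d v c 0)⁻¹ • c) (by
    rw [map_smul]
    ext i
    fin_cases i
    · simp [h0.ne']
    · simp [h1]
    · simp [h2]
    · simp [h3]) w
  rwa [isMx_smul (inv_pos.2 h0)] at this

theorem thin_pair {v w : V} (h : Compat S.p S.d {v, w}) : Thin S.p S.d {v, w} :=
  ⟨h, finrank_Ann_pair _ _ _⟩

theorem cover {v : V} {c : E4} (hv : IsMx S.p c v) (h3 : Lm S.d v c 3 = 0) (hc : c ≠ 0) :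
    ∃ Φ, (Φ ∈ S.FF ∪ S.TT ∨ Thin S.p S.d Φ) ∧ ∀ w, IsMx S.p c w → w ∈ Φ := by
  rcases lt_trichotomy (Lm S.d v c 1) 0 with h | h | h
  · obtain ⟨Φ, h1, h2⟩ := S.xneg v c hv h3 h
    exact ⟨Φ, h1.imp (fun h => Finset.mem_union_right _ h) id, h2⟩
  · rcases lt_trichotomy (Lm S.d v c 2) 0 with h' | h' | h'
    · refine ⟨{v, S.O v}, Or.inr (S.thin_pair (S.cO v)), fun w hw => ?_⟩
      simpa using S.mneg v c hv h3 h h' w hw
    · refine ⟨{v, S.O v}, Or.inr (S.thin_pair (S.cO v)), fun w hw => ?_⟩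
      simp [(S.mzero hv h3 hc h h' w).1 hw]
    · refine ⟨{v, S.A v}, Or.inr (S.thin_pair (S.cA v)), fun w hw => ?_⟩
      simpa using S.mpos v c hv h3 h h' w hw
  · obtain ⟨Φ, h1, h2⟩ := S.xpos v c hv h3 h
    exact ⟨Φ, h1.imp (fun h => Finset.mem_union_left _ h) id, h2⟩

/-- The chart as a linear equivalence. -/
noncomputable def chart (v : V) : E4 ≃ₗ[ℝ] E4 :=
  LinearEquiv.ofInjectiveEndo (Lm S.d v) ((injective_iff_map_eq_zero _).2 (S.inj v))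

theorem Lm_chart_symm (v : V) (a : E4) : Lm S.d v ((S.chart v).symm a) = a :=
  (S.chart v).apply_symm_apply a

theorem chart_symm_Lm (v : V) (c : E4) : (S.chart v).symm (Lm S.d v c) = c :=
  (S.chart v).symm_apply_apply c

theorem continuous_chart_symm (v : V) : Continuous (S.chart v).symm :=
  (S.chart v).symm.toLinearMap.continuous_of_finiteDimensional

theorem finrank_edge {x : V × V} (hx : x ∈ S.EE) :
    Module.finrank ℝ (Ann S.p {x.1, x.2}) = 3 := by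
  have h1 := finrank_Ann_pair S.p x.1 x.2
  have hb := S.base x.1 _ (S.Lm_chart_symm x.1 _)
  have h2 : Module.finrank ℝ (Ann S.p {x.1, x.2}) < Module.finrank ℝ (⊤ : Submodule ℝ E4) := by
    refine finrank_lt_of_not_mem le_top
      (Submodule.mem_top (x := (S.chart x.1).symm ![1, 0, 0, 0])) fun h => ?_
    have h3 := h x.1 (by simp) x.2 (by simp)
    exact (S.edge x hx).1 ((hb x.2).1 (((hb x.1).2 rfl).of_eq h3)).symm
  rw [finrank_top, finrank_E4] at h2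
  omega

end State

theorem continuous_Lm (d : Fin 4 → V → E4) (v : V) : Continuous (Lm d v) :=
  (Lm d v).continuous_of_finiteDimensional

theorem tendsto_Lm {X : Type*} {l : Filter X} (d : Fin 4 → V → E4) (v : V) {c : X → E4}
    {c₀ : E4} (hc : Tendsto c l (𝓝 c₀)) (i : Fin 4) :
    Tendsto (fun x => Lm d v (c x) i) l (𝓝 (Lm d v c₀ i)) :=
  tendsto_dot hc tendsto_const_nhds

/-- Compactness of the sphere of linear forms. -/
theorem sphere_eventually {P : ℝ → E4 → Prop}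
    (hP : ∀ ε c (t : ℝ), 0 < t → P ε (t • c) → P ε c)
    (h : ∀ c₀ : E4, c₀ ≠ 0 → ∀ᶠ z : ℝ × E4 in 𝓝 (0, c₀), 0 < z.1 → P z.1 z.2) :
    ∀ᶠ ε in 𝓝[>] (0 : ℝ), ∀ c : E4, c ≠ 0 → P ε c := by
  have h1 := (isCompact_sphere (0 : E4) 1).eventually_forall_of_forall_eventually
    (x₀ := (0 : ℝ)) (P := fun ε c => 0 < ε → P ε c) (fun c hc => h c (by
      rintro rfl
      simp at hc))
  filter_upwards [h1.filter_mono nhdsWithin_le_nhds, self_mem_nhdsWithin] with ε hε hpos c hc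
  have hn : 0 < ‖c‖ := norm_pos_iff.2 hc
  refine hP ε c ‖c‖⁻¹ (inv_pos.2 hn) (hε _ ?_ hpos)
  simp [norm_smul, hn.ne']

/-- Exact description of the maximizers near a covector whose maximizers lie in `Φ`. -/
theorem cert_eventually [Fintype V] [Nonempty V] [Fintype R] [Nonempty R] {X : Type*}
    {l : Filter X} {p : V → E4} {d : Fin 4 → V → E4} {Φ : Finset V} (hΦ : Compat p d Φ)
    {Q : X → R → E4} (hQ : ∀ r, Tendsto (fun x => Q x r) l (𝓝 0))
    {c : X → E4} {c₀ : E4} (hc : Tendsto c l (𝓝 c₀)) (hM : ∀ w, IsMx p c₀ w → w ∈ Φ) :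
    ∀ᶠ x in l, ∀ u s, IsMx (pp p d (Q x)) (c x) (u, s) ↔
      MaxOn p Φ (c x) u ∧ IsMx (Q x) (Lm d u (c x)) s := by
  obtain ⟨K, -, hK⟩ := hΦ
  filter_upwards [small_eventually K hQ, usc_pp p d hQ hc] with x h1 h2 u s
  exact prodmax_glob hK h1 (fun a ha => hM _ (h2 a ha)) u s

/-- Localization: all maximizers have the same chart value. -/
theorem loc_eventually [Fintype V] [Nonempty V] [Fintype R] [Nonempty R] {X : Type*}
    {l : Filter X} {p : V → E4} {d : Fin 4 → V → E4} {Φ : Finset V} (hΦ : Compat p d Φ)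
    {Q : X → R → E4} (hQ : ∀ r, Tendsto (fun x => Q x r) l (𝓝 0))
    {c : X → E4} {c₀ : E4} (hc : Tendsto c l (𝓝 c₀)) (hM : ∀ w, IsMx p c₀ w → w ∈ Φ) :
    ∀ᶠ x in l, ∀ v r, IsMx (pp p d (Q x)) (c x) (v, r) →
      ∀ u s, IsMx (pp p d (Q x)) (c x) (u, s) →
        IsMx p c₀ u ∧ IsMx (Q x) (Lm d v (c x)) s := by
  obtain ⟨K, -, hK⟩ := hΦ
  filter_upwards [small_eventually K hQ, usc_pp p d hQ hc] with x h1 h2 v r hv u s hu
  have k1 := (prodmax_glob hK h1 (fun a ha => hM _ (h2 a ha)) v r).1 hv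
  have k2 := (prodmax_glob hK h1 (fun a ha => hM _ (h2 a ha)) u s).1 hu
  exact ⟨h2 _ hu, hK.Lm_eq k1.1 k2.1 ▸ k2.2⟩

theorem product_inj {α β : Type*} {s s' : Finset α} {t t' : Finset β} (hs : s.Nonempty)
    (ht : t.Nonempty) (h : s ×ˢ t = s' ×ˢ t') : s = s' ∧ t = t' := by
  obtain ⟨a, ha⟩ := hs
  obtain ⟨b, hb⟩ := ht
  have h0 : (a, b) ∈ s' ×ˢ t' := h ▸ Finset.mem_product.2 ⟨ha, hb⟩
  rw [Finset.mem_product] at h0
  have key : ∀ x y, (x ∈ s ∧ y ∈ t) ↔ (x ∈ s' ∧ y ∈ t') := fun x y => by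
    have := congrArg (fun u => (x, y) ∈ u) h
    simpa using this
  constructor
  · ext x
    exact ⟨fun hx => ((key x b).1 ⟨hx, hb⟩).1, fun hx => ((key x b).2 ⟨hx, h0.2⟩).1⟩
  · ext y
    exact ⟨fun hy => ((key a y).1 ⟨ha, hy⟩).2, fun hy => ((key a y).2 ⟨h0.1, hy⟩).2⟩

theorem card_le_two_mul_pairs [DecidableEq V] (E : Finset (V × V)) :
    E.card ≤ 2 * (E.image fun x => ({x.1, x.2} : Finset V)).card := by
  refine Finset.card_le_mul_card_image E 2 ?_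
  intro T hT
  obtain ⟨⟨a, b⟩, -, rfl⟩ := Finset.mem_image.1 hT
  refine (Finset.card_le_card (t := {(a, b), (b, a)}) ?_).trans Finset.card_le_two
  rintro ⟨x, y⟩ hxy
  have h := (Finset.mem_filter.1 hxy).2
  simp only at h
  have h' : ({x, y} : Set V) = {a, b} := by
    have := congrArg (fun s : Finset V => (s : Set V)) h
    simpa using this
  rw [Set.pair_eq_pair_iff] at h'
  rcases h' with ⟨rfl, rfl⟩ | ⟨rfl, rfl⟩ <;> simp

end Pool.Agent.Fat
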